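import Mathlib

/-! Bernoulli shift of a countable group and Walsh functions. -/

set_option autoImplicit false

namespace Pool.Agent.H73

open MeasureTheory Function
open scoped ENNReal

/-- The fair coin. -/
noncomputable def coin : Measure Bool := (2 : ℝ≥0∞)⁻¹ • Measure.count

instance : IsProbabilityMeasure coin := by
  constructor
  unfold coin
  rw [Measure.smul_apply, Measure.count_apply_finite _ (Set.toFinite _)]
  simp
  exact ENNReal.inv_mul_cancel (by norm_num) (by norm_num)

theorem coin_single (b : Bool) : coin {b} = 2⁻¹ := by
  unfold coin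
  rw [Measure.smul_apply, Measure.count_singleton]
  simp

theorem coin_not : coin.map not = coin := by
  ext s _
  rw [Measure.map_apply (by fun_prop) (by measurability)]
  unfold coin
  rw [Measure.smul_apply, Measure.smul_apply]
  congr 1
  rw [Measure.count_apply_finite _ (Set.toFinite _), Measure.count_apply_finite _ (Set.toFinite _)]
  congr 1
  refine Finset.card_nbij' not not ?_ ?_ ?_ ?_
  · intro b hb
    simpa using hb
  · intro b hb
    simpa using hb
  · intro b _
    simp
  · intro b _
    simp

section shift

variable {G : Type} [Group G]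

/-- The product measure. -/
noncomputable def mu (G : Type) : Measure (G → Bool) := Measure.infinitePi (fun _ : G => coin)

instance : IsProbabilityMeasure (mu G) := by
  unfold mu
  infer_instance

/-- The shift. -/
def act (γ : G) (x : G → Bool) : G → Bool := fun δ => x (γ⁻¹ * δ)

@[simp] theorem act_one (x : G → Bool) : act 1 x = x := by
  funext δ
  simp [act]

theorem act_mul (γ γ' : G) (x : G → Bool) : act (γ * γ') x = act γ (act γ' x) := by
  funext δ
  simp [act, mul_assoc]

theorem act_inv_act (γ : G) (x : G → Bool) : act γ⁻¹ (act γ x) = x := by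
  rw [← act_mul]
  simp

theorem act_act_inv (γ : G) (x : G → Bool) : act γ (act γ⁻¹ x) = x := by
  rw [← act_mul]
  simp

theorem measurable_act (γ : G) : Measurable (act γ : (G → Bool) → (G → Bool)) := by
  refine measurable_pi_lambda _ fun δ => ?_
  exact measurable_pi_apply _

theorem continuous_act (γ : G) : Continuous (act γ : (G → Bool) → (G → Bool)) := by
  refine continuous_pi fun δ => ?_
  exact continuous_apply _

theorem mp_act (γ : G) : MeasurePreserving (act γ) (mu G) (mu G) where
  measurable := measurable_act γ
  map_eq := by
    have h := Measure.infinitePi_map_piCongrLeft (fun _ : G => coin) (Equiv.mulLeft γ)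
    have h2 : (act γ : (G → Bool) → (G → Bool)) =
        ⇑(MeasurableEquiv.piCongrLeft (fun _ : G => Bool) (Equiv.mulLeft γ)) := by
      funext x δ
      have h3 := Equiv.piCongrLeft_apply_apply (P := fun _ : G => Bool) (Equiv.mulLeft γ) x
        (γ⁻¹ * δ)
      have h4 : (Equiv.mulLeft γ) (γ⁻¹ * δ) = δ := by simp
      rw [h4] at h3
      exact h3.symm
    unfold mu
    rw [h2]
    exact h

theorem mu_preimage (γ : G) {A : Set (G → Bool)} (hA : MeasurableSet A) :
    mu G (act γ ⁻¹' A) = mu G A := (mp_act γ).measure_preimage hA.nullMeasurableSet

end shift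

section walsh

variable {G : Type}

/-- Walsh functions. -/
noncomputable def chi (F : Finset G) (x : G → Bool) : ℝ := ∏ g ∈ F, (if x g then (-1 : ℝ) else 1)

@[simp] theorem chi_empty (x : G → Bool) : chi ∅ x = 1 := by simp [chi]

theorem chi_sq (F : Finset G) (x : G → Bool) : chi F x * chi F x = 1 := by
  unfold chi
  rw [← Finset.prod_mul_distrib]
  refine Finset.prod_eq_one fun g _ => ?_
  split <;> norm_num

theorem abs_chi (F : Finset G) (x : G → Bool) : |chi F x| = 1 := by
  have h := chi_sq F x
  rw [← abs_mul_abs_self] at h
  nlinarith [abs_nonneg (chi F x)]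

theorem measurable_chi (F : Finset G) : Measurable (chi F) := by
  unfold chi
  refine Finset.measurable_prod _ fun g _ => ?_
  have : Measurable (fun x : G → Bool => x g) := measurable_pi_apply g
  exact (measurable_from_top (f := fun b : Bool => if b then (-1 : ℝ) else 1)).comp this

theorem integrable_chi (F : Finset G) : Integrable (chi F) (mu G) := by
  refine Integrable.of_bound (measurable_chi F).aestronglyMeasurable 1 ?_
  filter_upwards with x
  rw [Real.norm_eq_abs, abs_chi]

theorem chi_mul [DecidableEq G] (F F' : Finset G) (x : G → Bool) :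
    chi F x * chi F' x = chi (symmDiff F F') x := by
  have h1 : ∀ A B : Finset G, Disjoint A B → chi (A ∪ B) x = chi A x * chi B x := by
    intro A B h
    unfold chi
    exact Finset.prod_union h
  have e1 : F = (F \ F') ∪ (F ∩ F') := by
    ext g; simp only [Finset.mem_union, Finset.mem_sdiff, Finset.mem_inter]; tauto
  have e2 : F' = (F' \ F) ∪ (F ∩ F') := by
    ext g; simp only [Finset.mem_union, Finset.mem_sdiff, Finset.mem_inter]; tauto
  have d1 : Disjoint (F \ F') (F ∩ F') := by
    rw [Finset.disjoint_left]; intro g; simp only [Finset.mem_sdiff, Finset.mem_inter]; tauto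
  have d2 : Disjoint (F' \ F) (F ∩ F') := by
    rw [Finset.disjoint_left]; intro g; simp only [Finset.mem_sdiff, Finset.mem_inter]; tauto
  have d3 : Disjoint (F \ F') (F' \ F) := by
    rw [Finset.disjoint_left]; intro g; simp only [Finset.mem_sdiff]; tauto
  have e3 : symmDiff F F' = (F \ F') ∪ (F' \ F) := rfl
  rw [e3, h1 _ _ d3]
  have f1 : chi F x = chi (F \ F') x * chi (F ∩ F') x := by
    rw [← h1 _ _ d1, ← e1]
  have f2 : chi F' x = chi (F' \ F) x * chi (F ∩ F') x := by
    rw [← h1 _ _ d2, ← e2]
  rw [f1, f2]
  have := chi_sq (F ∩ F') x
  linear_combination (chi (F \ F') x * chi (F' \ F) x) * this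

theorem integral_chi (F : Finset G) (hF : F.Nonempty) : ∫ x, chi F x ∂(mu G) = 0 := by
  classical
  obtain ⟨g, hg⟩ := hF
  let fl : (G → Bool) → (G → Bool) := fun x i => (if i = g then not (x i) else x i)
  have hmp : MeasurePreserving fl (mu G) (mu G) := by
    constructor
    · refine measurable_pi_lambda _ fun i => ?_
      by_cases h : i = g
      · simp only [h, if_true, fl]
        exact (measurable_from_top (f := not)).comp (measurable_pi_apply g)
      · simp only [h, if_false, fl]
        exact measurable_pi_apply i
    · have h := Measure.infinitePi_map_pi (fun _ : G => coin)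
        (f := fun i b => if i = g then not b else b) (fun i => by
          by_cases h : i = g
          · simp only [h, if_true]; exact measurable_from_top
          · simp only [h, if_false]; exact measurable_from_top)
      unfold mu
      have h2 : (fun i => coin.map (fun b => if i = g then not b else b)) =
          (fun _ : G => coin) := by
        funext i
        by_cases h : i = g
        · simp only [h, if_true]
          exact coin_not
        · simp only [h, if_false]
          exact Measure.map_id
      rw [h2] at h
      exact h
  have h1 : ∀ x, chi F (fl x) = - chi F x := by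
    intro x
    unfold chi
    rw [← Finset.mul_prod_erase F _ hg, ← Finset.mul_prod_erase F _ hg, ← neg_mul]
    congr 1
    · simp only [fl, if_true]
      cases x g <;> simp
    · refine Finset.prod_congr rfl fun i hi => ?_
      have : i ≠ g := (Finset.mem_erase.mp hi).1
      simp only [fl, this, if_false]
  have h2 : ∫ x, chi F x ∂(mu G) = ∫ x, chi F (fl x) ∂(mu G) := by
    have h3 := integral_map (μ := mu G) (φ := fl) hmp.measurable.aemeasurable
      (f := chi F) (measurable_chi F).aestronglyMeasurable
    rw [hmp.map_eq] at h3
    exact h3
  simp_rw [h1] at h2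
  rw [integral_neg] at h2
  linarith

/-- Evaluation of finitely supported Walsh expansions. -/
noncomputable def ev (a : Finset G →₀ ℝ) (x : G → Bool) : ℝ := a.sum (fun F c => c * chi F x)

theorem ev_add (a b : Finset G →₀ ℝ) (x : G → Bool) : ev (a + b) x = ev a x + ev b x := by
  classical
  unfold ev
  rw [Finsupp.sum_add_index']
  · intro F; simp
  · intro F c d; ring

theorem ev_zero (x : G → Bool) : ev (0 : Finset G →₀ ℝ) x = 0 := by
  simp [ev]

theorem ev_finset_sum {ι : Type} (s : Finset ι) (a : ι → (Finset G →₀ ℝ)) (x : G → Bool) :
    ev (∑ i ∈ s, a i) x = ∑ i ∈ s, ev (a i) x := by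
  classical
  induction s using Finset.induction_on with
  | empty => simp [ev_zero]
  | insert i s hi ih => rw [Finset.sum_insert hi, Finset.sum_insert hi, ev_add, ih]

theorem measurable_ev (a : Finset G →₀ ℝ) : Measurable (ev a) := by
  unfold ev Finsupp.sum
  exact Finset.measurable_sum _ fun F _ => (measurable_chi F).const_mul _

theorem integral_ev (a : Finset G →₀ ℝ) : ∫ x, ev a x ∂(mu G) = a ∅ := by
  classical
  unfold ev Finsupp.sum
  rw [integral_finsetSum]
  · have : ∀ F ∈ a.support, ∫ x, a F * chi F x ∂(mu G) = if F = ∅ then a ∅ else 0 := by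
      intro F _
      rw [integral_const_mul]
      by_cases h : F = ∅
      · subst h
        simp
      · rw [integral_chi F (Finset.nonempty_iff_ne_empty.mpr h)]
        simp [h]
    rw [Finset.sum_congr rfl this, Finset.sum_ite_eq' a.support ∅ (fun _ => a ∅)]
    split_ifs with h
    · rfl
    · exact (Finsupp.notMem_support_iff.mp h).symm
  · intro F _
    exact (integrable_chi F).const_mul _

theorem integral_ev_sq (a : Finset G →₀ ℝ) :
    ∫ x, ev a x ^ 2 ∂(mu G) = ∑ F ∈ a.support, a F ^ 2 := by
  classical
  have h1 : ∀ x, ev a x ^ 2 = ∑ F ∈ a.support, ∑ F' ∈ a.support,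
      a F * a F' * chi (symmDiff F F') x := by
    intro x
    unfold ev Finsupp.sum
    rw [sq, Finset.sum_mul_sum]
    refine Finset.sum_congr rfl fun F _ => Finset.sum_congr rfl fun F' _ => ?_
    rw [← chi_mul]
    ring
  simp_rw [h1]
  rw [integral_finsetSum]
  · refine Finset.sum_congr rfl fun F hF => ?_
    rw [integral_finsetSum]
    · have : ∀ F' ∈ a.support, ∫ x, a F * a F' * chi (symmDiff F F') x ∂(mu G) =
          if F' = F then a F ^ 2 else 0 := by
        intro F' _
        rw [integral_const_mul]
        by_cases h : F' = F
        · subst h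
          simp [sq]
        · rw [integral_chi, mul_zero]
          · simp [h]
          · rw [Finset.nonempty_iff_ne_empty]
            intro h2
            exact h (symmDiff_eq_bot.mp h2).symm
      rw [Finset.sum_congr rfl this, Finset.sum_ite_eq' a.support F (fun _ => a F ^ 2)]
      simp [hF]
    · intro F' _
      exact (integrable_chi _).const_mul _
  · intro F _
    exact integrable_finsetSum _ fun F' _ => (integrable_chi _).const_mul _

end walsh

end Pool.Agent.H73
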