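import Pool.Agent.H73.Bern1

/-! The expansion inequality for the Bernoulli shift. -/

set_option autoImplicit false

namespace Pool.Agent.H73

open MeasureTheory Function
open scoped ENNReal

section pointwise

/-- Elementary inequality. -/
theorem sum_sq_bound (k : ℕ) (t : ℕ → ℝ) (A B C : ℕ → Prop) [DecidablePred A] [DecidablePred B]
    [DecidablePred C] (h : ∀ i, i < k → A i ∨ B i ∨ C i)
    (hC : ((Finset.range k).filter C).card ≤ 3) :
    (∑ i ∈ Finset.range k, t i) ^ 2 ≤ ∑ i ∈ Finset.range k,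
      ((if A i then 3 * (k : ℝ) * t i ^ 2 else 0) + (if B i then 3 * (k : ℝ) * t i ^ 2 else 0) +
        9 * t i ^ 2) := by
  classical
  set s := Finset.range k with hs
  have e1 : ∑ i ∈ s, t i = ∑ i ∈ s.filter A, t i + ∑ i ∈ (s.filter (fun i => ¬ A i)).filter B, t i +
      ∑ i ∈ (s.filter (fun i => ¬ A i)).filter (fun i => ¬ B i), t i := by
    rw [add_assoc, Finset.sum_filter_add_sum_filter_not, Finset.sum_filter_add_sum_filter_not]
  set x := ∑ i ∈ s.filter A, t i
  set y := ∑ i ∈ (s.filter (fun i => ¬ A i)).filter B, t i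
  set z := ∑ i ∈ (s.filter (fun i => ¬ A i)).filter (fun i => ¬ B i), t i
  have hx : x ^ 2 ≤ k * ∑ i ∈ s.filter A, t i ^ 2 := by
    refine (sq_sum_le_card_mul_sum_sq).trans ?_
    refine mul_le_mul_of_nonneg_right ?_ (Finset.sum_nonneg fun i _ => sq_nonneg _)
    have : (s.filter A).card ≤ k := by
      refine (Finset.card_filter_le _ _).trans ?_
      rw [hs, Finset.card_range]
    exact_mod_cast this
  have hy : y ^ 2 ≤ k * ∑ i ∈ s.filter B, t i ^ 2 := by
    refine (sq_sum_le_card_mul_sum_sq).trans ?_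
    have h1 : ((s.filter (fun i => ¬ A i)).filter B).card ≤ k := by
      refine (Finset.card_filter_le _ _).trans ((Finset.card_filter_le _ _).trans ?_)
      rw [hs, Finset.card_range]
    have h2 : ∑ i ∈ (s.filter (fun i => ¬ A i)).filter B, t i ^ 2 ≤ ∑ i ∈ s.filter B, t i ^ 2 := by
      refine Finset.sum_le_sum_of_subset_of_nonneg ?_ fun i _ _ => sq_nonneg _
      intro i hi
      simp only [Finset.mem_filter] at hi ⊢
      exact ⟨hi.1.1, hi.2⟩
    have h3 : (0 : ℝ) ≤ ∑ i ∈ (s.filter (fun i => ¬ A i)).filter B, t i ^ 2 :=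
      Finset.sum_nonneg fun i _ => sq_nonneg _
    have h4 : (((s.filter (fun i => ¬ A i)).filter B).card : ℝ) ≤ k := by exact_mod_cast h1
    exact mul_le_mul h4 h2 h3 (by positivity)
  have hz : z ^ 2 ≤ 3 * ∑ i ∈ s, t i ^ 2 := by
    refine (sq_sum_le_card_mul_sum_sq).trans ?_
    have h1 : ((s.filter (fun i => ¬ A i)).filter (fun i => ¬ B i)).card ≤ 3 := by
      refine (Finset.card_le_card ?_).trans hC
      intro i hi
      simp only [Finset.mem_filter] at hi ⊢
      refine ⟨hi.1.1, ?_⟩
      rcases h i (Finset.mem_range.mp hi.1.1) with h2 | h2 | h2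
      · exact absurd h2 hi.1.2
      · exact absurd h2 hi.2
      · exact h2
    have h2 : ∑ i ∈ (s.filter (fun i => ¬ A i)).filter (fun i => ¬ B i), t i ^ 2 ≤
        ∑ i ∈ s, t i ^ 2 := by
      refine Finset.sum_le_sum_of_subset_of_nonneg ?_ fun i _ _ => sq_nonneg _
      intro i hi
      simp only [Finset.mem_filter] at hi
      exact hi.1.1
    have h3 : (0 : ℝ) ≤ ∑ i ∈ (s.filter (fun i => ¬ A i)).filter (fun i => ¬ B i), t i ^ 2 :=
      Finset.sum_nonneg fun i _ => sq_nonneg _
    have h4 : (((s.filter (fun i => ¬ A i)).filter (fun i => ¬ B i)).card : ℝ) ≤ 3 := by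
      exact_mod_cast h1
    exact mul_le_mul h4 h2 h3 (by norm_num)
  rw [e1]
  have h5 : (x + y + z) ^ 2 ≤ 3 * (x ^ 2 + y ^ 2 + z ^ 2) := by
    nlinarith [sq_nonneg (x - y), sq_nonneg (y - z), sq_nonneg (x - z)]
  refine h5.trans ?_
  have h6 : ∑ i ∈ s, ((if A i then 3 * (k : ℝ) * t i ^ 2 else 0) +
      (if B i then 3 * (k : ℝ) * t i ^ 2 else 0) + 9 * t i ^ 2) =
      3 * (k * ∑ i ∈ s.filter A, t i ^ 2) + 3 * (k * ∑ i ∈ s.filter B, t i ^ 2) +
        9 * ∑ i ∈ s, t i ^ 2 := by
    rw [Finset.sum_add_distrib, Finset.sum_add_distrib, Finset.sum_filter, Finset.sum_filter,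
      Finset.mul_sum, Finset.mul_sum, Finset.mul_sum, Finset.mul_sum, Finset.mul_sum]
    congr 1
    congr 1
    · refine Finset.sum_congr rfl fun i _ => ?_
      split <;> ring
    · refine Finset.sum_congr rfl fun i _ => ?_
      split <;> ring
  rw [h6]
  linarith

end pointwise

section walsh

variable {G : Type} [Group G]

/-- Left translation of finite sets. -/
noncomputable def lf (u : G) : Finset G ≃ Finset G := (Equiv.mulLeft u).finsetCongr

theorem lf_card (u : G) (F : Finset G) : (lf u F).card = F.card := by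
  unfold lf
  simp

theorem mem_lf (u : G) (F : Finset G) (g : G) : g ∈ lf u F ↔ u⁻¹ * g ∈ F := by
  unfold lf
  simp only [Equiv.finsetCongr_apply, Finset.mem_map_equiv]
  rfl

theorem lf_empty (u : G) (F : Finset G) : lf u F = ∅ ↔ F = ∅ := by
  unfold lf
  simp

theorem chi_act (u : G) (F : Finset G) (x : G → Bool) : chi F (act u x) = chi ((lf u).symm F) x := by
  unfold chi lf
  simp only [Equiv.finsetCongr_symm, Equiv.finsetCongr_apply, Finset.prod_map]
  rfl

theorem ev_act (u : G) (a : Finset G →₀ ℝ) (x : G → Bool) :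
    ev a (act u x) = ev (a.equivMapDomain (lf u).symm) x := by
  unfold ev
  rw [Finsupp.equivMapDomain_eq_mapDomain, Finsupp.sum_mapDomain_index]
  · refine Finsupp.sum_congr fun F _ => ?_
    rw [chi_act]
  · intro F; simp
  · intro F c d; ring

open Classical in
/-- More than a third of the elements of `F` lie in `S`. -/
def maj (S : Set G) (F : Finset G) : Prop := F.card ≤ 3 * (F.filter (fun g => g ∈ S)).card

open Classical in
theorem maj_count (k : ℕ) (S : ℕ → Set G) (hS : ∀ i j, i < k → j < k → i ≠ j → Disjoint (S i) (S j))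
    (F : Finset G) (hF : F ≠ ∅) : ((Finset.range k).filter (fun i => maj (S i) F)).card ≤ 3 := by
  have hpos : 0 < F.card := Finset.card_pos.mpr (Finset.nonempty_iff_ne_empty.mpr hF)
  set s := (Finset.range k).filter (fun i => maj (S i) F) with hs
  have h1 : ∑ i ∈ s, (F.filter (fun g => g ∈ S i)).card ≤ F.card := by
    rw [← Finset.card_biUnion]
    · refine Finset.card_le_card ?_
      intro g hg
      simp only [Finset.mem_biUnion, Finset.mem_filter] at hg
      obtain ⟨i, _, h, _⟩ := hg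
      exact h
    · intro i hi j hj hij
      change Disjoint (F.filter (fun g => g ∈ S i)) (F.filter (fun g => g ∈ S j))
      rw [Finset.disjoint_left]
      intro g hg1 hg2
      simp only [Finset.mem_filter] at hg1 hg2
      have hi' : i < k := Finset.mem_range.mp (Finset.mem_filter.mp (Finset.mem_coe.mp hi)).1
      have hj' : j < k := Finset.mem_range.mp (Finset.mem_filter.mp (Finset.mem_coe.mp hj)).1
      exact Set.disjoint_left.mp (hS i j hi' hj' hij) hg1.2 hg2.2
  have h2 : s.card * F.card ≤ 3 * ∑ i ∈ s, (F.filter (fun g => g ∈ S i)).card := by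
    rw [Finset.mul_sum, ← smul_eq_mul, ← Finset.sum_const]
    refine Finset.sum_le_sum fun i hi => ?_
    exact (Finset.mem_filter.mp hi).2
  have h3 : s.card * F.card ≤ 3 * F.card := by omega
  exact Nat.le_of_mul_le_mul_right h3 hpos

theorem maj_cover {S P Q : Set G} {u : G} (h : ∀ v, u * v ∈ S ∨ u * v ∈ P ∨ v ∈ Q) (F : Finset G) :
    maj S (lf u F) ∨ maj P (lf u F) ∨ maj Q F := by
  classical
  unfold maj
  rw [lf_card]
  have e1 : ∀ T : Set G, ((lf u F).filter (fun g => g ∈ T)).card =
      (F.filter (fun g => u * g ∈ T)).card := by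
    intro T
    refine (Finset.card_bij (fun g _ => u * g) ?_ ?_ ?_).symm
    · intro g hg
      simp only [Finset.mem_filter, mem_lf] at hg ⊢
      rw [inv_mul_cancel_left]
      exact hg
    · intro g _ g' _ h
      exact mul_left_cancel h
    · intro g hg
      simp only [Finset.mem_filter, mem_lf] at hg
      refine ⟨u⁻¹ * g, ?_, by simp⟩
      simp only [Finset.mem_filter, mul_inv_cancel_left]
      exact hg
  rw [e1, e1]
  have h2 : F ⊆ (F.filter (fun g => u * g ∈ S)) ∪ (F.filter (fun g => u * g ∈ P)) ∪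
      (F.filter (fun g => g ∈ Q)) := by
    intro g hg
    simp only [Finset.mem_union, Finset.mem_filter]
    rcases h g with h1 | h1 | h1
    · exact Or.inl (Or.inl ⟨hg, h1⟩)
    · exact Or.inl (Or.inr ⟨hg, h1⟩)
    · exact Or.inr ⟨hg, h1⟩
  have h3 := Finset.card_le_card h2
  have h4 := Finset.card_union_le ((F.filter (fun g => u * g ∈ S)) ∪
    (F.filter (fun g => u * g ∈ P))) (F.filter (fun g => g ∈ Q))
  have h5 := Finset.card_union_le (F.filter (fun g => u * g ∈ S)) (F.filter (fun g => u * g ∈ P))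
  omega

/-- The key inequality on coefficients. -/
theorem walsh_bound (k : ℕ) (u : ℕ → G) (S P Q : ℕ → Set G)
    (hS : ∀ i j, i < k → j < k → i ≠ j → Disjoint (S i) (S j))
    (hP : ∀ i j, i < k → j < k → i ≠ j → Disjoint (P i) (P j))
    (hQ : ∀ i j, i < k → j < k → i ≠ j → Disjoint (Q i) (Q j))
    (h : ∀ i, i < k → ∀ v, u i * v ∈ S i ∨ u i * v ∈ P i ∨ v ∈ Q i) (a : Finset G →₀ ℝ)
    (s : Finset (Finset G)) (hs : ∅ ∉ s) :
    ∑ F ∈ s, (∑ i ∈ Finset.range k, a (lf (u i) F)) ^ 2 ≤ 27 * k * ∑ F ∈ a.support, a F ^ 2 := by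
  classical
  set ψ : Finset G → ℝ≥0∞ := fun F => if F = ∅ then 0 else ENNReal.ofReal (a F ^ 2) with hψ
  have hψ1 : ∑' F, ψ F ≤ ENNReal.ofReal (∑ F ∈ a.support, a F ^ 2) := by
    rw [ENNReal.ofReal_sum_of_nonneg (fun F _ => sq_nonneg _)]
    rw [tsum_eq_sum (s := a.support)]
    · refine Finset.sum_le_sum fun F _ => ?_
      simp only [hψ]
      split
      · exact zero_le
      · exact le_refl _
    · intro F hF
      simp only [hψ]
      split
      · rfl
      · rw [Finsupp.notMem_support_iff.mp hF]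
        simp
  have hpt : ∀ F, F ≠ ∅ → ENNReal.ofReal ((∑ i ∈ Finset.range k, a (lf (u i) F)) ^ 2) ≤
      ∑ i ∈ Finset.range k, ((if maj (S i) (lf (u i) F) then 3 * (k : ℝ≥0∞) * ψ (lf (u i) F) else 0) +
        (if maj (P i) (lf (u i) F) then 3 * (k : ℝ≥0∞) * ψ (lf (u i) F) else 0) +
        9 * ψ (lf (u i) F)) := by
    intro F hF
    have h1 := sum_sq_bound k (fun i => a (lf (u i) F)) (fun i => maj (S i) (lf (u i) F))
      (fun i => maj (P i) (lf (u i) F)) (fun i => maj (Q i) F)
      (fun i hi => maj_cover (h i hi) F) (maj_count k Q hQ F hF)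
    refine (ENNReal.ofReal_le_ofReal h1).trans ?_
    rw [ENNReal.ofReal_sum_of_nonneg]
    · refine Finset.sum_le_sum fun i _ => ?_
      have h2 : lf (u i) F ≠ ∅ := fun h3 => hF ((lf_empty _ _).mp h3)
      have h3 : ψ (lf (u i) F) = ENNReal.ofReal (a (lf (u i) F) ^ 2) := by
        simp only [hψ, h2, if_false]
      rw [h3]
      have h4 : ∀ c : ℝ, 0 ≤ c → ENNReal.ofReal (c * a (lf (u i) F) ^ 2) =
          ENNReal.ofReal c * ENNReal.ofReal (a (lf (u i) F) ^ 2) := fun c hc =>
        ENNReal.ofReal_mul hc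
      have h5 : ENNReal.ofReal (3 * (k : ℝ)) = 3 * (k : ℝ≥0∞) := by
        rw [ENNReal.ofReal_mul (by norm_num)]
        simp
      have h6 : ENNReal.ofReal (9 : ℝ) = 9 := by simp
      refine (ENNReal.ofReal_add_le).trans ?_
      refine add_le_add ((ENNReal.ofReal_add_le).trans (add_le_add ?_ ?_)) ?_
      · split
        · rw [h4 _ (by positivity), h5]
        · simp
      · split
        · rw [h4 _ (by positivity), h5]
        · simp
      · rw [h4 _ (by norm_num), h6]
    · intro i _
      have : (0 : ℝ) ≤ a (lf (u i) F) ^ 2 := sq_nonneg _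
      split <;> split <;> positivity
  have hmain : ENNReal.ofReal (∑ F ∈ s, (∑ i ∈ Finset.range k, a (lf (u i) F)) ^ 2) ≤
      ENNReal.ofReal (27 * k * ∑ F ∈ a.support, a F ^ 2) := by
    rw [ENNReal.ofReal_sum_of_nonneg (fun F _ => sq_nonneg _)]
    calc ∑ F ∈ s, ENNReal.ofReal ((∑ i ∈ Finset.range k, a (lf (u i) F)) ^ 2)
        ≤ ∑ F ∈ s, ∑ i ∈ Finset.range k,
          ((if maj (S i) (lf (u i) F) then 3 * (k : ℝ≥0∞) * ψ (lf (u i) F) else 0) +
          (if maj (P i) (lf (u i) F) then 3 * (k : ℝ≥0∞) * ψ (lf (u i) F) else 0) +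
          9 * ψ (lf (u i) F)) := by
          refine Finset.sum_le_sum fun F hF => hpt F ?_
          rintro rfl
          exact hs hF
      _ ≤ ∑' F : Finset G, ∑ i ∈ Finset.range k,
          ((if maj (S i) (lf (u i) F) then 3 * (k : ℝ≥0∞) * ψ (lf (u i) F) else 0) +
          (if maj (P i) (lf (u i) F) then 3 * (k : ℝ≥0∞) * ψ (lf (u i) F) else 0) +
          9 * ψ (lf (u i) F)) := ENNReal.sum_le_tsum _
      _ = ∑ i ∈ Finset.range k, ∑' F : Finset G,
          ((if maj (S i) (lf (u i) F) then 3 * (k : ℝ≥0∞) * ψ (lf (u i) F) else 0) +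
          (if maj (P i) (lf (u i) F) then 3 * (k : ℝ≥0∞) * ψ (lf (u i) F) else 0) +
          9 * ψ (lf (u i) F)) := by
          rw [Summable.tsum_finsetSum (fun i _ => ENNReal.summable)]
      _ = ∑ i ∈ Finset.range k, ∑' F : Finset G,
          ((if maj (S i) F then 3 * (k : ℝ≥0∞) * ψ F else 0) +
          (if maj (P i) F then 3 * (k : ℝ≥0∞) * ψ F else 0) +
          9 * ψ F) := by
          refine Finset.sum_congr rfl fun i _ => ?_
          exact Equiv.tsum_eq (lf (u i)) (fun F => ((if maj (S i) F then 3 * (k : ℝ≥0∞) * ψ F else 0) +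
            (if maj (P i) F then 3 * (k : ℝ≥0∞) * ψ F else 0) + 9 * ψ F))
      _ = ∑' F : Finset G, ∑ i ∈ Finset.range k,
          ((if maj (S i) F then 3 * (k : ℝ≥0∞) * ψ F else 0) +
          (if maj (P i) F then 3 * (k : ℝ≥0∞) * ψ F else 0) +
          9 * ψ F) := by
          rw [Summable.tsum_finsetSum (fun i _ => ENNReal.summable)]
      _ ≤ ∑' F : Finset G, 27 * (k : ℝ≥0∞) * ψ F := by
          refine ENNReal.tsum_le_tsum fun F => ?_
          by_cases hF : F = ∅
          · have : ψ F = 0 := by simp [hψ, hF]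
            rw [this]
            simp
          · rw [Finset.sum_add_distrib, Finset.sum_add_distrib, ← Finset.sum_filter,
              ← Finset.sum_filter, Finset.sum_const, Finset.sum_const, Finset.sum_const,
              Finset.card_range]
            have h1 := maj_count k S hS F hF
            have h2 := maj_count k P hP F hF
            have h3 : (((Finset.range k).filter (fun i => maj (S i) F)).card : ℝ≥0∞) ≤ 3 := by
              exact_mod_cast h1
            have h4 : (((Finset.range k).filter (fun i => maj (P i) F)).card : ℝ≥0∞) ≤ 3 := by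
              exact_mod_cast h2
            simp only [nsmul_eq_mul]
            calc _ ≤ 3 * (3 * (k : ℝ≥0∞) * ψ F) + 3 * (3 * (k : ℝ≥0∞) * ψ F) +
                (k : ℝ≥0∞) * (9 * ψ F) := by gcongr
              _ = 27 * (k : ℝ≥0∞) * ψ F := by ring
      _ = 27 * (k : ℝ≥0∞) * ∑' F : Finset G, ψ F := ENNReal.tsum_mul_left
      _ ≤ 27 * (k : ℝ≥0∞) * ENNReal.ofReal (∑ F ∈ a.support, a F ^ 2) := by gcongr
      _ = ENNReal.ofReal (27 * k * ∑ F ∈ a.support, a F ^ 2) := by
          rw [ENNReal.ofReal_mul (by positivity), ENNReal.ofReal_mul (by norm_num)]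
          simp
  have h0 : (0 : ℝ) ≤ 27 * k * ∑ F ∈ a.support, a F ^ 2 := by
    have : (0 : ℝ) ≤ ∑ F ∈ a.support, a F ^ 2 := Finset.sum_nonneg fun i _ => sq_nonneg _
    positivity
  exact (ENNReal.ofReal_le_ofReal_iff h0).mp hmain

end walsh

end Pool.Agent.H73
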