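import Pool.Agent.H73.Bern2

/-! Expansion inequality: cylinder sets, then all measurable sets. -/

set_option autoImplicit false

namespace Pool.Agent.H73

open MeasureTheory Function
open scoped ENNReal

section alg

variable {G : Type}

/-- Sets whose indicator has a finite Walsh expansion. -/
def IsCyl (A : Set (G → Bool)) : Prop :=
  ∃ a : Finset G →₀ ℝ, ∀ x, A.indicator (fun _ => (1 : ℝ)) x = ev a x

theorem ev_single (F : Finset G) (c : ℝ) (x : G → Bool) :
    ev (Finsupp.single F c) x = c * chi F x := by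
  unfold ev
  rw [Finsupp.sum_single_index]
  simp

theorem ev_neg (a : Finset G →₀ ℝ) (x : G → Bool) : ev (-a) x = - ev a x := by
  have h := ev_add (-a) a x
  rw [neg_add_cancel, ev_zero] at h
  linarith

theorem ev_mul (a b : Finset G →₀ ℝ) : ∃ c : Finset G →₀ ℝ, ∀ x, ev c x = ev a x * ev b x := by
  classical
  refine ⟨∑ F ∈ a.support, ∑ F' ∈ b.support,
    Finsupp.single (symmDiff F F') (a F * b F'), fun x => ?_⟩
  rw [ev_finset_sum]
  have h1 : ∀ F, ev (∑ F' ∈ b.support, Finsupp.single (symmDiff F F') (a F * b F')) x =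
      ∑ F' ∈ b.support, (a F * chi F x) * (b F' * chi F' x) := by
    intro F
    rw [ev_finset_sum]
    refine Finset.sum_congr rfl fun F' _ => ?_
    rw [ev_single, ← chi_mul]
    ring
  simp_rw [h1]
  unfold ev Finsupp.sum
  rw [Finset.sum_mul_sum]

theorem IsCyl.measurableSet {A : Set (G → Bool)} (hA : IsCyl A) : MeasurableSet A := by
  obtain ⟨a, ha⟩ := hA
  have h : A = {x | ev a x = 1} := by
    ext x
    simp only [Set.mem_ofPred_eq, ← ha]
    by_cases hx : x ∈ A <;> simp [hx]
  rw [h]
  exact measurableSet_eq_fun (measurable_ev a) measurable_const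

theorem isSetAlgebra_cyl : IsSetAlgebra {A : Set (G → Bool) | IsCyl A} where
  empty_mem := ⟨0, fun x => by simp [ev_zero]⟩
  compl_mem := by
    rintro A ⟨a, ha⟩
    refine ⟨Finsupp.single ∅ 1 + -a, fun x => ?_⟩
    rw [ev_add, ev_neg, ev_single, ← ha, chi_empty]
    by_cases hx : x ∈ A <;> simp [hx]
  union_mem := by
    rintro A B ⟨a, ha⟩ ⟨b, hb⟩
    obtain ⟨c, hc⟩ := ev_mul a b
    refine ⟨a + b + -c, fun x => ?_⟩
    rw [ev_add, ev_add, ev_neg, hc, ← ha, ← hb]
    by_cases hx : x ∈ A <;> by_cases hx' : x ∈ B <;> simp [hx, hx']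

theorem generate_cyl : (MeasurableSpace.pi : MeasurableSpace (G → Bool)) =
    MeasurableSpace.generateFrom {A : Set (G → Bool) | IsCyl A} := by
  refine le_antisymm ?_ ?_
  · refine iSup_le fun g => ?_
    rw [← measurable_iff_comap_le]
    refine @measurable_to_bool _ (MeasurableSpace.generateFrom {A : Set (G → Bool) | IsCyl A}) _ ?_
    refine MeasurableSpace.measurableSet_generateFrom ?_
    refine ⟨Finsupp.single ∅ 2⁻¹ + Finsupp.single {g} (-2⁻¹), fun x => ?_⟩
    rw [ev_add, ev_single, ev_single, chi_empty]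
    unfold chi
    rw [Finset.prod_singleton]
    cases hx : x g
    · simp [Set.indicator, hx]
    · simp [Set.indicator, hx]
      norm_num
  · refine MeasurableSpace.generateFrom_le fun A hA => ?_
    exact IsCyl.measurableSet hA

theorem measureDense_cyl : (mu G).MeasureDense {A : Set (G → Bool) | IsCyl A} :=
  Measure.MeasureDense.of_generateFrom_isSetAlgebra_finite (mu G) isSetAlgebra_cyl generate_cyl

end alg

section expansion

variable {G : Type} [Group G]

theorem expansion_cyl {k : ℕ} (hk : 0 < k) (u : ℕ → G) (S P Q : ℕ → Set G)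
    (hS : ∀ i j, i < k → j < k → i ≠ j → Disjoint (S i) (S j))
    (hP : ∀ i j, i < k → j < k → i ≠ j → Disjoint (P i) (P j))
    (hQ : ∀ i j, i < k → j < k → i ≠ j → Disjoint (Q i) (Q j))
    (h : ∀ i, i < k → ∀ v, u i * v ∈ S i ∨ u i * v ∈ P i ∨ v ∈ Q i) {A : Set (G → Bool)}
    (hA : IsCyl A) :
    (mu G).real {x | ∀ i < k, act (u i) x ∈ A} ≤
      (mu G).real A ^ 2 + 27 * (mu G).real A / k := by
  classical
  have hAm := hA.measurableSet
  obtain ⟨a, ha⟩ := hA
  set p := (mu G).real A with hp
  have h1 : a ∅ = p := by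
    rw [← integral_ev]
    simp_rw [← ha]
    rw [integral_indicator_const _ hAm]
    simp [hp]
  have h2 : ∑ F ∈ a.support, a F ^ 2 = p := by
    rw [← integral_ev_sq]
    simp_rw [← ha]
    have : ∀ x, (A.indicator (fun _ => (1 : ℝ)) x) ^ 2 = A.indicator (fun _ => (1 : ℝ)) x := by
      intro x
      by_cases hx : x ∈ A <;> simp [hx]
    simp_rw [this]
    rw [integral_indicator_const _ hAm]
    simp [hp]
  set b : Finset G →₀ ℝ := ∑ i ∈ Finset.range k, a.equivMapDomain (lf (u i)).symm with hb
  have hb1 : ∀ F, b F = ∑ i ∈ Finset.range k, a (lf (u i) F) := by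
    intro F
    rw [hb, Finsupp.finsetSum_apply]
    refine Finset.sum_congr rfl fun i _ => ?_
    rw [Finsupp.equivMapDomain_apply, Equiv.symm_symm]
  have hb0 : b ∅ = k * p := by
    rw [hb1, ← h1]
    have : ∀ i ∈ Finset.range k, a (lf (u i) ∅) = a ∅ := by
      intro i _
      rw [(lf_empty (u i) ∅).mpr rfl]
    rw [Finset.sum_congr rfl this]
    simp
  have hev : ∀ x, ev b x = ∑ i ∈ Finset.range k, A.indicator (fun _ => (1 : ℝ)) (act (u i) x) := by
    intro x
    rw [hb, ev_finset_sum]
    refine Finset.sum_congr rfl fun i _ => ?_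
    rw [ha, ev_act]
  have hWm : MeasurableSet {x : G → Bool | ∀ i < k, act (u i) x ∈ A} := by
    have : {x : G → Bool | ∀ i < k, act (u i) x ∈ A} =
        ⋂ i ∈ Finset.range k, act (u i) ⁻¹' A := by
      ext x
      simp
    rw [this]
    exact Finset.measurableSet_biInter _ fun i _ => measurable_act _ hAm
  have h3 : (k : ℝ) ^ 2 * (mu G).real {x | ∀ i < k, act (u i) x ∈ A} ≤ ∫ x, ev b x ^ 2 ∂(mu G) := by
    have e : (k : ℝ) ^ 2 * (mu G).real {x | ∀ i < k, act (u i) x ∈ A} =
        ∫ x, Set.indicator {x : G → Bool | ∀ i < k, act (u i) x ∈ A}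
          (fun _ => (k : ℝ) ^ 2) x ∂(mu G) := by
      rw [integral_indicator_const _ hWm, smul_eq_mul, mul_comm]
    rw [e]
    refine integral_mono ?_ ?_ ?_
    · exact (integrable_const _).indicator hWm
    · have : (fun x => ev b x ^ 2) = fun x => ev b x * ev b x := by
        funext x; ring
      rw [this]
      obtain ⟨c, hc⟩ := ev_mul b b
      simp_rw [← hc]
      unfold ev Finsupp.sum
      exact integrable_finsetSum _ fun F _ => (integrable_chi F).const_mul _
    · intro x
      by_cases hx : x ∈ {x : G → Bool | ∀ i < k, act (u i) x ∈ A}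
      · simp only [Set.indicator_of_mem hx]
        have : ev b x = k := by
          rw [hev]
          have : ∀ i ∈ Finset.range k, A.indicator (fun _ => (1 : ℝ)) (act (u i) x) = 1 := by
            intro i hi
            rw [Set.indicator_of_mem (hx i (Finset.mem_range.mp hi))]
          rw [Finset.sum_congr rfl this]
          simp
        rw [this]
      · simp only [Set.indicator_of_notMem hx]
        positivity
  have h4 : ∫ x, ev b x ^ 2 ∂(mu G) ≤ (k * p) ^ 2 + 27 * k * p := by
    rw [integral_ev_sq]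
    have e : ∑ F ∈ b.support, b F ^ 2 ≤ b ∅ ^ 2 + ∑ F ∈ b.support.erase ∅, b F ^ 2 := by
      by_cases hm : ∅ ∈ b.support
      · rw [← Finset.add_sum_erase _ _ hm]
      · rw [Finset.erase_eq_of_notMem hm]
        have := sq_nonneg (b ∅)
        linarith
    refine e.trans ?_
    rw [hb0]
    refine add_le_add le_rfl ?_
    have e2 := walsh_bound k u S P Q hS hP hQ h a (b.support.erase ∅) (Finset.notMem_erase _ _)
    rw [h2] at e2
    refine le_trans (le_of_eq ?_) e2
    exact Finset.sum_congr rfl fun F _ => by rw [hb1]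
  have hk' : (0 : ℝ) < k := by exact_mod_cast hk
  have h5 := h3.trans h4
  have h6 : (mu G).real {x | ∀ i < k, act (u i) x ∈ A} ≤ ((k * p) ^ 2 + 27 * k * p) / k ^ 2 := by
    rw [le_div_iff₀ (by positivity)]
    linarith
  refine h6.trans (le_of_eq ?_)
  field_simp

/-- The expansion inequality. -/
theorem expansion {k : ℕ} (hk : 0 < k) (u : ℕ → G) (S P Q : ℕ → Set G)
    (hS : ∀ i j, i < k → j < k → i ≠ j → Disjoint (S i) (S j))
    (hP : ∀ i j, i < k → j < k → i ≠ j → Disjoint (P i) (P j))
    (hQ : ∀ i j, i < k → j < k → i ≠ j → Disjoint (Q i) (Q j))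
    (h : ∀ i, i < k → ∀ v, u i * v ∈ S i ∨ u i * v ∈ P i ∨ v ∈ Q i) {A : Set (G → Bool)}
    (hA : MeasurableSet A) :
    (mu G).real {x | ∀ i < k, act (u i) x ∈ A} ≤
      (mu G).real A ^ 2 + 27 * (mu G).real A / k := by
  classical
  set p := (mu G).real A with hp
  have hp0 : 0 ≤ p := measureReal_nonneg
  have hk' : (0 : ℝ) < k := by exact_mod_cast hk
  have key : ∀ ε : ℝ, 0 < ε → (mu G).real {x | ∀ i < k, act (u i) x ∈ A} ≤
      (p + ε) ^ 2 + 27 * (p + ε) / k + k * ε := by
    intro ε hε
    obtain ⟨B, hB, hAB⟩ := measureDense_cyl.approx A hA (measure_ne_top _ _) ε hε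
    have hBm : MeasurableSet B := IsCyl.measurableSet hB
    have hd : (mu G).real (symmDiff A B) ≤ ε := by
      rw [Measure.real]
      exact ENNReal.toReal_le_of_le_ofReal hε.le hAB.le
    have hq : (mu G).real B ≤ p + ε := by
      have h1 : B ⊆ A ∪ symmDiff A B := by
        intro x hx
        by_cases hxA : x ∈ A
        · exact Or.inl hxA
        · exact Or.inr (Or.inr ⟨hx, hxA⟩)
      refine (measureReal_mono h1).trans ((measureReal_union_le _ _).trans ?_)
      linarith
    have h2 := expansion_cyl hk u S P Q hS hP hQ h hB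
    have hsub : {x : G → Bool | ∀ i < k, act (u i) x ∈ A} ⊆
        {x : G → Bool | ∀ i < k, act (u i) x ∈ B} ∪
        ⋃ i ∈ Finset.range k, act (u i) ⁻¹' (symmDiff A B) := by
      intro x hx
      by_cases hxB : ∀ i < k, act (u i) x ∈ B
      · exact Or.inl hxB
      · push Not at hxB
        obtain ⟨i, hi, hiB⟩ := hxB
        refine Or.inr ?_
        simp only [Set.mem_iUnion]
        exact ⟨i, Finset.mem_range.mpr hi, Or.inl ⟨hx i hi, hiB⟩⟩
    refine (measureReal_mono hsub).trans ((measureReal_union_le _ _).trans ?_)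
    have h3 : (mu G).real (⋃ i ∈ Finset.range k, act (u i) ⁻¹' (symmDiff A B)) ≤ k * ε := by
      refine (measureReal_biUnion_finset_le _ _).trans ?_
      have : ∀ i ∈ Finset.range k, (mu G).real (act (u i) ⁻¹' (symmDiff A B)) ≤ ε := by
        intro i _
        rw [Measure.real, mu_preimage _ (hA.symmDiff hBm)]
        exact hd
      refine (Finset.sum_le_sum this).trans ?_
      simp
    have hq0 : 0 ≤ (mu G).real B := measureReal_nonneg
    have h4 : (mu G).real B ^ 2 + 27 * (mu G).real B / k ≤ (p + ε) ^ 2 + 27 * (p + ε) / k := by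
      gcongr
    linarith
  have hlim : Filter.Tendsto (fun ε : ℝ => (p + ε) ^ 2 + 27 * (p + ε) / k + k * ε)
      (nhdsWithin 0 (Set.Ioi 0)) (nhds ((p + 0) ^ 2 + 27 * (p + 0) / k + k * 0)) := by
    refine (Continuous.tendsto ?_ 0).mono_left nhdsWithin_le_nhds
    fun_prop
  have := ge_of_tendsto hlim (by
    filter_upwards [self_mem_nhdsWithin] with ε hε using key ε hε)
  simpa using this

end expansion

end Pool.Agent.H73
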