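import Pool.Agent.H73.Bern1

/-! The closure lemma: small sets have small closures. -/

set_option autoImplicit false

namespace Pool.Agent.H73

open MeasureTheory Function
open scoped ENNReal

open Classical in
/-- A multiplicity bound. -/
theorem sum_measure_le {X ι : Type} [MeasurableSpace X] (μ : Measure X) (s : Finset ι)
    (B : ι → Set X) (hB : ∀ i ∈ s, MeasurableSet (B i)) (N : Set X) (hN : MeasurableSet N) (c : ℕ)
    (hc : ∀ x, (s.filter (fun i => x ∈ B i)).card ≤ c) (hBN : ∀ i ∈ s, B i ⊆ N) :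
    ∑ i ∈ s, μ (B i) ≤ c * μ N := by
  have h1 : ∑ i ∈ s, μ (B i) = ∫⁻ x, ∑ i ∈ s, (B i).indicator (fun _ => (1 : ℝ≥0∞)) x ∂μ := by
    rw [lintegral_finsetSum' s (fun i hi => (measurable_const.indicator (hB i hi)).aemeasurable)]
    refine Finset.sum_congr rfl fun i hi => ?_
    rw [lintegral_indicator_const (hB i hi), one_mul]
  have h2 : (c : ℝ≥0∞) * μ N = ∫⁻ x, N.indicator (fun _ => (c : ℝ≥0∞)) x ∂μ := by
    rw [lintegral_indicator_const hN]
  rw [h1, h2]
  refine lintegral_mono fun x => ?_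
  by_cases hx : x ∈ N
  · rw [Set.indicator_of_mem hx]
    have h3 : ∑ i ∈ s, (B i).indicator (fun _ => (1 : ℝ≥0∞)) x =
        ((s.filter (fun i => x ∈ B i)).card : ℝ≥0∞) := by
      rw [Finset.card_filter, Nat.cast_sum]
      refine Finset.sum_congr rfl fun i _ => ?_
      by_cases h : x ∈ B i <;> simp [h]
    rw [h3]
    exact Nat.cast_le.mpr (hc x)
  · rw [Set.indicator_of_notMem hx]
    refine le_of_eq (Finset.sum_eq_zero fun i hi => ?_)
    rw [Set.indicator_of_notMem fun h => hx (hBN i hi h)]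

open Classical in
theorem sum_measureReal_le {X ι : Type} [MeasurableSpace X] (μ : Measure X) [IsFiniteMeasure μ]
    (s : Finset ι)
    (B : ι → Set X) (hB : ∀ i ∈ s, MeasurableSet (B i)) (N : Set X) (hN : MeasurableSet N) (c : ℕ)
    (hc : ∀ x, (s.filter (fun i => x ∈ B i)).card ≤ c) (hBN : ∀ i ∈ s, B i ⊆ N) :
    ∑ i ∈ s, μ.real (B i) ≤ c * μ.real N := by
  have h := sum_measure_le μ s B hB N hN c hc hBN
  have h2 := ENNReal.toReal_mono (ENNReal.mul_ne_top (ENNReal.natCast_ne_top c)
    (measure_ne_top _ _)) h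
  rw [ENNReal.toReal_sum fun i _ => measure_ne_top _ _, ENNReal.toReal_mul] at h2
  simpa [Measure.real] using h2

section clos

variable {G : Type} [Group G] (Lg : Subgroup G) (Mw r : ℕ) (u : ℕ → ℕ → G)

open Classical in
/-- The number of positions outside `I`. -/
noncomputable def cnt (I : Set (G → Bool)) (j : ℕ) (x : G → Bool) : ℕ :=
  ((Finset.range r).filter (fun i => act (u j i) x ∉ I)).card

theorem measurable_cnt {I : Set (G → Bool)} (hI : MeasurableSet I) (j : ℕ) :
    Measurable (cnt r u I j) := by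
  classical
  unfold cnt
  have : (fun x => ((Finset.range r).filter (fun i => act (u j i) x ∉ I)).card) =
      fun x => ∑ i ∈ Finset.range r, if act (u j i) x ∉ I then 1 else 0 := by
    funext x
    rw [Finset.card_filter]
  rw [this]
  refine Finset.measurable_sum _ fun i _ => ?_
  exact Measurable.ite ((measurable_act (u j i) hI).compl) measurable_const measurable_const

/-- Newly infected witnesses. -/
def newS (I : Set (G → Bool)) (j i : ℕ) : Set (G → Bool) :=
  {x | cnt r u I j x ≤ 2 ∧ act (u j i) x ∉ I}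

theorem measurable_newS {I : Set (G → Bool)} (hI : MeasurableSet I) (j i : ℕ) :
    MeasurableSet (newS r u I j i) :=
  (measurableSet_le (measurable_cnt r u hI j) measurable_const).inter
    (measurable_act (u j i) hI).compl

/-- One infection step. -/
def stepI (I : Set (G → Bool)) : Set (G → Bool) :=
  I ∪ ⋃ (κ : Lg), ⋃ j ∈ Finset.range Mw, ⋃ i ∈ Finset.range r,
    act ((κ : G) * u j i)⁻¹ ⁻¹' newS r u I j i

theorem mem_stepI {I : Set (G → Bool)} {y : G → Bool} : y ∈ stepI Lg Mw r u I ↔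
    y ∈ I ∨ ∃ κ ∈ Lg, ∃ j < Mw, ∃ i < r, act (κ * u j i)⁻¹ y ∈ newS r u I j i := by
  unfold stepI
  simp only [Set.mem_union, Set.mem_iUnion, Finset.mem_range, Set.mem_preimage, Subtype.exists,
    exists_prop]

theorem stepI_all {I : Set (G → Bool)} {j : ℕ} (hj : j < Mw) {x : G → Bool}
    (h : cnt r u I j x ≤ 2) : ∀ i < r, act (u j i) x ∈ stepI Lg Mw r u I := by
  intro i hi
  rw [mem_stepI]
  by_cases h2 : act (u j i) x ∈ I
  · exact Or.inl h2
  · refine Or.inr ⟨1, Lg.one_mem, j, hj, i, hi, ?_⟩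
    rw [one_mul, act_inv_act]
    exact ⟨h, h2⟩

variable [Finite Lg]

theorem measurable_stepI {I : Set (G → Bool)} (hI : MeasurableSet I) :
    MeasurableSet (stepI Lg Mw r u I) := by
  unfold stepI
  refine hI.union ?_
  refine MeasurableSet.iUnion fun κ => ?_
  refine Finset.measurableSet_biUnion _ fun j _ => ?_
  refine Finset.measurableSet_biUnion _ fun i _ => ?_
  exact measurable_act _ (measurable_newS r u hI j i)

theorem measure_stepI {I : Set (G → Bool)} (hI : MeasurableSet I) (q : ℕ)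
    (hq : Nat.card Lg ≤ q) :
    (mu G).real (stepI Lg Mw r u I) ≤ (mu G).real I +
      2 * q * ∑ j ∈ Finset.range Mw, (mu G).real {x | 1 ≤ cnt r u I j x ∧ cnt r u I j x ≤ 2} := by
  classical
  unfold stepI
  refine (measureReal_union_le _ _).trans ?_
  refine add_le_add le_rfl ?_
  have : Fintype Lg := Fintype.ofFinite Lg
  have e1 : (⋃ (κ : Lg), ⋃ j ∈ Finset.range Mw, ⋃ i ∈ Finset.range r,
    act ((κ : G) * u j i)⁻¹ ⁻¹' newS r u I j i) = ⋃ κ ∈ (Finset.univ : Finset Lg),
      ⋃ j ∈ Finset.range Mw, ⋃ i ∈ Finset.range r,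
      act ((κ : G) * u j i)⁻¹ ⁻¹' newS r u I j i := by
    simp
  rw [e1]
  refine (measureReal_biUnion_finset_le _ _).trans ?_
  have h1 : ∀ κ ∈ (Finset.univ : Finset Lg), (mu G).real (⋃ j ∈ Finset.range Mw,
      ⋃ i ∈ Finset.range r, act ((κ : G) * u j i)⁻¹ ⁻¹' newS r u I j i) ≤
      2 * ∑ j ∈ Finset.range Mw, (mu G).real {x | 1 ≤ cnt r u I j x ∧ cnt r u I j x ≤ 2} := by
    intro κ _
    refine (measureReal_biUnion_finset_le _ _).trans ?_
    rw [Finset.mul_sum]
    refine Finset.sum_le_sum fun j _ => ?_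
    refine (measureReal_biUnion_finset_le _ _).trans ?_
    have h2 : ∀ i ∈ Finset.range r, (mu G).real (act ((κ : G) * u j i)⁻¹ ⁻¹' newS r u I j i) =
        (mu G).real (newS r u I j i) := by
      intro i _
      unfold Measure.real
      rw [mu_preimage _ (measurable_newS r u hI j i)]
    rw [Finset.sum_congr rfl h2]
    have h3 := sum_measureReal_le (mu G) (Finset.range r) (newS r u I j)
      (fun i _ => measurable_newS r u hI j i) {x | 1 ≤ cnt r u I j x ∧ cnt r u I j x ≤ 2}
      ((measurableSet_le measurable_const (measurable_cnt r u hI j)).inter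
        (measurableSet_le (measurable_cnt r u hI j) measurable_const)) 2 ?_ ?_
    · exact_mod_cast h3
    · intro x
      by_cases hx : cnt r u I j x ≤ 2
      · refine le_trans (Finset.card_le_card ?_) hx
        intro i hi
        simp only [Finset.mem_filter] at hi ⊢
        exact ⟨hi.1, hi.2.2⟩
      · have : (Finset.range r).filter (fun i => x ∈ newS r u I j i) = ∅ := by
          rw [Finset.filter_eq_empty_iff]
          intro i _ h
          exact hx h.1
        rw [this]
        simp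
    · intro i hi x hx
      refine ⟨?_, hx.1⟩
      unfold cnt
      rw [Nat.one_le_iff_ne_zero]
      intro h
      rw [Finset.card_eq_zero, Finset.filter_eq_empty_iff] at h
      exact h hi hx.2
  refine (Finset.sum_le_sum h1).trans ?_
  rw [Finset.sum_const, nsmul_eq_mul]
  have h4 : ((Finset.univ : Finset Lg).card : ℝ) ≤ q := by
    rw [Finset.card_univ, ← Nat.card_eq_fintype_card]
    exact_mod_cast hq
  have h5 : (0 : ℝ) ≤ 2 * ∑ j ∈ Finset.range Mw,
      (mu G).real {x | 1 ≤ cnt r u I j x ∧ cnt r u I j x ≤ 2} := by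
    have : (0 : ℝ) ≤ ∑ j ∈ Finset.range Mw,
      (mu G).real {x | 1 ≤ cnt r u I j x ∧ cnt r u I j x ≤ 2} :=
      Finset.sum_nonneg fun j _ => measureReal_nonneg
    positivity
  calc ((Finset.univ : Finset Lg).card : ℝ) * (2 * ∑ j ∈ Finset.range Mw,
      (mu G).real {x | 1 ≤ cnt r u I j x ∧ cnt r u I j x ≤ 2})
      ≤ q * (2 * ∑ j ∈ Finset.range Mw,
      (mu G).real {x | 1 ≤ cnt r u I j x ∧ cnt r u I j x ≤ 2}) :=
        mul_le_mul_of_nonneg_right h4 h5
    _ = _ := by ring

/-- The invariant of the infection process. -/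
structure Inv (q : ℕ) (J I : Set (G → Bool)) : Prop where
  meas : MeasurableSet I
  inv : ∀ κ ∈ Lg, ∀ x ∈ I, act κ x ∈ I
  sub : J ⊆ I
  le1 : (mu G).real I ≤ q * (mu G).real J +
    2 * q * ∑ j ∈ Finset.range Mw, (mu G).real {x | ∀ i < r, act (u j i) x ∈ I}
  le2 : (mu G).real I ≤ 2 * q * (mu G).real J

theorem Inv_base {J : Set (G → Bool)} (hJ : MeasurableSet J) (q : ℕ) (hq : Nat.card Lg ≤ q) :
    Inv Lg Mw r u q J (⋃ κ : Lg, act (κ : G)⁻¹ ⁻¹' J) := by
  classical
  have h1 : (mu G).real (⋃ κ : Lg, act (κ : G)⁻¹ ⁻¹' J) ≤ q * (mu G).real J := by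
    have : Fintype Lg := Fintype.ofFinite Lg
    have e1 : (⋃ κ : Lg, act (κ : G)⁻¹ ⁻¹' J) = ⋃ κ ∈ (Finset.univ : Finset Lg),
        act (κ : G)⁻¹ ⁻¹' J := by simp
    rw [e1]
    refine (measureReal_biUnion_finset_le _ _).trans ?_
    have h2 : ∀ κ ∈ (Finset.univ : Finset Lg), (mu G).real (act (κ : G)⁻¹ ⁻¹' J) ≤
        (mu G).real J := by
      intro κ _
      unfold Measure.real
      rw [mu_preimage _ hJ]
    refine (Finset.sum_le_sum h2).trans ?_
    rw [Finset.sum_const, nsmul_eq_mul]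
    refine mul_le_mul_of_nonneg_right ?_ measureReal_nonneg
    rw [Finset.card_univ, ← Nat.card_eq_fintype_card]
    exact_mod_cast hq
  have h0 : (0 : ℝ) ≤ (mu G).real J := measureReal_nonneg
  refine ⟨?_, ?_, ?_, ?_, ?_⟩
  · exact MeasurableSet.iUnion fun κ => measurable_act _ hJ
  · intro κ hκ x hx
    obtain ⟨κ', hx⟩ := Set.mem_iUnion.mp hx
    refine Set.mem_iUnion.mpr ⟨⟨κ * κ', Lg.mul_mem hκ κ'.2⟩, ?_⟩
    change act (κ * κ')⁻¹ (act κ x) ∈ J
    rw [mul_inv_rev, act_mul, act_inv_act]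
    exact hx
  · intro x hx
    refine Set.mem_iUnion.mpr ⟨1, ?_⟩
    simpa using hx
  · refine h1.trans ?_
    have : (0 : ℝ) ≤ 2 * q * ∑ j ∈ Finset.range Mw, (mu G).real {x | ∀ i < r, act (u j i) x ∈
        (⋃ κ : Lg, act (κ : G)⁻¹ ⁻¹' J)} := by
      have : (0 : ℝ) ≤ ∑ j ∈ Finset.range Mw, (mu G).real {x | ∀ i < r, act (u j i) x ∈
        (⋃ κ : Lg, act (κ : G)⁻¹ ⁻¹' J)} := Finset.sum_nonneg fun j _ => measureReal_nonneg
      positivity
    linarith
  · refine h1.trans ?_
    have : (0 : ℝ) ≤ q * (mu G).real J := by positivity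
    linarith

theorem measurable_all {I : Set (G → Bool)} (hI : MeasurableSet I) (j : ℕ) :
    MeasurableSet {x : G → Bool | ∀ i < r, act (u j i) x ∈ I} := by
  have : {x : G → Bool | ∀ i < r, act (u j i) x ∈ I} =
      ⋂ i ∈ Finset.range r, act (u j i) ⁻¹' I := by
    ext x
    simp
  rw [this]
  exact Finset.measurableSet_biInter _ fun i _ => measurable_act _ hI

theorem Inv_step (hexp : ∀ A : Set (G → Bool), MeasurableSet A → ∀ j < Mw,
      (mu G).real {x | ∀ i < r, act (u j i) x ∈ A} ≤ (mu G).real A ^ 2 + 27 * (mu G).real A / r)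
    {q : ℕ} (hq : Nat.card Lg ≤ q) (hMw : 0 < Mw) (hr : 216 * q * Mw ≤ r)
    {J : Set (G → Bool)} (hJs : (1 + 2 * q * Mw * r) * (2 * q * (mu G).real J) ≤ 1 / (8 * q * Mw))
    {I : Set (G → Bool)} (h : Inv Lg Mw r u q J I) : Inv Lg Mw r u q J (stepI Lg Mw r u I) := by
  classical
  have hq0 : 0 < q := lt_of_lt_of_le Nat.card_pos hq
  have hqMw : 0 < q * Mw := Nat.mul_pos hq0 hMw
  have hr216 : 216 ≤ r := by nlinarith
  set I' := stepI Lg Mw r u I with hI'
  have hI'm : MeasurableSet I' := measurable_stepI Lg Mw r u h.meas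
  have hsub : I ⊆ I' := fun x hx => (mem_stepI Lg Mw r u).mpr (Or.inl hx)
  set N : ℕ → Set (G → Bool) := fun j => {x | 1 ≤ cnt r u I j x ∧ cnt r u I j x ≤ 2} with hN
  have hNm : ∀ j, MeasurableSet (N j) := fun j =>
    (measurableSet_le measurable_const (measurable_cnt r u h.meas j)).inter
        (measurableSet_le (measurable_cnt r u h.meas j) measurable_const)
  have h1 := measure_stepI Lg Mw r u h.meas q hq
  rw [← hI'] at h1
  have h2 : ∀ j ∈ Finset.range Mw, (mu G).real {x | ∀ i < r, act (u j i) x ∈ I} +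
      (mu G).real (N j) ≤ (mu G).real {x | ∀ i < r, act (u j i) x ∈ I'} := by
    intro j hj
    rw [← measureReal_union ?_ (hNm j)]
    · refine measureReal_mono ?_
      rintro x (hx | hx)
      · intro i hi
        exact hsub (hx i hi)
      · exact stepI_all Lg Mw r u (Finset.mem_range.mp hj) hx.2
    · rw [Set.disjoint_left]
      intro x hx hx2
      have : cnt r u I j x = 0 := by
        unfold cnt
        rw [Finset.card_eq_zero, Finset.filter_eq_empty_iff]
        intro i hi h3
        exact h3 (hx i (Finset.mem_range.mp hi))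
      have := hx2.1
      omega
  have h3 : (mu G).real I' ≤ q * (mu G).real J +
      2 * q * ∑ j ∈ Finset.range Mw, (mu G).real {x | ∀ i < r, act (u j i) x ∈ I'} := by
    have h4 := Finset.sum_le_sum h2
    rw [Finset.sum_add_distrib] at h4
    have h5 : (2 * q : ℝ) * (∑ j ∈ Finset.range Mw, (mu G).real {x | ∀ i < r, act (u j i) x ∈ I} +
        ∑ j ∈ Finset.range Mw, (mu G).real (N j)) ≤
        2 * q * ∑ j ∈ Finset.range Mw, (mu G).real {x | ∀ i < r, act (u j i) x ∈ I'} :=
      mul_le_mul_of_nonneg_left h4 (by positivity)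
    have h6 := h.le1
    rw [mul_add] at h5
    linarith
  have h7 : (mu G).real I' ≤ 1 / (8 * q * Mw) := by
    have h8 : ∀ j ∈ Finset.range Mw, (mu G).real (N j) ≤ r * (mu G).real I := by
      intro j _
      have h9 : N j ⊆ ⋃ i ∈ Finset.range r, act (u j i) ⁻¹' I := by
        intro x hx
        by_contra hc
        simp only [Set.mem_iUnion, not_exists] at hc
        have : cnt r u I j x = r := by
          unfold cnt
          rw [Finset.filter_true_of_mem]
          · simp
          · intro i hi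
            exact hc i hi
        have := hx.2
        omega
      refine (measureReal_mono h9 (measure_ne_top _ _)).trans
        ((measureReal_biUnion_finset_le _ _).trans ?_)
      have h10 : ∀ i ∈ Finset.range r, (mu G).real (act (u j i) ⁻¹' I) ≤ (mu G).real I := by
        intro i _
        unfold Measure.real
        rw [mu_preimage _ h.meas]
      refine (Finset.sum_le_sum h10).trans ?_
      simp
    have h11 := Finset.sum_le_sum h8
    rw [Finset.sum_const, Finset.card_range, nsmul_eq_mul] at h11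
    have h12 : (2 * q : ℝ) * ∑ j ∈ Finset.range Mw, (mu G).real (N j) ≤
        2 * q * (Mw * (r * (mu G).real I)) := mul_le_mul_of_nonneg_left h11 (by positivity)
    have h13 : (1 + 2 * q * Mw * r : ℝ) * (mu G).real I ≤
        (1 + 2 * q * Mw * r) * (2 * q * (mu G).real J) :=
      mul_le_mul_of_nonneg_left h.le2 (by positivity)
    have h14 : (1 + 2 * q * Mw * r : ℝ) * (mu G).real I =
        (mu G).real I + 2 * q * (Mw * (r * (mu G).real I)) := by ring
    linarith
  have hI'0 : (0 : ℝ) ≤ (mu G).real I' := measureReal_nonneg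
  have h15 : (2 * q : ℝ) * ∑ j ∈ Finset.range Mw, (mu G).real {x | ∀ i < r, act (u j i) x ∈ I'} ≤
      (mu G).real I' / 2 := by
    have h16 : ∀ j ∈ Finset.range Mw, (mu G).real {x | ∀ i < r, act (u j i) x ∈ I'} ≤
        (mu G).real I' * (1 / (4 * q * Mw)) := by
      intro j hj
      refine (hexp I' hI'm j (Finset.mem_range.mp hj)).trans ?_
      have e1 : (mu G).real I' ^ 2 + 27 * (mu G).real I' / r =
          (mu G).real I' * ((mu G).real I' + 27 / r) := by ring
      rw [e1]
      refine mul_le_mul_of_nonneg_left ?_ hI'0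
      have e2 : (27 : ℝ) / r ≤ 1 / (8 * q * Mw) := by
        have hr0 : (0 : ℝ) < r := by
          have : 0 < r := by omega
          exact_mod_cast this
        have hq0' : (0 : ℝ) < 8 * q * Mw := by
          have : (0 : ℝ) < q := by exact_mod_cast hq0
          have : (0 : ℝ) < Mw := by exact_mod_cast hMw
          positivity
        rw [div_le_div_iff₀ hr0 hq0']
        have : (216 * q * Mw : ℝ) ≤ r := by exact_mod_cast hr
        linarith
      have e3 : (1 : ℝ) / (4 * q * Mw) = 1 / (8 * q * Mw) + 1 / (8 * q * Mw) := by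
        have h1 : (0 : ℝ) < q := by exact_mod_cast hq0
        have h2 : (0 : ℝ) < Mw := by exact_mod_cast hMw
        rw [← add_div, div_eq_div_iff (by positivity) (by positivity)]
        ring
      rw [e3]
      exact add_le_add h7 e2
    have h17 := Finset.sum_le_sum h16
    rw [Finset.sum_const, Finset.card_range, nsmul_eq_mul] at h17
    have h18 := mul_le_mul_of_nonneg_left h17 (show (0 : ℝ) ≤ 2 * q by positivity)
    refine h18.trans (le_of_eq ?_)
    have : (q : ℝ) ≠ 0 := by
      have : q ≠ 0 := by omega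
      exact_mod_cast this
    have : (Mw : ℝ) ≠ 0 := by
      have : Mw ≠ 0 := by omega
      exact_mod_cast this
    field_simp
    ring
  refine ⟨hI'm, ?_, h.sub.trans hsub, h3, by linarith⟩
  intro κ hκ y hy
  rw [hI', mem_stepI] at hy ⊢
  rcases hy with hy | ⟨κ', hκ', j, hj, i, hi, hy⟩
  · exact Or.inl (h.inv κ hκ y hy)
  · refine Or.inr ⟨κ * κ', Lg.mul_mem hκ hκ', j, hj, i, hi, ?_⟩
    rw [mul_assoc, mul_inv_rev, act_mul, act_inv_act]
    exact hy

/-- The closure lemma. -/
theorem closure_lemma (hexp : ∀ A : Set (G → Bool), MeasurableSet A → ∀ j < Mw,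
      (mu G).real {x | ∀ i < r, act (u j i) x ∈ A} ≤ (mu G).real A ^ 2 + 27 * (mu G).real A / r)
    {q : ℕ} (hq : Nat.card Lg ≤ q) (hMw : 0 < Mw) (hr : 216 * q * Mw ≤ r)
    {J : Set (G → Bool)} (hJ : MeasurableSet J)
    (hJs : (1 + 2 * q * Mw * r) * (2 * q * (mu G).real J) ≤ 1 / (8 * q * Mw)) :
    ∃ I : Set (G → Bool), MeasurableSet I ∧ (∀ κ ∈ Lg, ∀ x ∈ I, act κ x ∈ I) ∧ J ⊆ I ∧
      (mu G).real I ≤ 2 * q * (mu G).real J ∧
      ∀ j < Mw, ∀ x, (∀ i < r, act (u j i) x ∈ I) ∨ 3 ≤ cnt r u I j x := by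
  classical
  let Is : ℕ → Set (G → Bool) := fun T => (stepI Lg Mw r u)^[T] (⋃ κ : Lg, act (κ : G)⁻¹ ⁻¹' J)
  have hIs : ∀ T, Inv Lg Mw r u q J (Is T) := by
    intro T
    induction T with
    | zero => exact Inv_base Lg Mw r u hJ q hq
    | succ T ih =>
      change Inv Lg Mw r u q J ((stepI Lg Mw r u)^[T + 1] _)
      rw [Function.iterate_succ_apply']
      exact Inv_step Lg Mw r u hexp hq hMw hr hJs ih
  have hsucc : ∀ T, Is (T + 1) = stepI Lg Mw r u (Is T) := fun T =>
    Function.iterate_succ_apply' _ _ _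
  have hmono : Monotone Is := by
    refine monotone_nat_of_le_succ fun T => ?_
    rw [hsucc]
    exact fun x hx => (mem_stepI Lg Mw r u).mpr (Or.inl hx)
  refine ⟨⋃ T, Is T, MeasurableSet.iUnion fun T => (hIs T).meas, ?_, ?_, ?_, ?_⟩
  · intro κ hκ x hx
    obtain ⟨T, hT⟩ := Set.mem_iUnion.mp hx
    exact Set.mem_iUnion.mpr ⟨T, (hIs T).inv κ hκ x hT⟩
  · exact (hIs 0).sub.trans (Set.subset_iUnion Is 0)
  · have h0 : (0 : ℝ) ≤ 2 * q * (mu G).real J := by
      have : (0 : ℝ) ≤ (mu G).real J := measureReal_nonneg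
      positivity
    have h1 : (mu G) (⋃ T, Is T) ≤ ENNReal.ofReal (2 * q * (mu G).real J) := by
      rw [hmono.measure_iUnion]
      refine iSup_le fun T => ?_
      rw [← ENNReal.ofReal_toReal (measure_ne_top (mu G) (Is T))]
      exact ENNReal.ofReal_le_ofReal (hIs T).le2
    exact ENNReal.toReal_le_of_le_ofReal h0 h1
  · intro j hj x
    by_contra hcon
    push Not at hcon
    obtain ⟨⟨i0, hi0, hcon0⟩, hcon1⟩ := hcon
    have hT : ∃ T, ∀ i < r, act (u j i) x ∈ (⋃ T, Is T) → act (u j i) x ∈ Is T := by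
      have hch : ∀ i, ∃ T, act (u j i) x ∈ (⋃ T, Is T) → act (u j i) x ∈ Is T := by
        intro i
        by_cases h : act (u j i) x ∈ (⋃ T, Is T)
        · obtain ⟨T, hT⟩ := Set.mem_iUnion.mp h
          exact ⟨T, fun _ => hT⟩
        · exact ⟨0, fun h' => absurd h' h⟩
      choose T hT using hch
      refine ⟨(Finset.range r).sup T, fun i hi h => ?_⟩
      exact hmono (Finset.le_sup (Finset.mem_range.mpr hi)) (hT i h)
    obtain ⟨T, hT⟩ := hT
    have hle : cnt r u (Is T) j x ≤ cnt r u (⋃ T, Is T) j x := by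
      unfold cnt
      refine Finset.card_le_card ?_
      intro i hi
      simp only [Finset.mem_filter] at hi ⊢
      exact ⟨hi.1, fun h => hi.2 (hT i (Finset.mem_range.mp hi.1) h)⟩
    have h2 := stepI_all Lg Mw r u (I := Is T) hj (x := x) (by omega) i0 hi0
    rw [← hsucc] at h2
    exact hcon0 (Set.mem_iUnion.mpr ⟨T + 1, h2⟩)

end clos

end Pool.Agent.H73
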