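import Pool.Agent.H73.Words

/-! Crossing paths in the contracted tree. -/

set_option autoImplicit false

namespace Pool.Agent.H73

open Function

section crossing

variable (m : ℕ) (I : Set Gam)

/-- One free move at level `m`: everything except the letter `m+1` outside `I`. -/
def stepT (γ δ : Gam) : Prop :=
  (∃ κ, δ = kk κ * γ) ∨ (∃ l, l ≠ m + 1 ∧ δ = cc l * γ) ∨ (γ ∈ I ∧ δ = cc (m + 1) * γ)

/-- The equivalence relation generated by the free moves. -/
def T : Gam → Gam → Prop := Relation.EqvGen (stepT m I)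

variable {m I}

theorem T_refl (γ : Gam) : T m I γ γ := Relation.EqvGen.refl _

theorem T_symm {γ δ : Gam} (h : T m I γ δ) : T m I δ γ := Relation.EqvGen.symm _ _ h

theorem T_trans {a b c : Gam} (h : T m I a b) (h' : T m I b c) : T m I a c :=
  Relation.EqvGen.trans _ _ _ h h'

theorem T_kk (κ : K) (γ : Gam) : T m I γ (kk κ * γ) :=
  Relation.EqvGen.rel _ _ (Or.inl ⟨κ, rfl⟩)

theorem T_cc {l : ℕ} (h : l ≠ m + 1) (γ : Gam) : T m I γ (cc l * γ) :=
  Relation.EqvGen.rel _ _ (Or.inr (Or.inl ⟨l, h, rfl⟩))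

theorem T_mem {γ : Gam} (h : γ ∈ I) : T m I γ (cc (m + 1) * γ) :=
  Relation.EqvGen.rel _ _ (Or.inr (Or.inr ⟨h, rfl⟩))

theorem T_b (κ : K) (γ : Gam) : T m I γ (SemidirectProduct.inl (blet κ) * γ) := by
  rw [inl_blet, mul_assoc, mul_assoc, ← kk_inv]
  exact T_trans (T_kk κ⁻¹ γ) (T_trans (T_cc (by omega) _) (T_kk κ _))

/-- Cut function of the edge `e`. -/
noncomputable def sg (m : ℕ) (e γ : Gam) : Bool := cut (m + 1) (γ * e⁻¹)

/-- Equivalence of edges. -/
def eqv (m : ℕ) (e e' : Gam) : Prop := ∃ κ ∈ L (m + 1), e' = kk κ * e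

theorem InL_iff_eqv {e γ : Gam} : InL (m + 1) (γ * e⁻¹) ↔ eqv m e γ := by
  constructor
  · rintro ⟨κ, h, h2⟩
    exact ⟨κ, h, by rw [← h2]; group⟩
  · rintro ⟨κ, h, h2⟩
    exact ⟨κ, h, by rw [h2]; group⟩

theorem eqv_symm {e e' : Gam} (h : eqv m e e') : eqv m e' e := by
  obtain ⟨κ, h1, rfl⟩ := h
  refine ⟨κ⁻¹, (L (m + 1)).inv_mem h1, ?_⟩
  rw [kk_inv]
  group

theorem sg_kk (e : Gam) (κ : K) (γ : Gam) : sg m e (kk κ * γ) = sg m e γ := by
  unfold sg
  rw [mul_assoc, cut_kk]

theorem sg_cc_ne {l : ℕ} (h : l ≠ m + 1) (e γ : Gam) : sg m e (cc l * γ) = sg m e γ := by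
  unfold sg
  rw [mul_assoc, cut_cc_ne h]

theorem sg_cc_not {e γ : Gam} (h : ¬ eqv m e γ) : sg m e (cc (m + 1) * γ) = sg m e γ := by
  unfold sg
  rw [mul_assoc, cut_cc_not]
  rwa [InL_iff_eqv]

theorem sg_eqv {e γ : Gam} (h : eqv m e γ) : sg m e γ = false := by
  unfold sg
  exact cut_inL (InL_iff_eqv.mpr h)

theorem sg_c_eqv {e γ : Gam} (h : eqv m e γ) : sg m e (cc (m + 1) * γ) = true := by
  unfold sg
  rw [mul_assoc]
  exact cut_c_inL (InL_iff_eqv.mpr h)

theorem eqv_refl (e : Gam) : eqv m e e := ⟨1, (L (m + 1)).one_mem, by simp⟩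

variable (hI : ∀ κ ∈ L (m + 1), ∀ γ, γ ∈ I → kk κ * γ ∈ I)

include hI

theorem eqv_mem {e e' : Gam} (h : eqv m e e') (he : e ∉ I) : e' ∉ I := by
  intro h2
  obtain ⟨κ, h3, h4⟩ := eqv_symm h
  rw [h4] at he
  exact he (hI κ h3 _ h2)

theorem sg_T {e : Gam} (he : e ∉ I) {γ δ : Gam} (h : T m I γ δ) : sg m e γ = sg m e δ := by
  induction h with
  | rel x y h =>
    rcases h with ⟨κ, rfl⟩ | ⟨l, hl, rfl⟩ | ⟨hx, rfl⟩
    · exact (sg_kk _ _ _).symm
    · exact (sg_cc_ne hl _ _).symm
    · refine (sg_cc_not ?_).symm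
      intro h2
      exact eqv_mem hI h2 he hx
  | refl x => rfl
  | symm x y _ ih => exact ih.symm
  | trans x y z _ _ ih1 ih2 => exact ih1.trans ih2

omit hI

/-- Paths together with the list of edges of letter `m+1` outside `I` that they cross. -/
inductive CPath (m : ℕ) (I : Set Gam) : List Gam → Gam → Gam → Prop
  | nil {p q : Gam} (h : T m I p q) : CPath m I [] p q
  | fwd {l : List Gam} {p q e : Gam} (h : T m I p e) (he : e ∉ I)
      (t : CPath m I l (cc (m + 1) * e) q) : CPath m I (e :: l) p q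
  | bwd {l : List Gam} {p q e : Gam} (h : T m I p (cc (m + 1) * e)) (he : e ∉ I)
      (t : CPath m I l e q) : CPath m I (e :: l) p q

theorem CPath.head {l : List Gam} {p p' q : Gam} (h : T m I p' p) (t : CPath m I l p q) :
    CPath m I l p' q := by
  cases t with
  | nil h2 => exact CPath.nil (T_trans h h2)
  | fwd h2 he t => exact CPath.fwd (T_trans h h2) he t
  | bwd h2 he t => exact CPath.bwd (T_trans h h2) he t

theorem CPath.append {l l' : List Gam} {p a q : Gam} (h1 : CPath m I l p a)
    (h2 : CPath m I l' a q) : CPath m I (l ++ l') p q := by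
  induction h1 with
  | nil h => exact h2.head h
  | fwd h he _ ih => exact CPath.fwd h he (ih h2)
  | bwd h he _ ih => exact CPath.bwd h he (ih h2)

theorem CPath.reverse {l : List Gam} {p q : Gam} (h1 : CPath m I l p q) :
    CPath m I l.reverse q p := by
  induction h1 with
  | nil h => exact CPath.nil (T_symm h)
  | fwd h he _ ih =>
    rw [List.reverse_cons]
    exact ih.append (CPath.bwd (T_refl _) he (CPath.nil (T_symm h)))
  | bwd h he _ ih =>
    rw [List.reverse_cons]
    exact ih.append (CPath.fwd (T_refl _) he (CPath.nil (T_symm h)))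

theorem CPath.notMem {l : List Gam} {p q : Gam} (h1 : CPath m I l p q) : ∀ e ∈ l, e ∉ I := by
  induction h1 with
  | nil h => intro e he; simp at he
  | fwd h he _ ih =>
    intro e' he'
    rcases List.mem_cons.mp he' with rfl | h3
    · exact he
    · exact ih _ h3
  | bwd h he _ ih =>
    intro e' he'
    rcases List.mem_cons.mp he' with rfl | h3
    · exact he
    · exact ih _ h3

/-- Splitting at the last edge. -/
theorem CPath.split_last {l : List Gam} {e p a : Gam} (h : CPath m I (l ++ [e]) p a) :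
    (CPath m I l p e ∧ T m I (cc (m + 1) * e) a) ∨ (CPath m I l p (cc (m + 1) * e) ∧ T m I e a) := by
  induction l generalizing p with
  | nil =>
    cases h with
    | fwd h he t =>
      cases t with
      | nil h2 => exact Or.inl ⟨CPath.nil h, h2⟩
    | bwd h he t =>
      cases t with
      | nil h2 => exact Or.inr ⟨CPath.nil h, h2⟩
  | cons f l ih =>
    cases h with
    | fwd h he t =>
      rcases ih t with ⟨h1, h2⟩ | ⟨h1, h2⟩
      · exact Or.inl ⟨CPath.fwd h he h1, h2⟩
      · exact Or.inr ⟨CPath.fwd h he h1, h2⟩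
    | bwd h he t =>
      rcases ih t with ⟨h1, h2⟩ | ⟨h1, h2⟩
      · exact Or.inl ⟨CPath.bwd h he h1, h2⟩
      · exact Or.inr ⟨CPath.bwd h he h1, h2⟩

include hI

/-- If a path changes the side of `e` then it crosses the class of `e`. -/
theorem CPath.exists_cross {e : Gam} (he : e ∉ I) {l : List Gam} {p q : Gam}
    (h : CPath m I l p q) (hs : sg m e p ≠ sg m e q) :
    ∃ l1 e1 l2, l = l1 ++ e1 :: l2 ∧ eqv m e e1 ∧ ∃ a, CPath m I l1 p a ∧
      sg m e a = sg m e p ∧ (a = e1 ∨ a = cc (m + 1) * e1) := by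
  induction h with
  | nil h => exact absurd (sg_T hI he h) hs
  | @fwd l p q f h hf t ih =>
    by_cases h1 : eqv m e f
    · exact ⟨[], f, l, rfl, h1, f, CPath.nil h, (sg_T hI he h).symm, Or.inl rfl⟩
    · have h2 := sg_cc_not h1
      have h3 := sg_T hI he h
      obtain ⟨l1, e1, l2, h4, h5, a, h6, h7, h8⟩ := ih (by rw [h2, ← h3]; exact hs)
      exact ⟨f :: l1, e1, l2, by rw [h4]; rfl, h5, a, CPath.fwd h hf h6,
        by rw [h7, h2, h3], h8⟩
  | @bwd l p q f h hf t ih =>
    by_cases h1 : eqv m e f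
    · exact ⟨[], f, l, rfl, h1, cc (m + 1) * f, CPath.nil h, (sg_T hI he h).symm, Or.inr rfl⟩
    · have h2 := sg_cc_not h1
      have h3 := sg_T hI he h
      obtain ⟨l1, e1, l2, h4, h5, a, h6, h7, h8⟩ := ih (by rw [← h2, ← h3]; exact hs)
      exact ⟨f :: l1, e1, l2, by rw [h4]; rfl, h5, a, CPath.bwd h hf h6,
        by rw [h7, h3, h2], h8⟩

/-- A path between equivalent points which crosses something has an immediate backtrack. -/
theorem CPath.not_chain (n : ℕ) : ∀ {l : List Gam} {p q : Gam}, l.length ≤ n →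
    CPath m I l p q → T m I p q → l ≠ [] → ¬ l.IsChain (fun a b => ¬ eqv m a b) := by
  induction n with
  | zero =>
    intro l p q hl _ _ hne
    exact absurd (List.length_eq_zero_iff.mp (Nat.le_zero.mp hl)) hne
  | succ n ih =>
    intro l p q hl hp hT hne hch
    cases hp with
    | nil h => exact hne rfl
    | @fwd l p q e h he t =>
      have h1 : sg m e e = false := sg_eqv (eqv_refl e)
      have h2 : sg m e (cc (m + 1) * e) = true := sg_c_eqv (eqv_refl e)
      have h3 : sg m e q = false := by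
        rw [← sg_T hI he hT, sg_T hI he h, h1]
      obtain ⟨l1, e1, l2, h4, h5, a, h6, h7, h8⟩ := t.exists_cross hI he (by rw [h2, h3]; simp)
      subst h4
      obtain ⟨κ, hκ, rfl⟩ := h5
      have h9 : T m I (cc (m + 1) * e) a := by
        rcases h8 with rfl | rfl
        · rw [sg_eqv ⟨κ, hκ, rfl⟩, h2] at h7
          exact absurd h7 (by simp)
        · rw [← mul_assoc, ← comm_c hκ, mul_assoc]
          exact T_kk _ _
      by_cases h10 : l1 = []
      · subst h10
        simp only [List.nil_append] at hch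
        exact (List.isChain_cons_cons.mp hch).1 ⟨κ, hκ, rfl⟩
      · have h11 : l1.length ≤ n := by
          simp only [List.length_cons, List.length_append] at hl
          omega
        refine ih h11 h6 h9 h10 ?_
        have := hch.tail
        simp only [List.tail_cons] at this
        exact this.left_of_append
    | @bwd l p q e h he t =>
      have h1 : sg m e e = false := sg_eqv (eqv_refl e)
      have h2 : sg m e (cc (m + 1) * e) = true := sg_c_eqv (eqv_refl e)
      have h3 : sg m e q = true := by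
        rw [← sg_T hI he hT, sg_T hI he h, h2]
      obtain ⟨l1, e1, l2, h4, h5, a, h6, h7, h8⟩ := t.exists_cross hI he (by rw [h1, h3]; simp)
      subst h4
      obtain ⟨κ, hκ, rfl⟩ := h5
      have h9 : T m I e a := by
        rcases h8 with rfl | rfl
        · exact T_kk _ _
        · rw [sg_c_eqv ⟨κ, hκ, rfl⟩, h1] at h7
          exact absurd h7 (by simp)
      by_cases h10 : l1 = []
      · subst h10
        simp only [List.nil_append] at hch
        exact (List.isChain_cons_cons.mp hch).1 ⟨κ, hκ, rfl⟩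
      · have h11 : l1.length ≤ n := by
          simp only [List.length_cons, List.length_append] at hl
          omega
        refine ih h11 h6 h9 h10 ?_
        have := hch.tail
        simp only [List.tail_cons] at this
        exact this.left_of_append

/-- Cancelling one crossing at a junction. -/
theorem CPath.merge {l1 l2 : List Gam} {e e' p a q : Gam} (h1 : CPath m I (l1 ++ [e]) p a)
    (h2 : CPath m I (e' :: l2) a q) (he : eqv m e e') : CPath m I (l1 ++ l2) p q := by
  have heI : e ∉ I := h1.notMem e (by simp)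
  have hs1 : sg m e e = false := sg_eqv (eqv_refl e)
  have hs2 : sg m e (cc (m + 1) * e) = true := sg_c_eqv (eqv_refl e)
  have hs3 : sg m e e' = false := sg_eqv he
  have hs4 : sg m e (cc (m + 1) * e') = true := sg_c_eqv he
  obtain ⟨κ, hκ, rfl⟩ := he
  rcases h1.split_last with ⟨h3, h4⟩ | ⟨h3, h4⟩
  · have h5 : sg m e a = true := by rw [← sg_T hI heI h4, hs2]
    cases h2 with
    | fwd h6 _ t =>
      rw [sg_T hI heI h6, hs3] at h5
      exact absurd h5 (by simp)
    | bwd h6 _ t =>
      exact h3.append (t.head (T_kk κ e))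
  · have h5 : sg m e a = false := by rw [← sg_T hI heI h4, hs1]
    cases h2 with
    | fwd h6 _ t =>
      refine h3.append (t.head ?_)
      rw [← mul_assoc, ← comm_c hκ, mul_assoc]
      exact T_kk _ _
    | bwd h6 _ t =>
      rw [sg_T hI heI h6, hs4] at h5
      exact absurd h5 (by simp)

end crossing

end Pool.Agent.H73
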