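import Pool.Agent.H73.Comb1

/-! Elimination of the attachments of one level. -/

set_option autoImplicit false

namespace Pool.Agent.H73

open Function

section blocks

variable {m : ℕ} {I : Set Gam} (r : ℕ)

open Classical in
/-- The edges outside `I` on the path of the word `(m, j)` started at `γ`. -/
noncomputable def cl (m : ℕ) (I : Set Gam) (r j : ℕ) (γ : Gam) : List Gam :=
  ((List.range r).filter (fun i => decide (U m j i * γ ∉ I))).map (fun i => U m j i * γ)

theorem mem_cl {j : ℕ} {γ e : Gam} : e ∈ cl m I r j γ ↔ ∃ i, i < r ∧ U m j i * γ ∉ I ∧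
    U m j i * γ = e := by
  classical
  unfold cl
  simp only [List.mem_map, List.mem_filter, List.mem_range, decide_eq_true_eq]
  constructor
  · rintro ⟨i, ⟨h1, h2⟩, h3⟩
    exact ⟨i, h1, h2, h3⟩
  · rintro ⟨i, h1, h2, h3⟩
    exact ⟨i, ⟨h1, h2⟩, h3⟩

theorem cl_path (j : ℕ) (γ : Gam) : CPath m I (cl m I r j γ) γ (U m j r * γ) := by
  classical
  induction r with
  | zero =>
    have h : cl m I 0 j γ = [] := by simp [cl]
    rw [h]
    refine CPath.nil ?_
    unfold U uw
    exact T_b _ _
  | succ r ih =>
    have h1 : T m I (cc (m + 1) * (U m j r * γ)) (U m j (r + 1) * γ) := by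
      rw [U_succ, mul_assoc, mul_assoc]
      exact T_b _ _
    by_cases h : U m j r * γ ∈ I
    · have h2 : cl m I (r + 1) j γ = cl m I r j γ := by
        unfold cl
        rw [List.range_succ, List.filter_append, List.filter_singleton]
        simp [h]
      rw [h2]
      have h3 := ih.append (CPath.nil (T_trans (T_mem h) h1))
      rwa [List.append_nil] at h3
    · have h2 : cl m I (r + 1) j γ = cl m I r j γ ++ [U m j r * γ] := by
        unfold cl
        rw [List.range_succ, List.filter_append, List.filter_singleton]
        simp [h]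
      rw [h2]
      exact ih.append (CPath.fwd (T_refl _) h (CPath.nil h1))

theorem cl_pairwise (j : ℕ) (γ : Gam) :
    (cl m I r j γ).Pairwise (fun a b => ¬ eqv m a b) := by
  classical
  unfold cl
  rw [List.pairwise_map]
  refine List.Pairwise.filter _ ?_
  have h := List.nodup_range (n := r)
  refine List.Pairwise.imp ?_ h
  intro a b hab h2
  obtain ⟨κ, hκ, h3⟩ := h2
  exact hab (U_inj h3.symm)

/-- The list of crossings of an attachment in a given direction. -/
noncomputable def cl' (m : ℕ) (I : Set Gam) (r : ℕ) (h : Gam × ℕ × Bool) : List Gam :=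
  if h.2.2 then cl m I r h.2.1 h.1 else (cl m I r h.2.1 h.1).reverse

theorem mem_cl' {h : Gam × ℕ × Bool} {e : Gam} : e ∈ cl' m I r h ↔ e ∈ cl m I r h.2.1 h.1 := by
  unfold cl'
  split <;> simp

theorem cl'_pairwise (h : Gam × ℕ × Bool) : (cl' m I r h).Pairwise (fun a b => ¬ eqv m a b) := by
  unfold cl'
  split
  · exact cl_pairwise r _ _
  · rw [List.pairwise_reverse]
    refine (cl_pairwise r _ _).imp ?_
    intro a b h1 h2
    exact h1 (eqv_symm h2)

theorem cl'_length (h : Gam × ℕ × Bool) : (cl' m I r h).length = (cl m I r h.2.1 h.1).length := by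
  unfold cl'
  split <;> simp

theorem cl'_cancel {h h' : Gam × ℕ × Bool} {a b a' b' : Gam} (ha : a ∈ cl' m I r h)
    (hb : b ∈ cl' m I r h) (ha' : a' ∈ cl' m I r h') (hb' : b' ∈ cl' m I r h')
    (hab : a ≠ b) (h1 : eqv m a a') (h2 : eqv m b b') : h.1 = h'.1 ∧ h.2.1 = h'.2.1 := by
  rw [mem_cl', mem_cl] at ha hb ha' hb'
  obtain ⟨i, _, _, rfl⟩ := ha
  obtain ⟨s, _, _, rfl⟩ := hb
  obtain ⟨i', _, _, rfl⟩ := ha'
  obtain ⟨s', _, _, rfl⟩ := hb'
  obtain ⟨κ, hκ, h3⟩ := h1
  obtain ⟨κ', hκ', h4⟩ := h2
  have his : i ≠ s := by
    rintro rfl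
    exact hab rfl
  have := small_cancel hκ hκ' his h3.symm h4.symm
  exact ⟨this.2, this.1⟩

end blocks

section elimination

variable {m : ℕ} {I : Set Gam} {r : ℕ} {att : Gam → ℕ → Gam} {B : Gam → Gam → Prop}
  {unf : Gam → ℕ → Prop}

/-- Start and end point of an attachment used in a direction. -/
noncomputable def hst (m r : ℕ) (att : Gam → ℕ → Gam) (h : Gam × ℕ × Bool) : Gam :=
  if h.2.2 then att h.1 h.2.1 else U m h.2.1 r * h.1

/-- End point. -/
noncomputable def hen (m r : ℕ) (att : Gam → ℕ → Gam) (h : Gam × ℕ × Bool) : Gam :=
  if h.2.2 then U m h.2.1 r * h.1 else att h.1 h.2.1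

/-- Paths using moves of `B` and attachments. -/
inductive APath (m r : ℕ) (att : Gam → ℕ → Gam) (B : Gam → Gam → Prop) (unf : Gam → ℕ → Prop) :
    List (Gam × ℕ × Bool) → Gam → Gam → Prop
  | nil {p q : Gam} (h : B p q) : APath m r att B unf [] p q
  | cons {h : Gam × ℕ × Bool} {l : List (Gam × ℕ × Bool)} {p q : Gam}
      (h1 : B p (hst m r att h)) (h2 : unf h.1 h.2.1)
      (t : APath m r att B unf l (hen m r att h) q) : APath m r att B unf (h :: l) p q

variable (hB : Equivalence B)

include hB

theorem APath.head {l : List (Gam × ℕ × Bool)} {p p' q : Gam} (h : B p' p)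
    (t : APath m r att B unf l p q) : APath m r att B unf l p' q := by
  cases t with
  | nil h2 => exact APath.nil (hB.trans h h2)
  | cons h1 h2 t => exact APath.cons (hB.trans h h1) h2 t

theorem APath.append {l l' : List (Gam × ℕ × Bool)} {p a q : Gam}
    (t : APath m r att B unf l p a) (t' : APath m r att B unf l' a q) :
    APath m r att B unf (l ++ l') p q := by
  induction t with
  | nil h => exact t'.head hB h
  | cons h1 h2 _ ih => exact APath.cons h1 h2 (ih t')

/-- A path with two consecutive uses of the same attachment can be shortened. -/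
theorem APath.shorten {l : List (Gam × ℕ × Bool)} {p q : Gam} (t : APath m r att B unf l p q)
    (hc : ¬ l.IsChain (fun a b => ¬ (a.1 = b.1 ∧ a.2.1 = b.2.1))) :
    ∃ l' : List (Gam × ℕ × Bool), l'.length < l.length ∧ APath m r att B unf l' p q := by
  induction t with
  | nil h => exact absurd List.isChain_nil hc
  | @cons h l p q h1 h2 t ih =>
    by_cases hch : l.IsChain (fun a b => ¬ (a.1 = b.1 ∧ a.2.1 = b.2.1))
    · cases t with
      | nil h3 => exact absurd (List.isChain_singleton _) hc
      | @cons h' l' _ _ h1' h2' t' =>
        have h4 : h.1 = h'.1 ∧ h.2.1 = h'.2.1 := by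
          by_contra h5
          exact hc (List.isChain_cons_cons.mpr ⟨h5, hch⟩)
        obtain ⟨γ, j, σ⟩ := h
        obtain ⟨γ', j', σ'⟩ := h'
        obtain ⟨h5, h6⟩ := h4
        simp only at h5 h6
        subst h5
        subst h6
        by_cases hσ : σ = σ'
        · subst hσ
          exact ⟨(γ, j, σ) :: l', by simp, APath.cons h1 h2 t'⟩
        · refine ⟨l', by simp, ?_⟩
          have h7 : hen m r att (γ, j, σ') = hst m r att (γ, j, σ) := by
            unfold hen hst
            cases σ <;> cases σ' <;> simp_all
          exact t'.head hB (by rw [h7]; exact h1)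
    · obtain ⟨l', h3, h4⟩ := ih hch
      exact ⟨h :: l', by simpa using h3, APath.cons h1 h2 h4⟩

variable (hI : ∀ κ ∈ L (m + 1), ∀ γ, γ ∈ I → kk κ * γ ∈ I)
  (hBT : ∀ p q, B p q → T m I p q) (hatt : ∀ γ j, T m I γ (att γ j))
  (hunf : ∀ γ j, unf γ j → 3 ≤ (cl m I r j γ).length)

include hI hBT hatt hunf

omit hB hI hBT hunf in
theorem cl'_path (h : Gam × ℕ × Bool) :
    CPath m I (cl' m I r h) (hst m r att h) (hen m r att h) := by
  obtain ⟨γ, j, σ⟩ := h
  unfold cl' hst hen
  cases σ
  · simp only [Bool.false_eq_true, if_false]
    have h1 := (cl_path (m := m) (I := I) r j γ).reverse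
    have h2 := h1.append (CPath.nil (hatt γ j))
    rwa [List.append_nil] at h2
  · simp only [if_true]
    exact (cl_path (m := m) (I := I) r j γ).head (T_symm (hatt γ j))

set_option linter.unusedSectionVars false in
theorem APath.crossing {h : Gam × ℕ × Bool} {l : List (Gam × ℕ × Bool)} {p q : Gam}
    (t : APath m r att B unf (h :: l) p q)
    (hc : (h :: l).IsChain (fun a b => ¬ (a.1 = b.1 ∧ a.2.1 = b.2.1))) :
    ∃ f1 f2 rest, CPath m I (f1 :: f2 :: rest) p q ∧
      (f1 :: f2 :: rest).IsChain (fun a b => ¬ eqv m a b) ∧ ∃ t', cl' m I r h = f1 :: f2 :: t' := by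
  induction l generalizing h p with
  | nil =>
    cases t with
    | cons h1 h2 t =>
      cases t with
      | nil h3 =>
        have h4 : 3 ≤ (cl' m I r h).length := by
          rw [cl'_length]
          exact hunf _ _ h2
        have h5 := (cl'_path (m := m) (I := I) (r := r) hatt h).head (hBT _ _ h1)
        have h6 := h5.append (CPath.nil (hBT _ _ h3))
        rw [List.append_nil] at h6
        have h7 := (cl'_pairwise (m := m) (I := I) r h).isChain
        match hcl : cl' m I r h with
        | [] => rw [hcl] at h4; simp at h4
        | [_] => rw [hcl] at h4; simp at h4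
        | f1 :: f2 :: rest =>
          rw [hcl] at h6 h7
          exact ⟨f1, f2, rest, h6, h7, rest, rfl⟩
  | cons h' l' ih =>
    cases t with
    | cons h1 h2 t =>
      obtain ⟨g1, g2, rest', hp', hch', t', ht'⟩ := ih t hc.tail
      have hne : ¬ (h.1 = h'.1 ∧ h.2.1 = h'.2.1) := (List.isChain_cons_cons.mp hc).1
      have h4 : 3 ≤ (cl' m I r h).length := by
        rw [cl'_length]
        exact hunf _ _ h2
      have h5 := (cl'_path (m := m) (I := I) (r := r) hatt h).head (hBT _ _ h1)
      have h7 := (cl'_pairwise (m := m) (I := I) r h)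
      -- split off the last element
      have hnil : cl' m I r h ≠ [] := by
        intro h8
        rw [h8] at h4
        simp at h4
      obtain ⟨ini, es, hini⟩ : ∃ ini es, cl' m I r h = ini ++ [es] :=
        ⟨(cl' m I r h).dropLast, (cl' m I r h).getLast hnil, (List.dropLast_append_getLast hnil).symm⟩
      have hg1 : g1 ∈ cl' m I r h' := by rw [ht']; simp
      have hg2 : g2 ∈ cl' m I r h' := by rw [ht']; simp
      have hes : es ∈ cl' m I r h := by rw [hini]; simp
      match ini, hini with
      | [], hini => rw [hini] at h4; simp at h4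
      | [_], hini => rw [hini] at h4; simp at h4
      | f1 :: f2 :: ini', hini =>
        by_cases he : eqv m es g1
        · refine ⟨f1, f2, ini' ++ (g2 :: rest'), ?_, ?_, ini' ++ [es], ?_⟩
          · have h8 : CPath m I ((f1 :: f2 :: ini') ++ [es]) p (hen m r att h) := by
              rw [← hini]; exact h5
            exact CPath.merge hI h8 hp' he
          · have h9 : (f1 :: f2 :: ini').IsChain (fun a b => ¬ eqv m a b) := by
              rw [hini] at h7
              exact (List.pairwise_append.mp h7).1.isChain
            have h10 : (g2 :: rest').IsChain (fun a b => ¬ eqv m a b) := hch'.tail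
            have := h9.append h10 ?_
            · exact this
            intro x hx y hy
            simp only [List.head?_cons, Option.mem_def, Option.some.injEq] at hy
            subst hy
            have hx' : x ∈ (f1 :: f2 :: ini') := List.mem_of_getLast? hx
            intro h11
            have hxc : x ∈ cl' m I r h := by
              rw [hini]
              exact List.mem_append_left _ hx'
            have hxe : es ≠ x := by
              rintro rfl
              rw [hini] at h7
              have := (List.pairwise_append.mp h7).2.2 es hx' es (by simp)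
              exact this (eqv_refl _)
            exact hne (cl'_cancel r hes hxc hg1 hg2 hxe he h11)
          · rw [hini]
            rfl
        · refine ⟨f1, f2, ini' ++ (es :: g1 :: g2 :: rest'), ?_, ?_, ini' ++ [es], ?_⟩
          · have h8 := h5.append hp'
            rw [hini] at h8
            have h9 : (f1 :: f2 :: ini') ++ [es] ++ (g1 :: g2 :: rest') =
                f1 :: f2 :: (ini' ++ (es :: g1 :: g2 :: rest')) := by simp
            rw [← h9]
            exact h8
          · have h9 : (f1 :: f2 :: ini') ++ [es] ++ (g1 :: g2 :: rest') =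
                f1 :: f2 :: (ini' ++ (es :: g1 :: g2 :: rest')) := by simp
            rw [← h9, ← hini]
            refine List.IsChain.append h7.isChain hch' ?_
            intro x hx y hy
            simp only [List.head?_cons, Option.mem_def, Option.some.injEq] at hy
            subst hy
            rw [hini] at hx
            simp only [List.getLast?_append, List.getLast?_singleton, Option.some_or,
              Option.mem_def, Option.some.injEq] at hx
            subst hx
            exact he
          · rw [hini]
            rfl

include hB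

/-- Elimination of the attachments. -/
theorem APath.elim (n : ℕ) : ∀ {l : List (Gam × ℕ × Bool)} {p q : Gam}, l.length ≤ n →
    APath m r att B unf l p q → T m I p q → B p q := by
  induction n with
  | zero =>
    intro l p q hl t _
    have := List.length_eq_zero_iff.mp (Nat.le_zero.mp hl)
    subst this
    cases t with
    | nil h => exact h
  | succ n ih =>
    intro l p q hl t hT
    by_cases hc : l.IsChain (fun a b => ¬ (a.1 = b.1 ∧ a.2.1 = b.2.1))
    · cases l with
      | nil =>
        cases t with
        | nil h => exact h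
      | cons h l' =>
        obtain ⟨f1, f2, rest, h1, h2, _⟩ := t.crossing hB hI hBT hatt hunf hc
        exact absurd h2 (CPath.not_chain hI _ (le_refl _) h1 hT (by simp))
    · obtain ⟨l', h1, h2⟩ := t.shorten hB hc
      exact ih (by omega) h2 hT

end elimination

end Pool.Agent.H73
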