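import Pool.Agent.H73.Comb2

/-! The combinatorial theorem on one orbit. -/

set_option autoImplicit false

namespace Pool.Agent.H73

open Function

section final

variable (n : ℕ) (M r : ℕ → ℕ) (I : ℕ → Set Gam) (Hr : Gam → Gam → Prop)

/-- The vertices of the chain of level `m` at `γ`. -/
noncomputable def cv (M r : ℕ → ℕ) (m : ℕ) (γ : Gam) : ℕ → Gam
  | 0 => γ
  | (j + 1) => if j < M m then U m j (r m) * γ else cc m * γ

open Classical in
/-- The point to which the `j`-th chain vertex is attached. -/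
noncomputable def att (M r : ℕ → ℕ) (Hr : Gam → Gam → Prop) (m : ℕ) (γ : Gam) (j : ℕ) : Gam :=
  if ∀ j', j' ≤ j → Hr (cv M r m γ j') (cv M r m γ (j' + 1)) then γ else cc m * γ

/-- Available moves. -/
def stepB (γ δ : Gam) : Prop := (∃ κ, δ = kk κ * γ) ∨ (∃ l, γ ∈ I l ∧ δ = cc l * γ)

/-- Moves plus attachments of the levels below `k`. -/
def stepR (k : ℕ) (γ δ : Gam) : Prop := stepB I γ δ ∨
  ∃ m, m < k ∧ ∃ γ0 j, j < M m ∧ γ = att M r Hr m γ0 j ∧ δ = U m j (r m) * γ0

/-- The generated relation. -/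
def R (k : ℕ) : Gam → Gam → Prop := Relation.EqvGen (stepR M r I Hr k)

variable {n M r I Hr}

theorem R_equiv (k : ℕ) : Equivalence (R M r I Hr k) := Relation.EqvGen.is_equivalence _

theorem att_cases (m : ℕ) (γ : Gam) (j : ℕ) :
    att M r Hr m γ j = γ ∨ att M r Hr m γ j = cc m * γ := by
  classical
  unfold att
  split
  · exact Or.inl rfl
  · exact Or.inr rfl

theorem T_U {m : ℕ} {I' : Set Gam} {m' : ℕ} (h : m' ≠ m) (j i : ℕ) (γ : Gam) :
    T m I' γ (U m' j i * γ) := by
  induction i with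
  | zero =>
    unfold U uw
    exact T_b _ _
  | succ i ih =>
    rw [U_succ, mul_assoc, mul_assoc]
    exact T_trans ih (T_trans (T_cc (by omega) _) (T_b _ _))

theorem R_le_T {m : ℕ} {p q : Gam} (h : R M r I Hr m p q) : T m (I (m + 1)) p q := by
  induction h with
  | rel x y h =>
    rcases h with (⟨κ, rfl⟩ | ⟨l, hl, rfl⟩) | ⟨m', hm', γ0, j, hj, rfl, rfl⟩
    · exact T_kk _ _
    · by_cases h1 : l = m + 1
      · subst h1
        exact T_mem hl
      · exact T_cc h1 _
    · have h1 : T m (I (m + 1)) γ0 (att M r Hr m' γ0 j) := by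
        rcases att_cases (M := M) (r := r) (Hr := Hr) m' γ0 j with h | h
        · rw [h]; exact T_refl _
        · rw [h]; exact T_cc (by omega) _
      exact T_trans (T_symm h1) (T_U (by omega) _ _ _)
  | refl x => exact T_refl _
  | symm x y _ ih => exact T_symm ih
  | trans x y z _ _ ih1 ih2 => exact T_trans ih1 ih2

theorem APath.reverse {m r : ℕ} {att : Gam → ℕ → Gam} {B : Gam → Gam → Prop}
    {unf : Gam → ℕ → Prop} (hB : Equivalence B) {l : List (Gam × ℕ × Bool)} {p q : Gam}
    (t : APath m r att B unf l p q) : ∃ l', APath m r att B unf l' q p := by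
  induction t with
  | nil h => exact ⟨[], APath.nil (hB.symm h)⟩
  | @cons h l p q h1 h2 _ ih =>
    obtain ⟨l', h3⟩ := ih
    refine ⟨l' ++ [(h.1, h.2.1, !h.2.2)], h3.append hB ?_⟩
    have h4 : hst m r att (h.1, h.2.1, !h.2.2) = hen m r att h := by
      unfold hst hen
      cases h.2.2 <;> simp
    have h5 : hen m r att (h.1, h.2.1, !h.2.2) = hst m r att h := by
      unfold hst hen
      cases h.2.2 <;> simp
    refine APath.cons ?_ h2 (APath.nil ?_)
    · rw [h4]; exact hB.refl _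
    · rw [h5]; exact hB.symm h1

theorem R_blet {k : ℕ} {κ : K} {γ : Gam} (h : (kk κ)⁻¹ * γ ∈ I 0) :
    R M r I Hr k γ (SemidirectProduct.inl (blet κ) * γ) := by
  rw [inl_blet, mul_assoc, mul_assoc]
  have h1 : R M r I Hr k γ ((kk κ)⁻¹ * γ) :=
    Relation.EqvGen.rel _ _ (Or.inl (Or.inl ⟨κ⁻¹, by rw [kk_inv]⟩))
  have h2 : R M r I Hr k ((kk κ)⁻¹ * γ) (cc 0 * ((kk κ)⁻¹ * γ)) :=
    Relation.EqvGen.rel _ _ (Or.inl (Or.inr ⟨0, h, rfl⟩))
  have h3 : R M r I Hr k (cc 0 * ((kk κ)⁻¹ * γ)) (kk κ * (cc 0 * ((kk κ)⁻¹ * γ))) :=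
    Relation.EqvGen.rel _ _ (Or.inl (Or.inl ⟨κ, rfl⟩))
  exact (R_equiv k).trans h1 ((R_equiv k).trans h2 h3)

variable
  (hI : ∀ m, ∀ κ ∈ L m, ∀ γ, γ ∈ I m → kk κ * γ ∈ I m)
  (hb : ∀ m, m < n → ∀ j, j < M m → ∀ γ, (∀ i, i < r m → U m j i * γ ∈ I (m + 1)) ∨
    3 ≤ (cl m (I (m + 1)) (r m) j γ).length)
  (hc : ∀ m, m < n → ∀ j, j < M m → ∀ γ, (∀ i, i < r m → U m j i * γ ∈ I (m + 1)) →
    γ ∈ I m ∧ (kk (kap m j 0))⁻¹ * γ ∈ I 0 ∧
    ∀ i, i < r m → (kk (kap m j (i + 1)))⁻¹ * (cc (m + 1) * (U m j i * γ)) ∈ I 0)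
  (hM : ∀ m, 0 < M m)
  (hsymm : ∀ γ δ, Hr γ δ → Hr δ γ)
  (hH : ∀ γ δ, Hr γ δ → (∃ κ, δ = kk κ * γ) ∨ ∃ m, m < n ∧ ∃ γ0 j, j ≤ M m ∧
    ((γ = cv M r m γ0 j ∧ δ = cv M r m γ0 (j + 1)) ∨
      (δ = cv M r m γ0 j ∧ γ = cv M r m γ0 (j + 1))))
  (hd : ∀ m, m < n → ∀ γ0, (∀ j, j ≤ M m → Hr (cv M r m γ0 j) (cv M r m γ0 (j + 1))) → γ0 ∈ I m)

include hc in
/-- Infected paths consist of available moves. -/
theorem R_infected {m : ℕ} (hm : m < n) {j : ℕ} (hj : j < M m) {γ : Gam}
    (h : ∀ i, i < r m → U m j i * γ ∈ I (m + 1)) (k : ℕ) :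
    R M r I Hr k (att M r Hr m γ j) (U m j (r m) * γ) := by
  obtain ⟨h1, h2, h3⟩ := hc m hm j hj γ h
  have h4 : R M r I Hr k (att M r Hr m γ j) γ := by
    rcases att_cases (M := M) (r := r) (Hr := Hr) m γ j with h5 | h5
    · rw [h5]; exact (R_equiv k).refl _
    · rw [h5]
      exact (R_equiv k).symm (Relation.EqvGen.rel _ _ (Or.inl (Or.inr ⟨m, h1, rfl⟩)))
  have h5 : ∀ i, i ≤ r m → R M r I Hr k γ (U m j i * γ) := by
    intro i
    induction i with
    | zero =>
      intro _
      unfold U uw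
      exact R_blet h2
    | succ i ih =>
      intro hi
      rw [U_succ, mul_assoc, mul_assoc]
      refine (R_equiv k).trans (ih (by omega)) ((R_equiv k).trans ?_ (R_blet (h3 i (by omega))))
      exact Relation.EqvGen.rel _ _ (Or.inl (Or.inr ⟨m + 1, h i (by omega), rfl⟩))
  exact (R_equiv k).trans h4 (h5 _ (le_refl _))

include hI hb hc in
theorem R_elim {m : ℕ} (hm : m < n) {p q : Gam} (h : R M r I Hr (m + 1) p q)
    (hT : T m (I (m + 1)) p q) : R M r I Hr m p q := by
  have key : ∃ l, APath m (r m) (att M r Hr m) (R M r I Hr m)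
      (fun γ j => j < M m ∧ 3 ≤ (cl m (I (m + 1)) (r m) j γ).length) l p q := by
    clear hT
    induction h with
    | rel x y h =>
      rcases h with h | ⟨m', hm', γ0, j, hj, rfl, rfl⟩
      · exact ⟨[], APath.nil (Relation.EqvGen.rel _ _ (Or.inl h))⟩
      · by_cases h1 : m' = m
        · subst h1
          rcases hb m' hm j hj γ0 with h2 | h2
          · exact ⟨[], APath.nil (R_infected hc hm hj h2 _)⟩
          · refine ⟨[(γ0, j, true)], APath.cons ?_ ⟨hj, h2⟩ (APath.nil ?_)⟩
            · unfold hst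
              exact (R_equiv _).refl _
            · unfold hen
              exact (R_equiv _).refl _
        · exact ⟨[], APath.nil (Relation.EqvGen.rel _ _ (Or.inr ⟨m', by omega, γ0, j, hj, rfl, rfl⟩))⟩
    | refl x => exact ⟨[], APath.nil ((R_equiv _).refl _)⟩
    | symm x y _ ih =>
      obtain ⟨l, hl⟩ := ih
      exact hl.reverse (R_equiv _)
    | trans x y z _ _ ih1 ih2 =>
      obtain ⟨l1, h1⟩ := ih1
      obtain ⟨l2, h2⟩ := ih2
      exact ⟨l1 ++ l2, h1.append (R_equiv _) h2⟩
  obtain ⟨l, hl⟩ := key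
  refine APath.elim (R_equiv _) (I := I (m + 1)) (hI (m + 1)) (fun p q h => R_le_T h) ?_
    (fun γ j h => h.2) _ (le_refl _) hl hT
  intro γ j
  rcases att_cases (M := M) (r := r) (Hr := Hr) m γ j with h | h
  · rw [h]; exact T_refl _
  · rw [h]; exact T_cc (by omega) _

include hI hb hc in
theorem R_elim_all {k : ℕ} (hk : k ≤ n) (h : R M r I Hr k 1 (cc 0)) : R M r I Hr 0 1 (cc 0) := by
  induction k with
  | zero => exact h
  | succ k ih =>
    refine ih (by omega) (R_elim hI hb hc (by omega) h ?_)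
    have := T_cc (m := k) (I := I (k + 1)) (l := 0) (by omega) 1
    rwa [mul_one] at this

theorem R_zero (h : R M r I Hr 0 1 (cc 0)) : (1 : Gam) ∈ I 0 := by
  by_contra hne
  have key : ∀ p q, R M r I Hr 0 p q → cut 0 p = cut 0 q := by
    intro p q h
    induction h with
    | rel x y h =>
      rcases h with (⟨κ, rfl⟩ | ⟨l, hl, rfl⟩) | ⟨m', hm', _⟩
      · exact (cut_kk _ _ _).symm
      · by_cases h1 : l = 0
        · subst h1
          refine (cut_cc_not ?_).symm
          rintro ⟨κ, hκ, rfl⟩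
          rw [L_zero hκ, kk_one] at hl
          exact hne hl
        · exact (cut_cc_ne h1 _).symm
      · omega
    | refl x => rfl
    | symm x y _ ih => exact ih.symm
    | trans x y z _ _ ih1 ih2 => exact ih1.trans ih2
  have h1 := key _ _ h
  have h2 := cut_c_inL (m := 0) (γ := 1) ⟨1, (L 0).one_mem, by simp⟩
  rw [mul_one] at h2
  rw [h2, cut_one] at h1
  exact absurd h1 (by simp)

include hI hb hc hM hsymm hH hd in
/-- The combinatorial theorem. -/
theorem comb_main (h : Relation.EqvGen Hr 1 (cc 0)) : (1 : Gam) ∈ I 0 := by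
  classical
  refine R_zero (M := M) (r := r) (Hr := Hr) (R_elim_all hI hb hc (le_refl n) ?_)
  have hcv : ∀ m, m < n → ∀ γ0 j, j ≤ M m → Hr (cv M r m γ0 j) (cv M r m γ0 (j + 1)) →
      R M r I Hr n (cv M r m γ0 j) (cv M r m γ0 (j + 1)) := by
    intro m hm γ0 j hj hHr
    have hatt : ∀ j, j < M m → R M r I Hr n (att M r Hr m γ0 j) (cv M r m γ0 (j + 1)) := by
      intro j hj
      have : cv M r m γ0 (j + 1) = U m j (r m) * γ0 := by
        simp [cv, hj]
      rw [this]
      exact Relation.EqvGen.rel _ _ (Or.inr ⟨m, hm, γ0, j, hj, rfl, rfl⟩)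
    have hlast : cv M r m γ0 (M m + 1) = cc m * γ0 := by simp [cv]
    rcases Nat.eq_zero_or_pos j with h0 | h0
    · subst h0
      have h1 := hatt 0 (hM m)
      have h2 : att M r Hr m γ0 0 = γ0 := by
        unfold att
        rw [if_pos]
        intro j' hj'
        have : j' = 0 := by omega
        subst this
        exact hHr
      rw [h2] at h1
      exact h1
    · obtain ⟨i, rfl⟩ : ∃ i, j = i + 1 := ⟨j - 1, by omega⟩
      have h1 := hatt i (by omega)
      rcases Nat.lt_or_ge (i + 1) (M m) with h3 | h3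
      · have h2 := hatt (i + 1) h3
        have h4 : att M r Hr m γ0 i = att M r Hr m γ0 (i + 1) := by
          unfold att
          by_cases h5 : ∀ j', j' ≤ i → Hr (cv M r m γ0 j') (cv M r m γ0 (j' + 1))
          · rw [if_pos h5, if_pos]
            intro j' hj'
            rcases Nat.lt_or_ge j' (i + 1) with h6 | h6
            · exact h5 j' (by omega)
            · have : j' = i + 1 := by omega
              subst this
              exact hHr
          · rw [if_neg h5, if_neg]
            intro h6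
            exact h5 (fun j' hj' => h6 j' (by omega))
        rw [← h4] at h2
        exact (R_equiv n).trans ((R_equiv n).symm h1) h2
      · have h4 : i + 1 = M m := by omega
        rw [h4, hlast, ← h4]
        by_cases h5 : ∀ j', j' ≤ i → Hr (cv M r m γ0 j') (cv M r m γ0 (j' + 1))
        · have h6 : att M r Hr m γ0 i = γ0 := by
            unfold att
            rw [if_pos h5]
          rw [h6] at h1
          refine (R_equiv n).trans ((R_equiv n).symm h1) ?_
          refine Relation.EqvGen.rel _ _ (Or.inl (Or.inr ⟨m, hd m hm γ0 ?_, rfl⟩))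
          intro j' hj'
          rcases Nat.lt_or_ge j' (i + 1) with h6 | h6
          · exact h5 j' (by omega)
          · have : j' = i + 1 := by omega
            subst this
            exact hHr
        · have h6 : att M r Hr m γ0 i = cc m * γ0 := by
            unfold att
            rw [if_neg h5]
          rw [h6] at h1
          exact (R_equiv n).symm h1
  have hall : ∀ p q, Hr p q → R M r I Hr n p q := by
    intro p q hpq
    rcases hH p q hpq with ⟨κ, rfl⟩ | ⟨m, hm, γ0, j, hj, ⟨rfl, rfl⟩ | ⟨rfl, rfl⟩⟩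
    · exact Relation.EqvGen.rel _ _ (Or.inl (Or.inl ⟨κ, rfl⟩))
    · exact hcv m hm γ0 j hj hpq
    · exact (R_equiv n).symm (hcv m hm γ0 j hj (hsymm _ _ hpq))
  have hfin : ∀ p q, Relation.EqvGen Hr p q → R M r I Hr n p q := by
    intro p q h
    induction h with
    | rel x y h => exact hall _ _ h
    | refl x => exact (R_equiv n).refl _
    | symm x y _ ih => exact (R_equiv n).symm ih
    | trans x y z _ _ ih1 ih2 => exact (R_equiv n).trans ih1 ih2
  exact hfin _ _ h

end final

end Pool.Agent.H73
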