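import Pool.Agent.H73.Grp

/-! Cut functions of the Bass-Serre tree, and exponent sums. -/

set_option autoImplicit false

namespace Pool.Agent.H73

open Function

section cut

variable (m : ℕ)

/-- `γ ∈ L m` inside `Gam`. -/
def InL (m : ℕ) (γ : Gam) : Prop := ∃ κ ∈ L m, γ = kk κ

theorem InL_mul {m : ℕ} {κ : K} (h : κ ∈ L m) (γ : Gam) : InL m (kk κ * γ) ↔ InL m γ := by
  constructor
  · rintro ⟨κ', h', h2⟩
    refine ⟨κ⁻¹ * κ', (L m).mul_mem ((L m).inv_mem h) h', ?_⟩
    rw [kk_mul, kk_inv, ← h2]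
    group
  · rintro ⟨κ', h', rfl⟩
    exact ⟨κ * κ', (L m).mul_mem h h', (kk_mul _ _).symm⟩

open Classical in
/-- Auxiliary permutation for letters. -/
noncomputable def cutC (m l : ℕ) : Equiv.Perm (Gam × Bool) where
  toFun p := (cc l * p.1, xor p.2 (decide (l = m ∧ InL m p.1)))
  invFun p := ((cc l)⁻¹ * p.1, xor p.2 (decide (l = m ∧ InL m ((cc l)⁻¹ * p.1))))
  left_inv := by
    intro p
    refine Prod.ext ?_ ?_
    · simp
    · simp
  right_inv := by
    intro p
    refine Prod.ext ?_ ?_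
    · simp
    · simp

/-- Auxiliary permutations for `K`. -/
noncomputable def cutK : K →* Equiv.Perm (Gam × Bool) where
  toFun κ :=
    { toFun := fun p => (kk κ * p.1, p.2)
      invFun := fun p => ((kk κ)⁻¹ * p.1, p.2)
      left_inv := by intro p; simp
      right_inv := by intro p; simp }
  map_one' := by
    refine Equiv.ext fun p => Prod.ext ?_ ?_
    · simp
    · simp
  map_mul' := by
    intro a b
    refine Equiv.ext fun p => Prod.ext ?_ ?_
    · simp [kk_mul, mul_assoc]
    · simp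

open Classical in
theorem cut_comm (m l : ℕ) (κ : K) (h : κ ∈ L l) : cutK κ * cutC m l = cutC m l * cutK κ := by
  refine Equiv.ext fun p => Prod.ext ?_ ?_
  · simp only [Equiv.Perm.mul_apply]
    change kk κ * (cc l * p.1) = cc l * (kk κ * p.1)
    rw [← mul_assoc, comm_c h, mul_assoc]
  · simp only [Equiv.Perm.mul_apply]
    change (xor p.2 (decide (l = m ∧ InL m p.1))) = (xor p.2 (decide (l = m ∧ InL m (kk κ * p.1))))
    congr 1
    simp only [decide_eq_decide]
    constructor
    · rintro ⟨rfl, h2⟩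
      exact ⟨rfl, (InL_mul h _).mpr h2⟩
    · rintro ⟨rfl, h2⟩
      exact ⟨rfl, (InL_mul h _).mp h2⟩

open Classical in
theorem exists_cut (m : ℕ) : ∃ σ : Gam → Bool, σ 1 = false ∧ (∀ κ γ, σ (kk κ * γ) = σ γ) ∧
    (∀ l γ, l ≠ m → σ (cc l * γ) = σ γ) ∧ (∀ γ, InL m γ → σ (cc m * γ) ≠ σ γ) ∧
    (∀ γ, ¬ InL m γ → σ (cc m * γ) = σ γ) := by
  obtain ⟨F, hF1, hF2⟩ := gam_lift cutK (cutC m) (fun l κ h => cut_comm m l κ h)
  have hfst : ∀ (γ : Gam) (p : Gam × Bool), (F γ p).1 = γ * p.1 := by
    intro γ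
    induction γ using gam_induction with
    | h1 => intro p; simp
    | hk κ γ ih =>
      intro p
      rw [map_mul, hF1, Equiv.Perm.mul_apply]
      change kk κ * (F γ p).1 = _
      rw [ih, mul_assoc]
    | hc l γ ih =>
      intro p
      rw [map_mul, hF2, Equiv.Perm.mul_apply]
      change cc l * (F γ p).1 = _
      rw [ih, mul_assoc]
    | hci l γ ih =>
      intro p
      rw [map_mul, map_inv, hF2, Equiv.Perm.mul_apply]
      change (cc l)⁻¹ * (F γ p).1 = _
      rw [ih, mul_assoc]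
  have hc : ∀ l γ, (F (cc l * γ) (1, false)).2 =
      xor (F γ (1, false)).2 (decide (l = m ∧ InL m γ)) := by
    intro l γ
    rw [map_mul, hF2, Equiv.Perm.mul_apply]
    change xor (F γ (1, false)).2 (decide (l = m ∧ InL m (F γ (1, false)).1)) = _
    rw [hfst]
    simp
  refine ⟨fun γ => (F γ (1, false)).2, by simp, ?_, ?_, ?_, ?_⟩
  · intro κ γ
    show (F (kk κ * γ) (1, false)).2 = _
    rw [map_mul, hF1, Equiv.Perm.mul_apply]
    rfl
  · intro l γ h
    show (F (cc l * γ) (1, false)).2 = _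
    rw [hc]
    simp [h]
  · intro γ h
    show (F (cc m * γ) (1, false)).2 ≠ _
    rw [hc]
    simp [h]
  · intro γ h
    show (F (cc m * γ) (1, false)).2 = _
    rw [hc]
    simp [h]

/-- The cut function of the edge class `L m`. -/
noncomputable def cut (m : ℕ) : Gam → Bool := Classical.choose (exists_cut m)

theorem cut_one (m : ℕ) : cut m 1 = false := (Classical.choose_spec (exists_cut m)).1

theorem cut_kk (m : ℕ) (κ : K) (γ : Gam) : cut m (kk κ * γ) = cut m γ :=
  (Classical.choose_spec (exists_cut m)).2.1 κ γ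

theorem cut_cc_ne {m l : ℕ} (h : l ≠ m) (γ : Gam) : cut m (cc l * γ) = cut m γ :=
  (Classical.choose_spec (exists_cut m)).2.2.1 l γ h

theorem cut_cc_mem {m : ℕ} {γ : Gam} (h : InL m γ) : cut m (cc m * γ) ≠ cut m γ :=
  (Classical.choose_spec (exists_cut m)).2.2.2.1 γ h

theorem cut_cc_not {m : ℕ} {γ : Gam} (h : ¬ InL m γ) : cut m (cc m * γ) = cut m γ :=
  (Classical.choose_spec (exists_cut m)).2.2.2.2 γ h

theorem cut_inL {m : ℕ} {γ : Gam} (h : InL m γ) : cut m γ = false := by
  obtain ⟨κ, _, rfl⟩ := h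
  have := cut_kk m κ 1
  rw [mul_one, cut_one] at this
  exact this

theorem cut_c_inL {m : ℕ} {γ : Gam} (h : InL m γ) : cut m (cc m * γ) = true := by
  have h1 := cut_cc_mem h
  rw [cut_inL h] at h1
  simpa using h1

end cut

section exponents

open Classical in
/-- The exponent sum of the letter `ω`. -/
noncomputable def ex (ω : Om) : FreeGroup Om →* Multiplicative ℤ :=
  FreeGroup.lift (fun ω' => Multiplicative.ofAdd (if ω' = ω then 1 else 0))

open Classical in
theorem ex_of (ω ω' : Om) : ex ω (FreeGroup.of ω') = Multiplicative.ofAdd (if ω' = ω then 1 else 0) :=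
  FreeGroup.lift_apply_of

theorem ex_phi (ω : Om) (κ : K) (v : FreeGroup Om) : ex ω (phi κ v) = ex (κ⁻¹ • ω) v := by
  classical
  have : (ex ω).comp (MulEquiv.toMonoidHom (phi κ)) = ex (κ⁻¹ • ω) := by
    ext ω'
    simp only [MonoidHom.coe_comp, comp_apply, MulEquiv.coe_toMonoidHom, phi_of, ex_of]
    have h : (κ • ω' = ω) ↔ (ω' = κ⁻¹ • ω) := by
      constructor
      · rintro rfl; simp
      · rintro rfl; simp
    simp [h]
  exact DFunLike.congr_fun this v

end exponents

end Pool.Agent.H73
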