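import Mathlib

/-! The countable group used for the counterexample of problem 3c3805: a free group on the disjoint
union of the coset spaces `K / L m` extended by the locally finite group `K`. -/

set_option autoImplicit false

namespace Pool.Agent.H73

open Function

/-- The direct sum of countably many groups of order two, written multiplicatively. -/
abbrev K : Type := Multiplicative (ℕ →₀ ZMod 2)

/-- Elements of `K` supported below `m`. -/
def L (m : ℕ) : Subgroup K where
  carrier := {κ | ∀ n, m ≤ n → (Multiplicative.toAdd κ) n = 0}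
  one_mem' := by
    intro n _
    rfl
  mul_mem' := by
    intro a b ha hb n hn
    have h1 := ha n hn
    have h2 := hb n hn
    have : (Multiplicative.toAdd (a * b)) n =
      (Multiplicative.toAdd a) n + (Multiplicative.toAdd b) n := rfl
    rw [this, h1, h2, add_zero]
  inv_mem' := by
    intro a ha n hn
    have h1 := ha n hn
    have : (Multiplicative.toAdd (a⁻¹)) n = -(Multiplicative.toAdd a) n := rfl
    rw [this, h1, neg_zero]

theorem mem_L {m : ℕ} {κ : K} : κ ∈ L m ↔ ∀ n, m ≤ n → (Multiplicative.toAdd κ) n = 0 := Iff.rfl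

theorem L_zero {κ : K} (h : κ ∈ L 0) : κ = 1 := by
  have : Multiplicative.toAdd κ = 0 := by
    ext n
    exact h n (Nat.zero_le n)
  exact this

/-- Basis elements of `K`. -/
noncomputable def e (n : ℕ) : K := Multiplicative.ofAdd (Finsupp.single n 1)

theorem e_apply (n k : ℕ) : (Multiplicative.toAdd (e n)) k = if n = k then 1 else 0 := by
  unfold e
  simp [Finsupp.single_apply]

theorem e_mem_L {n m : ℕ} (h : n < m) : e n ∈ L m := by
  intro k hk
  rw [e_apply]
  have : n ≠ k := by omega
  simp [this]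

/-- Distinct basis elements beyond `m` are inequivalent modulo `L m`. -/
theorem e_coset {m a b : ℕ} (ha : m ≤ a) (lam : K) (hl : lam ∈ L m)
    (h : lam * e a = e b) : a = b ∧ lam = 1 := by
  have h1 : ∀ n, (Multiplicative.toAdd lam) n + (Multiplicative.toAdd (e a)) n =
      (Multiplicative.toAdd (e b)) n := by
    intro n
    rw [← h]
    rfl
  have hab : a = b := by
    by_contra hne
    have h2 := h1 a
    rw [hl a ha, e_apply, e_apply] at h2
    have : ¬ (b = a) := fun h => hne h.symm
    simp [this] at h2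
  refine ⟨hab, ?_⟩
  subst hab
  exact mul_eq_right.mp h

/-- The alphabet. -/
def Om : Type := Σ m : ℕ, K ⧸ L m

noncomputable instance : MulAction K Om := inferInstanceAs (MulAction K (Σ m : ℕ, K ⧸ L m))

/-- The letter attached to a coset. -/
noncomputable def omk (m : ℕ) (κ : K) : Om := ⟨m, (QuotientGroup.mk κ : K ⧸ L m)⟩

theorem smul_omk (κ : K) (m : ℕ) (κ' : K) : κ • omk m κ' = omk m (κ * κ') := rfl

theorem omk_eq {m n : ℕ} {κ κ' : K} (h : omk m κ = omk n κ') : m = n ∧ κ⁻¹ * κ' ∈ L m := by
  unfold omk at h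
  have h1 := congrArg Sigma.fst h
  simp only at h1
  subst h1
  refine ⟨rfl, ?_⟩
  have h2 : (QuotientGroup.mk κ : K ⧸ L m) = QuotientGroup.mk κ' := eq_of_heq (Sigma.mk.inj h).2
  exact QuotientGroup.eq.mp h2

theorem omk_eq_iff {m : ℕ} {κ κ' : K} : omk m κ = omk m κ' ↔ κ⁻¹ * κ' ∈ L m := by
  constructor
  · intro h
    exact (omk_eq h).2
  · intro h
    unfold omk
    rw [QuotientGroup.eq.mpr h]

theorem omk_surj (ω : Om) : ∃ m κ, omk m κ = ω := by
  obtain ⟨m, q⟩ := ω
  obtain ⟨κ, rfl⟩ := QuotientGroup.mk_surjective q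
  exact ⟨m, κ, rfl⟩

theorem omk_zero_inj {κ κ' : K} (h : omk 0 κ = omk 0 κ') : κ = κ' := by
  have h1 := L_zero (omk_eq h).2
  exact inv_mul_eq_one.mp h1

/-- The action of `K` on the free group by permuting letters. -/
noncomputable def phi : K →* MulAut (FreeGroup Om) where
  toFun κ := FreeGroup.freeGroupCongr (MulAction.toPerm κ)
  map_one' := by
    have : (MulAction.toPerm (1 : K) : Equiv.Perm Om) = Equiv.refl Om := by
      ext x
      simp
    rw [this]
    exact FreeGroup.freeGroupCongr_refl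
  map_mul' := by
    intro a b
    have : (MulAction.toPerm (a * b) : Equiv.Perm Om) =
        (MulAction.toPerm b : Equiv.Perm Om).trans (MulAction.toPerm a) := by
      ext x
      simp [mul_smul]
    rw [this, ← FreeGroup.freeGroupCongr_trans]
    rfl

@[simp] theorem phi_of (κ : K) (ω : Om) : phi κ (FreeGroup.of ω) = FreeGroup.of (κ • ω) := by
  simp [phi]

/-- The group of the counterexample. -/
abbrev Gam : Type := FreeGroup Om ⋊[phi] K

/-- Elements of `K` inside `Gam`. -/
noncomputable def kk (κ : K) : Gam := SemidirectProduct.inr κ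

/-- The letter `c m`. -/
noncomputable def cc (m : ℕ) : Gam := SemidirectProduct.inl (FreeGroup.of (omk m 1))

theorem kk_mul (a b : K) : kk (a * b) = kk a * kk b := by simp [kk]

@[simp] theorem kk_one : kk 1 = 1 := by simp [kk]

theorem kk_inv (a : K) : kk a⁻¹ = (kk a)⁻¹ := by simp [kk]

theorem kk_inj {a b : K} (h : kk a = kk b) : a = b := SemidirectProduct.inr_injective h

theorem conj_letter (κ : K) (m : ℕ) (κ' : K) :
    kk κ * SemidirectProduct.inl (FreeGroup.of (omk m κ')) * (kk κ)⁻¹ =
      (SemidirectProduct.inl (FreeGroup.of (omk m (κ * κ'))) : Gam) := by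
  unfold kk
  rw [← map_inv, ← SemidirectProduct.inl_aut]
  rw [phi_of, smul_omk]

theorem conj_c (κ : K) (m : ℕ) :
    kk κ * cc m * (kk κ)⁻¹ = (SemidirectProduct.inl (FreeGroup.of (omk m κ)) : Gam) := by
  unfold cc
  rw [conj_letter, mul_one]

theorem comm_c {m : ℕ} {κ : K} (h : κ ∈ L m) : kk κ * cc m = cc m * kk κ := by
  have h1 := conj_c κ m
  have h2 : omk m κ = omk m 1 := by
    rw [omk_eq_iff]
    simpa using (L m).inv_mem h
  rw [h2] at h1
  have h3 : kk κ * cc m * (kk κ)⁻¹ = cc m := h1
  exact mul_inv_eq_iff_eq_mul.mp h3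

/-- Induction principle: generated by `kk` and `cc`. -/
theorem gam_induction {p : Gam → Prop} (h1 : p 1) (hk : ∀ κ γ, p γ → p (kk κ * γ))
    (hc : ∀ m γ, p γ → p (cc m * γ)) (hci : ∀ m γ, p γ → p ((cc m)⁻¹ * γ)) (γ : Gam) : p γ := by
  have key : ∀ (v : FreeGroup Om) (γ : Gam), p γ → p (SemidirectProduct.inl v * γ) := by
    intro v
    induction v using FreeGroup.induction_on with
    | C1 =>
      intro γ h
      simpa using h
    | of ω =>
      intro γ h
      obtain ⟨m, κ, rfl⟩ := omk_surj ω
      rw [← conj_c κ m, ← kk_inv, mul_assoc, mul_assoc]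
      exact hk _ _ (hc _ _ (hk _ _ h))
    | inv_of ω _ =>
      intro γ h
      obtain ⟨m, κ, rfl⟩ := omk_surj ω
      have : (SemidirectProduct.inl (FreeGroup.of (omk m κ))⁻¹ : Gam) =
          kk κ * (cc m)⁻¹ * kk κ⁻¹ := by
        rw [map_inv, ← conj_c κ m, kk_inv]
        group
      rw [this, mul_assoc, mul_assoc]
      exact hk _ _ (hci _ _ (hk _ _ h))
    | mul x y hx hy =>
      intro γ h
      rw [map_mul, mul_assoc]
      exact hx _ (hy _ h)
  have h2 : γ = SemidirectProduct.inl γ.left * (kk γ.right * 1) := by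
    rw [mul_one]
    exact (SemidirectProduct.inl_left_mul_inr_right γ).symm
  rw [h2]
  exact key _ _ (hk _ _ h1)

/-- Universal property. -/
theorem gam_lift {P : Type} [Group P] (fK : K →* P) (fc : ℕ → P)
    (hcomm : ∀ m, ∀ κ ∈ L m, fK κ * fc m = fc m * fK κ) :
    ∃ F : Gam →* P, (∀ κ, F (kk κ) = fK κ) ∧ (∀ m, F (cc m) = fc m) := by
  classical
  let g : Om → P := fun ω => fK (Quotient.out ω.2) * fc ω.1 * (fK (Quotient.out ω.2))⁻¹
  have hg : ∀ m κ, g (omk m κ) = fK κ * fc m * (fK κ)⁻¹ := by
    intro m κ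
    have h1 : (QuotientGroup.mk (Quotient.out (omk m κ).2) : K ⧸ L m) = QuotientGroup.mk κ :=
      Quotient.out_eq _
    have h2 := QuotientGroup.eq.mp h1
    set r := Quotient.out (omk m κ).2 with hr
    change fK r * fc m * (fK r)⁻¹ = _
    have h3 : κ = r * (r⁻¹ * κ) := by group
    have h4 := hcomm m _ h2
    have h5 : fK κ = fK r * fK (r⁻¹ * κ) := by rw [← map_mul, ← h3]
    rw [h5]
    have h6 : fK r * fK (r⁻¹ * κ) * fc m = fK r * fc m * fK (r⁻¹ * κ) := by
      rw [mul_assoc, h4, mul_assoc]
    rw [h6]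
    group
  let f1 : FreeGroup Om →* P := FreeGroup.lift g
  have hcompat : ∀ κ : K, f1.comp (MulEquiv.toMonoidHom (phi κ)) =
      (MulEquiv.toMonoidHom (MulAut.conj (fK κ))).comp f1 := by
    intro κ
    ext ω
    obtain ⟨m, κ', rfl⟩ := omk_surj ω
    simp only [MonoidHom.coe_comp, comp_apply, MulEquiv.coe_toMonoidHom, phi_of, smul_omk]
    simp only [f1, FreeGroup.lift_apply_of, hg, MulAut.conj_apply, map_mul]
    group
  refine ⟨SemidirectProduct.lift f1 fK hcompat, ?_, ?_⟩
  · intro κ
    exact SemidirectProduct.lift_inr _ _ _ _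
  · intro m
    unfold cc
    rw [SemidirectProduct.lift_inl]
    simp only [f1, FreeGroup.lift_apply_of, hg, map_one, one_mul, inv_one, mul_one]

end Pool.Agent.H73
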