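import Pool.Agent.H73.Sets
import Pool.Agent.H73.Comb3

/-! The equivalence relation, the graphing, and a cheap graphing. -/

set_option autoImplicit false

namespace Pool.Agent.H73

open MeasureTheory Function
open scoped ENNReal

/-- The space. -/
abbrev XX : Type := Gam → Bool

/-- The orbit equivalence relation. -/
def EE : Set (XX × XX) := {p | ∃ γ : Gam, act γ p.1 = p.2}

theorem measurableSet_graph (γ : Gam) : MeasurableSet {p : XX × XX | act γ p.1 = p.2} :=
  measurableSet_eq_fun ((measurable_act γ).comp measurable_fst) measurable_snd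

theorem measurableSet_EE : MeasurableSet EE := by
  have : EE = ⋃ γ : Gam, {p : XX × XX | act γ p.1 = p.2} := by
    ext p
    simp [EE]
  rw [this]
  exact MeasurableSet.iUnion measurableSet_graph

theorem EE_refl (x : XX) : (x, x) ∈ EE := ⟨1, act_one x⟩

theorem EE_act (γ : Gam) (x : XX) : (x, act γ x) ∈ EE := ⟨γ, rfl⟩

theorem EE_symm {x y : XX} (h : (x, y) ∈ EE) : (y, x) ∈ EE := by
  obtain ⟨γ, h⟩ := h
  change act γ x = y at h
  subst h
  exact ⟨γ⁻¹, act_inv_act γ x⟩

theorem EE_trans {x y z : XX} (h : (x, y) ∈ EE) (h' : (y, z) ∈ EE) : (x, z) ∈ EE := by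
  obtain ⟨γ, h⟩ := h
  obtain ⟨γ', h'⟩ := h'
  change act γ x = y at h
  change act γ' y = z at h'
  subst h
  subst h'
  exact ⟨γ' * γ, act_mul γ' γ x⟩

theorem EE_countable (x : XX) : {y | (x, y) ∈ EE}.Countable := by
  have : {y | (x, y) ∈ EE} = Set.range (fun γ : Gam => act γ x) := by
    ext y
    rfl
  rw [this]
  exact Set.countable_range _

theorem EE_pmp (φ : MeasurableEquiv XX XX) (h : ∀ x, (x, φ x) ∈ EE) :
    Measure.map φ (mu Gam) = mu Gam := by
  classical
  obtain ⟨enum, henum⟩ := exists_surjective_nat Gam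
  let A : ℕ → Set XX := fun k => {x | act (enum k) x = φ x}
  have hAm : ∀ k, MeasurableSet (A k) := fun k =>
    measurableSet_eq_fun (measurable_act _) φ.measurable
  have hBm : ∀ k, MeasurableSet (disjointed A k) := fun k => MeasurableSet.disjointed hAm k
  have hBU : ⋃ k, disjointed A k = Set.univ := by
    rw [iUnion_disjointed]
    ext x
    simp only [Set.mem_iUnion, Set.mem_univ, iff_true]
    obtain ⟨γ, hγ⟩ := h x
    obtain ⟨k, rfl⟩ := henum γ
    exact ⟨k, hγ⟩
  have hBd := disjoint_disjointed A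
  ext S hS
  rw [Measure.map_apply φ.measurable hS]
  have h1 : mu Gam (φ ⁻¹' S) = ∑' k, mu Gam (φ ⁻¹' S ∩ disjointed A k) := by
    rw [← measure_iUnion]
    · rw [← Set.inter_iUnion, hBU, Set.inter_univ]
    · intro i j hij
      exact (hBd hij).mono Set.inter_subset_right Set.inter_subset_right
    · exact fun k => (φ.measurable hS).inter (hBm k)
  have h2 : mu Gam S = ∑' k, mu Gam (S ∩ φ.symm ⁻¹' disjointed A k) := by
    rw [← measure_iUnion]
    · rw [← Set.inter_iUnion, ← Set.preimage_iUnion, hBU, Set.preimage_univ, Set.inter_univ]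
    · intro i j hij
      exact ((hBd hij).preimage φ.symm).mono Set.inter_subset_right Set.inter_subset_right
    · exact fun k => hS.inter (φ.symm.measurable (hBm k))
  rw [h1, h2]
  refine tsum_congr fun k => ?_
  rw [← mu_preimage (enum k) (hS.inter (φ.symm.measurable (hBm k)))]
  congr 1
  ext x
  constructor
  · rintro ⟨hx1, hx2⟩
    have h3 : act (enum k) x = φ x := disjointed_subset A k hx2
    refine ⟨?_, ?_⟩
    · change act (enum k) x ∈ S
      rw [h3]
      exact hx1
    · change φ.symm (act (enum k) x) ∈ disjointed A k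
      rw [h3, MeasurableEquiv.symm_apply_apply]
      exact hx2
  · rintro ⟨hx1, hx2⟩
    change act (enum k) x ∈ S at hx1
    change φ.symm (act (enum k) x) ∈ disjointed A k at hx2
    have h3 : act (enum k) (φ.symm (act (enum k) x)) = φ (φ.symm (act (enum k) x)) :=
      disjointed_subset A k hx2
    rw [MeasurableEquiv.apply_symm_apply] at h3
    have h4 : φ.symm (act (enum k) x) = x := by
      have := congrArg (act (enum k)⁻¹) h3
      rwa [act_inv_act, act_inv_act] at this
    rw [h4] at h3 hx2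
    refine ⟨?_, hx2⟩
    change φ x ∈ S
    rw [MeasurableEquiv.symm_apply_eq] at h4
    rw [← h4]
    exact hx1

section gens

/-- The label of the `j`-th chain edge of level `m`. -/
noncomputable def sl (m j : ℕ) : Gam := cv Mp rp m 1 (j + 1) * (cv Mp rp m 1 j)⁻¹

/-- Generators of levels below `n`. -/
def GSn (n : ℕ) : Set Gam :=
  {g | (∃ κ, g = kk κ) ∨ ∃ m < n, ∃ j ≤ Mp m, (g = sl m j ∨ g⁻¹ = sl m j)}

theorem GSn_mono {n n' : ℕ} (h : n ≤ n') : GSn n ⊆ GSn n' := by
  rintro g (hg | ⟨m, hm, hg⟩)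
  · exact Or.inl hg
  · exact Or.inr ⟨m, by omega, hg⟩

theorem GSn_inv {n : ℕ} {g : Gam} (h : g ∈ GSn n) : g⁻¹ ∈ GSn n := by
  rcases h with ⟨κ, rfl⟩ | ⟨m, hm, j, hj, hg⟩
  · exact Or.inl ⟨κ⁻¹, (kk_inv κ).symm⟩
  · refine Or.inr ⟨m, hm, j, hj, ?_⟩
    rcases hg with hg | hg
    · right
      rw [inv_inv]
      exact hg
    · left
      exact hg

/-- The graphing. -/
def GG : Set (XX × XX) := {p | ∃ n, ∃ g ∈ GSn n, act g p.1 = p.2}

theorem measurableSet_GG : MeasurableSet GG := by
  have : GG = ⋃ γ : {γ : Gam // ∃ n, γ ∈ GSn n}, {p : XX × XX | act (γ : Gam) p.1 = p.2} := by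
    ext p
    simp only [GG, Set.mem_iUnion, Subtype.exists]
    constructor
    · rintro ⟨n, g, hg, h⟩
      exact ⟨g, ⟨n, hg⟩, h⟩
    · rintro ⟨g, ⟨n, hg⟩, h⟩
      exact ⟨n, g, hg, h⟩
  rw [this]
  exact MeasurableSet.iUnion fun γ => measurableSet_graph _

theorem GG_symm {x y : XX} (h : (x, y) ∈ GG) : (y, x) ∈ GG := by
  obtain ⟨n, g, hg, h⟩ := h
  change act g x = y at h
  subst h
  exact ⟨n, g⁻¹, GSn_inv hg, act_inv_act g x⟩

theorem GG_EE {x y : XX} (h : (x, y) ∈ GG) : (x, y) ∈ EE := by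
  obtain ⟨n, g, hg, h⟩ := h
  exact ⟨g, h⟩

theorem rtg_symm {Rr : XX → XX → Prop} (hs : ∀ x y, Rr x y → Rr y x) {x y : XX}
    (h : Relation.ReflTransGen Rr x y) : Relation.ReflTransGen Rr y x := by
  induction h with
  | refl => exact Relation.ReflTransGen.refl
  | tail _ hbc ih => exact Relation.ReflTransGen.head (hs _ _ hbc) ih

/-- Generation criterion. -/
theorem gen_of (Rr : XX → XX → Prop) (hs : ∀ x y, Rr x y → Rr y x)
    (hk : ∀ κ x, Relation.ReflTransGen Rr x (act (kk κ) x))
    (hc : ∀ m x, Relation.ReflTransGen Rr x (act (cc m) x)) (γ : Gam) :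
    ∀ x, Relation.ReflTransGen Rr x (act γ x) := by
  induction γ using gam_induction with
  | h1 => intro x; rw [act_one]
  | hk κ γ ih =>
    intro x
    rw [act_mul]
    exact (ih x).trans (hk κ _)
  | hc m γ ih =>
    intro x
    rw [act_mul]
    exact (ih x).trans (hc m _)
  | hci m γ ih =>
    intro x
    rw [act_mul]
    refine (ih x).trans ?_
    have h1 := hc m (act (cc m)⁻¹ (act γ x))
    rw [act_act_inv] at h1
    exact rtg_symm hs h1

theorem rtg_EE {Rr : XX → XX → Prop} (hR : ∀ x y, Rr x y → (x, y) ∈ EE) {x y : XX}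
    (h : Relation.ReflTransGen Rr x y) : (x, y) ∈ EE := by
  induction h with
  | refl => exact EE_refl x
  | tail _ hbc ih => exact EE_trans ih (hR _ _ hbc)

theorem GG_cv (m j : ℕ) (hj : j ≤ Mp m + 1) (x : XX) :
    Relation.ReflTransGen (fun a b => (a, b) ∈ GG) x (act (cv Mp rp m 1 j) x) := by
  induction j with
  | zero =>
    change Relation.ReflTransGen _ x (act 1 x)
    rw [act_one]
  | succ j ih =>
    refine (ih (by omega)).tail ?_
    refine ⟨m + 1, sl m j, Or.inr ⟨m, by omega, j, by omega, Or.inl rfl⟩, ?_⟩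
    change act (sl m j) (act (cv Mp rp m 1 j) x) = _
    rw [← act_mul]
    unfold sl
    rw [inv_mul_cancel_right]

theorem cv_last (m : ℕ) : cv Mp rp m 1 (Mp m + 1) = cc m := by
  simp [cv]

theorem cv_mul (m j : ℕ) (γ : Gam) : cv Mp rp m γ j = cv Mp rp m 1 j * γ := by
  cases j with
  | zero => simp [cv]
  | succ j =>
    unfold cv
    split <;> simp

theorem GG_gen (x y : XX) :
    Relation.ReflTransGen (fun a b => (a, b) ∈ GG) x y ↔ (x, y) ∈ EE := by
  constructor
  · exact rtg_EE fun _ _ h => GG_EE h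
  · rintro ⟨γ, h⟩
    change act γ x = y at h
    subst h
    refine gen_of _ (fun _ _ h => GG_symm h) ?_ ?_ γ x
    · intro κ x
      exact Relation.ReflTransGen.single ⟨0, kk κ, Or.inl ⟨κ, rfl⟩, rfl⟩
    · intro m x
      have := GG_cv m (Mp m + 1) le_rfl x
      rwa [cv_last] at this

end gens

section free

/-- Free points. -/
def Fr : Set XX := {x | ∀ γ : Gam, γ ≠ 1 → act γ x ≠ x}

theorem measurableSet_Fr : MeasurableSet Fr := by
  have : Fr = ⋂ γ : {γ : Gam // γ ≠ 1}, {x : XX | act (γ : Gam) x = x}ᶜ := by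
    ext x
    simp [Fr]
  rw [this]
  exact MeasurableSet.iInter fun γ => (measurableSet_eq_fun (measurable_act _) measurable_id).compl

theorem measure_Fr_compl : mu Gam Frᶜ = 0 := by
  have : Frᶜ = ⋃ γ : {γ : Gam // γ ≠ 1}, {x : XX | act (γ : Gam) x = x} := by
    ext x
    simp [Fr]
  rw [this, measure_iUnion_null_iff]
  intro γ
  exact free_ae γ.2

theorem Fr_inj {x : XX} (hx : x ∈ Fr) {γ δ : Gam} (h : act γ x = act δ x) : γ = δ := by
  by_contra hne
  refine hx (δ⁻¹ * γ) ?_ ?_
  · intro h2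
    exact hne (inv_mul_eq_one.mp h2).symm
  · rw [act_mul, h, act_inv_act]

theorem ae_Fr : ∀ᵐ x ∂(mu Gam), x ∈ Fr := by
  rw [ae_iff]
  exact measure_Fr_compl

end free

section cheap

variable (f : XX → ℝ)

/-- A transversal for the finite group `L m`. -/
def Zm (m : ℕ) : Set XX := {x | ∀ κ : L m, f x ≤ f (act (kk κ) x)}

variable {f}

theorem measurableSet_Zm (hf : Measurable f) (m : ℕ) : MeasurableSet (Zm f m) := by
  have : Zm f m = ⋂ κ : L m, {x : XX | f x ≤ f (act (kk κ) x)} := by
    ext x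
    simp [Zm]
  rw [this]
  exact MeasurableSet.iInter fun κ => measurableSet_le hf (hf.comp (measurable_act _))

theorem exists_Zm (m : ℕ) (x : XX) : ∃ κ ∈ L m, act (kk κ) x ∈ Zm f m := by
  obtain ⟨κ0, h0⟩ := Finite.exists_min (fun κ : L m => f (act (kk κ) x))
  refine ⟨κ0, κ0.2, fun κ => ?_⟩
  rw [← act_mul, ← kk_mul]
  exact h0 (κ * κ0)

theorem measure_Zm (hf : Measurable f) (hi : Injective f) (m : ℕ) :
    mu Gam (Zm f m) ≤ 2⁻¹ ^ m := by
  classical
  have : Fintype (L m) := Fintype.ofFinite _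
  have h1 := sum_measure_le (mu Gam) (Finset.univ : Finset (L m))
    (fun κ => (act (kk (κ : K)) ⁻¹' Zm f m) ∩ Fr)
    (fun κ _ => (measurable_act _ (measurableSet_Zm hf m)).inter measurableSet_Fr)
    Set.univ MeasurableSet.univ 1 ?_ (fun κ _ => Set.subset_univ _)
  · have h2 : ∀ κ ∈ (Finset.univ : Finset (L m)),
        mu Gam ((act (kk (κ : K)) ⁻¹' Zm f m) ∩ Fr) = mu Gam (Zm f m) := by
      intro κ _
      rw [Set.inter_comm, Measure.measure_inter_eq_of_ae ae_Fr,
        mu_preimage _ (measurableSet_Zm hf m)]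
    rw [Finset.sum_congr rfl h2, Finset.sum_const, measure_univ, Finset.card_univ,
      ← Nat.card_eq_fintype_card, card_L, nsmul_eq_mul] at h1
    push_cast at h1
    rw [mul_one] at h1
    rw [← ENNReal.inv_pow]
    rw [ENNReal.le_inv_iff_mul_le, mul_comm]
    exact h1
  · intro x
    rw [Finset.card_le_one]
    intro κ hκ κ' hκ'
    simp only [Finset.mem_filter, Finset.mem_univ, true_and] at hκ hκ'
    obtain ⟨h2, h3⟩ := hκ
    obtain ⟨h4, _⟩ := hκ'
    have e1 : act (kk ((κ' : K) * (κ : K)⁻¹)) (act (kk (κ : K)) x) = act (kk (κ' : K)) x := by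
      rw [← act_mul, ← kk_mul, inv_mul_cancel_right]
    have e2 : act (kk ((κ : K) * (κ' : K)⁻¹)) (act (kk (κ' : K)) x) = act (kk (κ : K)) x := by
      rw [← act_mul, ← kk_mul, inv_mul_cancel_right]
    have h5 := h2 (κ' * κ⁻¹)
    have h6 := h4 (κ * κ'⁻¹)
    push_cast at h5 h6
    rw [e1] at h5
    rw [e2] at h6
    have h7 := hi (le_antisymm h5 h6)
    exact Subtype.ext (kk_inj (Fr_inj h3 h7))

/-- Generators of the cheap graphing. -/
noncomputable def wg (m : ℕ) (b : Bool) : Gam := if b then cc m else kk (e m)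

variable (f)

/-- Domains of the one-sided generators. -/
def Sd (i : ℕ × Bool × Bool) : Set XX :=
  if i.2.1 then act (wg i.1 i.2.2)⁻¹ ⁻¹' Zm f i.1 else Zm f i.1

/-- One-sided generators. -/
noncomputable def gd (i : ℕ × Bool × Bool) : Gam :=
  if i.2.1 then (wg i.1 i.2.2)⁻¹ else wg i.1 i.2.2

/-- The cheap graphing. -/
def DD : Set (XX × XX) := {p | ∃ i, p.1 ∈ Sd f i ∧ act (gd i) p.1 = p.2}

variable {f}

theorem measurableSet_Sd (hf : Measurable f) (i : ℕ × Bool × Bool) :
    MeasurableSet (Sd f i) := by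
  unfold Sd
  split
  · exact measurable_act _ (measurableSet_Zm hf _)
  · exact measurableSet_Zm hf _

theorem measure_Sd (hf : Measurable f) (hi : Injective f) (i : ℕ × Bool × Bool) :
    mu Gam (Sd f i) ≤ 2⁻¹ ^ i.1 := by
  unfold Sd
  split
  · rw [mu_preimage _ (measurableSet_Zm hf _)]
    exact measure_Zm hf hi _
  · exact measure_Zm hf hi _

theorem measurableSet_DD (hf : Measurable f) : MeasurableSet (DD f) := by
  have : DD f = ⋃ i, (Prod.fst ⁻¹' Sd f i) ∩ {p : XX × XX | act (gd i) p.1 = p.2} := by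
    ext p
    simp [DD]
  rw [this]
  exact MeasurableSet.iUnion fun i =>
    (measurable_fst (measurableSet_Sd hf i)).inter (measurableSet_graph _)

theorem DD_symm {x y : XX} (h : (x, y) ∈ DD f) : (y, x) ∈ DD f := by
  obtain ⟨⟨m, b, b'⟩, h1, h2⟩ := h
  change x ∈ Sd f (m, b, b') at h1
  change act (gd (m, b, b')) x = y at h2
  refine ⟨(m, !b, b'), ?_, ?_⟩
  · change y ∈ Sd f (m, !b, b')
    cases b
    · simp only [Sd, gd, Bool.false_eq_true, if_false, Bool.not_false, if_true] at h1 h2 ⊢
      rw [← h2]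
      change act (wg m b')⁻¹ (act (wg m b') x) ∈ Zm f m
      rw [act_inv_act]
      exact h1
    · simp only [Sd, gd, Bool.false_eq_true, if_false, Bool.not_true, if_true] at h1 h2 ⊢
      rw [← h2]
      exact h1
  · change act (gd (m, !b, b')) y = x
    cases b
    · simp only [gd, Bool.false_eq_true, if_false, Bool.not_false, if_true] at h2 ⊢
      rw [← h2, act_inv_act]
    · simp only [gd, Bool.false_eq_true, if_false, Bool.not_true, if_true] at h2 ⊢
      rw [← h2, act_act_inv]

theorem DD_EE {x y : XX} (h : (x, y) ∈ DD f) : (x, y) ∈ EE := by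
  obtain ⟨i, _, h⟩ := h
  exact ⟨gd i, h⟩

theorem DD_K (m : ℕ) : ∀ κ ∈ L m, ∀ x,
    Relation.ReflTransGen (fun a b => (a, b) ∈ DD f) x (act (kk κ) x) := by
  induction m with
  | zero =>
    intro κ hκ x
    rw [L_zero hκ, kk_one, act_one]
  | succ m ih =>
    have hs : ∀ x y, (x, y) ∈ DD f → (y, x) ∈ DD f := fun x y h => DD_symm h
    have h1 : ∀ x, Relation.ReflTransGen (fun a b => (a, b) ∈ DD f) x (act (kk (e m)) x) := by
      intro x
      obtain ⟨κ0, h0, hz⟩ := exists_Zm (f := f) m x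
      refine (ih κ0 h0 x).trans ?_
      refine Relation.ReflTransGen.trans (b := act (kk (e m)) (act (kk κ0) x)) ?_ ?_
      · refine Relation.ReflTransGen.single ⟨(m, false, false), ?_, ?_⟩
        · simpa [Sd] using hz
        · simp [gd, wg]
      · have e1 : act (kk (e m)) (act (kk κ0) x) = act (kk κ0) (act (kk (e m)) x) := by
          rw [← act_mul, ← act_mul, ← kk_mul, ← kk_mul, mul_comm]
        rw [e1]
        exact rtg_symm hs (ih κ0 h0 _)
    intro κ hκ x
    -- split off the coordinate `m`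
    by_cases h2 : (Multiplicative.toAdd κ) m = 0
    · refine ih κ ?_ x
      intro n hn
      rcases Nat.lt_or_ge m n with h3 | h3
      · exact hκ n (by omega)
      · have : n = m := by omega
        rw [this]
        exact h2
    · have h3 : (Multiplicative.toAdd κ) m = 1 := by
        have : ∀ z : ZMod 2, z ≠ 0 → z = 1 := by decide
        exact this _ h2
      have h4 : κ * (e m)⁻¹ ∈ L m := by
        intro n hn
        have e1 : (Multiplicative.toAdd (κ * (e m)⁻¹)) n =
          (Multiplicative.toAdd κ) n - (Multiplicative.toAdd (e m)) n := by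
            change (Multiplicative.toAdd κ) n + (-(Multiplicative.toAdd (e m))) n = _
            rw [Finsupp.neg_apply, sub_eq_add_neg]
        rw [e1, e_apply]
        rcases Nat.lt_or_ge m n with h5 | h5
        · rw [hκ n (by omega)]
          have : m ≠ n := by omega
          simp [this]
        · have : n = m := by omega
          rw [this, h3]
          simp
      have e2 : act (kk κ) x = act (kk (κ * (e m)⁻¹)) (act (kk (e m)) x) := by
        rw [← act_mul, ← kk_mul, inv_mul_cancel_right]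
      rw [e2]
      exact (h1 x).trans (ih _ h4 _)

theorem K_mem_L (κ : K) : ∃ m, κ ∈ L m := by
  refine ⟨(Multiplicative.toAdd κ).support.sup id + 1, ?_⟩
  intro n hn
  by_contra h
  have h1 : n ∈ (Multiplicative.toAdd κ).support := Finsupp.mem_support_iff.mpr h
  have h2 : n ≤ (Multiplicative.toAdd κ).support.sup id := Finset.le_sup (f := id) h1
  omega

theorem DD_gen (x y : XX) :
    Relation.ReflTransGen (fun a b => (a, b) ∈ DD f) x y ↔ (x, y) ∈ EE := by
  have hs : ∀ x y, (x, y) ∈ DD f → (y, x) ∈ DD f := fun x y h => DD_symm h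
  constructor
  · exact rtg_EE fun _ _ h => DD_EE h
  · rintro ⟨γ, h⟩
    change act γ x = y at h
    subst h
    refine gen_of _ hs ?_ ?_ γ x
    · intro κ x
      obtain ⟨m, hm⟩ := K_mem_L κ
      exact DD_K m κ hm x
    · intro m x
      obtain ⟨κ0, h0, hz⟩ := exists_Zm (f := f) m x
      refine (DD_K m κ0 h0 x).trans ?_
      refine Relation.ReflTransGen.trans (b := act (cc m) (act (kk κ0) x)) ?_ ?_
      · refine Relation.ReflTransGen.single ⟨(m, false, true), ?_, ?_⟩
        · simpa [Sd] using hz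
        · simp [gd, wg]
      · have e1 : act (cc m) (act (kk κ0) x) = act (kk κ0) (act (cc m) x) := by
          rw [← act_mul, ← act_mul, comm_c h0]
        rw [e1]
        exact rtg_symm hs (DD_K m κ0 h0 _)

theorem DD_cost (hf : Measurable f) (hi : Injective f) :
    ∫⁻ x, ENat.toENNReal (Set.encard {y | (x, y) ∈ DD f}) ∂(mu Gam) ≤ 8 := by
  classical
  have h1 : ∀ x, ENat.toENNReal (Set.encard {y | (x, y) ∈ DD f}) ≤
      ∑' i, (Sd f i).indicator (fun _ => (1 : ℝ≥0∞)) x := by
    intro x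
    have h2 : {y | (x, y) ∈ DD f} ⊆ (fun i => act (gd i) x) '' {i | x ∈ Sd f i} := by
      rintro y ⟨i, h3, h4⟩
      exact ⟨i, h3, h4⟩
    have h3 : Set.encard {y | (x, y) ∈ DD f} ≤ Set.encard {i | x ∈ Sd f i} :=
      (Set.encard_le_encard h2).trans (Set.encard_image_le _ _)
    refine (ENat.toENNReal_le.mpr h3).trans (le_of_eq ?_)
    rw [← ENNReal.tsum_set_one]
    refine (tsum_subtype {i | x ∈ Sd f i} (fun _ => (1 : ℝ≥0∞))).trans ?_
    refine tsum_congr fun i => ?_
    by_cases h4 : x ∈ Sd f i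
    · rw [Set.indicator_of_mem h4, Set.indicator_of_mem]
      exact h4
    · rw [Set.indicator_of_notMem h4, Set.indicator_of_notMem]
      exact h4
  refine (lintegral_mono h1).trans ?_
  rw [lintegral_tsum fun i => (measurable_const.indicator (measurableSet_Sd hf i)).aemeasurable]
  have h2 : ∀ i, ∫⁻ x, (Sd f i).indicator (fun _ => (1 : ℝ≥0∞)) x ∂(mu Gam) ≤ 2⁻¹ ^ i.1 := by
    intro i
    rw [lintegral_indicator_const (measurableSet_Sd hf i), one_mul]
    exact measure_Sd hf hi i
  refine (ENNReal.tsum_le_tsum h2).trans ?_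
  rw [ENNReal.tsum_prod (f := fun a (_ : Bool × Bool) => (2⁻¹ : ℝ≥0∞) ^ a)]
  simp only [tsum_fintype, Finset.sum_const, Finset.card_univ, Fintype.card_prod,
    Fintype.card_bool, nsmul_eq_mul]
  rw [ENNReal.tsum_mul_left, ENNReal.tsum_geometric, ENNReal.one_sub_inv_two, inv_inv]
  norm_num

end cheap

end Pool.Agent.H73
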