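import Pool.Agent.H73.Main1

/-! No cheap subgraphing. -/

set_option autoImplicit false

namespace Pool.Agent.H73

open MeasureTheory Function
open scoped ENNReal

instance polish_XX : PolishSpace XX := by
  have h1 : SecondCountableTopology XX := inferInstance
  have h2 : TopologicalSpace.IsCompletelyMetrizableSpace XX := inferInstance
  have h3 : TopologicalSpace.SeparableSpace XX :=
    TopologicalSpace.SecondCountableTopology.to_separableSpace
  exact instPolishSpaceOfSeparableSpaceOfIsCompletelyMetrizableSpace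

theorem ex_left_sl {m j j' : ℕ} (hj : j < Mp m) (hj' : j' < Mp m) (h : sl m j = sl m j') :
    j = j' := by
  classical
  -- the left component of `cv m 1 j`
  have hcv0 : ∀ i, i ≤ Mp m → (cv Mp rp m 1 i).right = 1 := by
    intro i hi
    cases i with
    | zero => rfl
    | succ i =>
      have : i < Mp m := by omega
      simp [cv, this, U]
  have hleft : ∀ i, i < Mp m → (sl m i).left =
      uw m i (rp m) * ((cv Mp rp m 1 i).left)⁻¹ := by
    intro i hi
    unfold sl
    have h1 : cv Mp rp m 1 (i + 1) = U m i (rp m) := by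
      simp [cv, hi]
    have h2 : cv Mp rp m 1 i = SemidirectProduct.inl (cv Mp rp m 1 i).left := by
      refine SemidirectProduct.ext ?_ ?_
      · simp
      · rw [hcv0 i (by omega)]
        simp
    rw [h1, h2]
    unfold U
    rw [← map_inv, ← map_mul]
    simp
  have hex : ∀ i κ', (∀ l, kap m i l ≠ κ') → ex (omk 0 κ') (uw m i (rp m)) = 1 := by
    intro i κ' hne
    rw [ex_uw, if_neg]
    · rfl
    · rintro ⟨l, _, h⟩
      exact hne l h
  have hexcv : ∀ i κ', (∀ l, i = 0 ∨ kap m (i - 1) l ≠ κ') → i ≤ Mp m →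
      ex (omk 0 κ') (cv Mp rp m 1 i).left = 1 := by
    intro i κ' hne hi
    cases i with
    | zero => simp [cv]
    | succ i =>
      have h1 : cv Mp rp m 1 (i + 1) = U m i (rp m) := by
        have : i < Mp m := by omega
        simp [cv, this]
      rw [h1]
      unfold U
      rw [SemidirectProduct.left_inl]
      refine hex i κ' fun l => ?_
      rcases hne l with h | h
      · omega
      · exact h
  have key : ∀ i i', i < Mp m → i' < Mp m → i < i' → sl m i ≠ sl m i' := by
    intro i i' hi hi' hlt heq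
    have h1 := congrArg SemidirectProduct.left heq
    rw [hleft i hi, hleft i' hi'] at h1
    -- exponent of the letter `kap m i' 0`
    have h2 := congrArg (ex (omk 0 (kap m i' 0))) h1
    rw [map_mul, map_mul, map_inv, map_inv] at h2
    rw [hex i _ (fun l h => by have := (kap_inj h).1; omega),
      hexcv i _ (fun l => by
        by_cases h0 : i = 0
        · exact Or.inl h0
        · exact Or.inr fun h => by have := (kap_inj h).1; omega) (by omega),
      hexcv i' _ (fun l => Or.inr fun h => by have := (kap_inj h).1; omega) (by omega),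
      ex_uw, if_pos ⟨0, Nat.zero_le _, rfl⟩] at h2
    simp only [inv_one, mul_one] at h2
    have h3 := congrArg Multiplicative.toAdd h2
    simp at h3
  rcases Nat.lt_trichotomy j j' with h1 | h1 | h1
  · exact absurd h (key j j' hj hj' h1)
  · exact h1
  · exact absurd h.symm (key j' j hj' hj h1)

section contra

variable (H : Set (XX × XX))

/-- Points whose whole chain of level `m` is in `H`. -/
def Ph (m : ℕ) : Set XX :=
  {x | ∀ j ≤ Mp m, (act (cv Mp rp m 1 j) x, act (cv Mp rp m 1 (j + 1)) x) ∈ H}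

variable {H}

theorem measurable_pair (γ δ : Gam) : Measurable (fun x : XX => (act γ x, act δ x)) :=
  (measurable_act γ).prodMk (measurable_act δ)

theorem measurableSet_Ph (hH : MeasurableSet H) (m : ℕ) : MeasurableSet (Ph H m) := by
  have : Ph H m = ⋂ j ∈ Finset.range (Mp m + 1),
      (fun x : XX => (act (cv Mp rp m 1 j) x, act (cv Mp rp m 1 (j + 1)) x)) ⁻¹' H := by
    ext x
    simp only [Ph, Set.mem_iInter, Finset.mem_range, Set.mem_preimage]
    constructor
    · intro h j hj
      exact h j (by omega)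
    · intro h j hj
      exact h j (by omega)
  rw [this]
  exact Finset.measurableSet_biInter _ fun j _ => measurable_pair _ _ hH

theorem Ph_bound (hH : MeasurableSet H)
    (hdeg : ∫⁻ x, ENat.toENNReal (Set.encard {y | (x, y) ∈ H}) ∂(mu Gam) ≤ 10) (m : ℕ) :
    (Mp m : ℝ) * (mu Gam).real (Ph H m) ≤ 10 := by
  classical
  let Ej : ℕ → Set XX := fun j => (fun x : XX => (x, act (sl m j) x)) ⁻¹' H
  have hEm : ∀ j, MeasurableSet (Ej j) := fun j =>
    (measurable_id.prodMk (measurable_act (sl m j))) hH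
  have h1 : ∀ j < Mp m, mu Gam (Ph H m) ≤ mu Gam (Ej j) := by
    intro j hj
    rw [← mu_preimage (cv Mp rp m 1 j) (hEm j)]
    refine measure_mono ?_
    intro x hx
    change (act (cv Mp rp m 1 j) x, act (sl m j) (act (cv Mp rp m 1 j) x)) ∈ H
    rw [← act_mul]
    unfold sl
    rw [inv_mul_cancel_right]
    exact hx j hj.le
  have h2 : ∑ j ∈ Finset.range (Mp m), mu Gam (Ej j) ≤ 10 := by
    refine le_trans ?_ hdeg
    have h3 : ∑ j ∈ Finset.range (Mp m), mu Gam (Ej j) =
        ∫⁻ x, ∑ j ∈ Finset.range (Mp m), (Ej j).indicator (fun _ => (1 : ℝ≥0∞)) x ∂(mu Gam) := by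
      rw [lintegral_finsetSum' _
        (fun j _ => (measurable_const.indicator (hEm j)).aemeasurable)]
      refine Finset.sum_congr rfl fun j _ => ?_
      rw [lintegral_indicator_const (hEm j), one_mul]
    rw [h3]
    refine lintegral_mono_ae ?_
    filter_upwards [ae_Fr] with x hx
    have h4 : ∑ j ∈ Finset.range (Mp m), (Ej j).indicator (fun _ => (1 : ℝ≥0∞)) x =
        (((Finset.range (Mp m)).filter (fun j => x ∈ Ej j)).card : ℝ≥0∞) := by
      rw [Finset.card_filter, Nat.cast_sum]
      refine Finset.sum_congr rfl fun j _ => ?_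
      by_cases h : x ∈ Ej j <;> simp [h]
    rw [h4]
    have h5 : Set.InjOn (fun j => act (sl m j) x)
        (((Finset.range (Mp m)).filter (fun j => x ∈ Ej j) : Finset ℕ) : Set ℕ) := by
      intro j hj j' hj' h
      simp only [Finset.coe_filter, Finset.mem_range, Set.mem_ofPred_eq] at hj hj'
      exact ex_left_sl hj.1 hj'.1 (Fr_inj hx h)
    have h6 : (fun j => act (sl m j) x) ''
        (((Finset.range (Mp m)).filter (fun j => x ∈ Ej j) : Finset ℕ) : Set ℕ) ⊆
        {y | (x, y) ∈ H} := by
      rintro y ⟨j, hj, rfl⟩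
      simp only [Finset.coe_filter, Finset.mem_range, Set.mem_ofPred_eq] at hj
      exact hj.2
    have h7 := Set.encard_le_encard h6
    rw [h5.encard_image, Set.encard_coe_eq_coe_finsetCard] at h7
    have h8 := ENat.toENNReal_le.mpr h7
    simpa using h8
  have h9 : (Mp m : ℝ≥0∞) * mu Gam (Ph H m) ≤ 10 := by
    refine le_trans ?_ h2
    have := Finset.sum_le_sum (fun j (hj : j ∈ Finset.range (Mp m)) =>
      h1 j (Finset.mem_range.mp hj))
    rw [Finset.sum_const, Finset.card_range, nsmul_eq_mul] at this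
    exact this
  have h10 := ENNReal.toReal_mono (by norm_num) h9
  rw [ENNReal.toReal_mul] at h10
  simpa [Measure.real] using h10

/-- The graph on the group read along the orbit of `x`. -/
def Hr (H : Set (XX × XX)) (n : ℕ) (x : XX) (γ δ : Gam) : Prop :=
  (act γ x, act δ x) ∈ H ∧ δ * γ⁻¹ ∈ GSn n

theorem Hr_mono {n n' : ℕ} (h : n ≤ n') {x : XX} {γ δ : Gam} (h1 : Hr H n x γ δ) :
    Hr H n' x γ δ := ⟨h1.1, GSn_mono h h1.2⟩

theorem gen_mono {n n' : ℕ} (h : n ≤ n') {x : XX} {γ δ : Gam}
    (h1 : Relation.EqvGen (Hr H n x) γ δ) : Relation.EqvGen (Hr H n' x) γ δ := by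
  induction h1 with
  | rel γ δ h2 => exact Relation.EqvGen.rel _ _ (Hr_mono h h2)
  | refl γ => exact Relation.EqvGen.refl _
  | symm γ δ _ ih => exact Relation.EqvGen.symm _ _ ih
  | trans γ δ ε _ _ ih1 ih2 => exact Relation.EqvGen.trans _ _ _ ih1 ih2

theorem cl_length (m r j : ℕ) (I : Set XX) (x : XX) (γ : Gam) :
    (cl m {γ | act γ x ∈ I} r j γ).length = cnt r (U m) I j (act γ x) := by
  classical
  unfold cl cnt
  rw [List.length_map]
  have h1 : ∀ i, (act (U m j i) (act γ x) ∉ I) ↔ (U m j i * γ ∉ {γ | act γ x ∈ I}) := by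
    intro i
    rw [← act_mul]
    rfl
  have h2 : ((Finset.range r).filter (fun i => act (U m j i) (act γ x) ∉ I)) =
      ((List.range r).filter (fun i => decide (U m j i * γ ∉ {γ | act γ x ∈ I}))).toFinset := by
    ext i
    simp only [Finset.mem_filter, Finset.mem_range, List.mem_toFinset, List.mem_filter,
      List.mem_range, decide_eq_true_eq]
    rw [h1]
  rw [h2, List.toFinset_card_of_nodup]
  exact List.nodup_range.filter _

theorem small_comp (hH : MeasurableSet H) (hs : ∀ x y, (x, y) ∈ H → (y, x) ∈ H)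
    (hdeg : ∫⁻ x, ENat.toENNReal (Set.encard {y | (x, y) ∈ H}) ∂(mu Gam) ≤ 10) (n : ℕ) :
    (mu Gam) {x | x ∈ Fr ∧ Relation.EqvGen (Hr H n x) 1 (cc 0)} ≤ ENNReal.ofReal (1 / 2) := by
  classical
  obtain ⟨I, hIm, hI0, hI, hb, hc, hd⟩ := exists_sets (Ph H) (measurableSet_Ph hH)
    (Ph_bound hH hdeg) n
  have hsub : {x | x ∈ Fr ∧ Relation.EqvGen (Hr H n x) 1 (cc 0)} ⊆ I 0 := by
    rintro x ⟨hx, hgen⟩
    have h1 := comb_main (n := n) (M := Mp) (r := rp) (I := fun m => {γ | act γ x ∈ I m})
      (Hr := Hr H n x) ?_ ?_ ?_ Mp_pos ?_ ?_ ?_ hgen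
    · have h2 : act 1 x ∈ I 0 := h1
      rwa [act_one] at h2
    · intro m κ hκ γ hγ
      change act (kk κ * γ) x ∈ I m
      rw [act_mul]
      exact hI m κ hκ _ hγ
    · intro m hm j hj γ
      rcases hb m hm j hj (act γ x) with h | h
      · left
        intro i hi
        change act (U m j i * γ) x ∈ I (m + 1)
        rw [act_mul]
        exact h i hi
      · right
        rw [cl_length]
        exact h
    · intro m hm j hj γ h
      obtain ⟨h1, h2, h3⟩ := hc m hm j hj (act γ x) (fun i hi => by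
        rw [← act_mul]
        exact h i hi)
      refine ⟨h1, ?_, ?_⟩
      · change act ((kk (kap m j 0))⁻¹ * γ) x ∈ I 0
        rw [act_mul]
        exact h2
      · intro i hi
        change act ((kk (kap m j (i + 1)))⁻¹ * (cc (m + 1) * (U m j i * γ))) x ∈ I 0
        have h4 := h3 i hi
        rw [← act_mul] at h4
        have e1 : (kk (kap m j (i + 1)))⁻¹ * (cc (m + 1) * (U m j i * γ)) =
            (kk (kap m j (i + 1)))⁻¹ * (cc (m + 1) * U m j i) * γ := by
          simp only [mul_assoc]
        rw [e1]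
        exact h4
    · rintro γ δ ⟨h1, h2⟩
      refine ⟨hs _ _ h1, ?_⟩
      have := GSn_inv h2
      rwa [mul_inv_rev, inv_inv] at this
    · rintro γ δ ⟨_, h2⟩
      rcases h2 with ⟨κ, h3⟩ | ⟨m, hm, j, hj, h3⟩
      · left
        exact ⟨κ, mul_inv_eq_iff_eq_mul.mp h3⟩
      · right
        rcases h3 with h3 | h3
        · refine ⟨m, hm, (cv Mp rp m 1 j)⁻¹ * γ, j, hj, Or.inl ⟨?_, ?_⟩⟩
          · rw [cv_mul, mul_inv_cancel_left]
          · rw [cv_mul, ← mul_assoc]
            exact mul_inv_eq_iff_eq_mul.mp h3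
        · refine ⟨m, hm, (cv Mp rp m 1 j)⁻¹ * δ, j, hj, Or.inr ⟨?_, ?_⟩⟩
          · rw [cv_mul, mul_inv_cancel_left]
          · rw [mul_inv_rev, inv_inv] at h3
            rw [cv_mul, ← mul_assoc]
            exact mul_inv_eq_iff_eq_mul.mp h3
    · intro m hm γ0 h
      refine hd m hm ?_
      intro j hj
      have h1 := (h j hj).1
      rw [cv_mul m j γ0, cv_mul m (j + 1) γ0, act_mul, act_mul] at h1
      exact h1
  refine (measure_mono hsub).trans ?_
  rw [← ENNReal.ofReal_toReal (measure_ne_top (mu Gam) (I 0))]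
  exact ENNReal.ofReal_le_ofReal hI0

/-- No cheap subgraphing. -/
theorem no_cheap (hHG : H ⊆ GG) (hH : MeasurableSet H) (hs : ∀ x y, (x, y) ∈ H → (y, x) ∈ H)
    (hgen : ∀ x y, Relation.ReflTransGen (fun a b => (a, b) ∈ H) x y ↔ (x, y) ∈ EE)
    (hdeg : ∫⁻ x, ENat.toENNReal (Set.encard {y | (x, y) ∈ H}) ∂(mu Gam) ≤ 10) : False := by
  have hmono : Monotone (fun n => {x | x ∈ Fr ∧ Relation.EqvGen (Hr H n x) 1 (cc 0)}) := by
    intro n n' hn x hx
    exact ⟨hx.1, gen_mono hn hx.2⟩
  have hcover : Fr ⊆ ⋃ n, {x | x ∈ Fr ∧ Relation.EqvGen (Hr H n x) 1 (cc 0)} := by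
    intro x hx
    have h1 : ∀ y, Relation.ReflTransGen (fun a b => (a, b) ∈ H) x y →
        ∃ n γ, act γ x = y ∧ Relation.EqvGen (Hr H n x) 1 γ := by
      intro y h
      induction h with
      | refl => exact ⟨0, 1, act_one x, Relation.EqvGen.refl _⟩
      | tail _ hyz ih =>
        obtain ⟨n, γ, rfl, h2⟩ := ih
        obtain ⟨n', g, hg, h3⟩ := hHG hyz
        change act g (act γ x) = _ at h3
        subst h3
        refine ⟨max n n', g * γ, act_mul g γ x, ?_⟩
        refine Relation.EqvGen.trans _ γ _ (gen_mono (le_max_left n n') h2) ?_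
        refine Relation.EqvGen.rel _ _ ⟨?_, ?_⟩
        · rw [act_mul]
          exact hyz
        · rw [mul_inv_cancel_right]
          exact GSn_mono (le_max_right n n') hg
    obtain ⟨n, γ, h2, h3⟩ := h1 _ ((hgen x (act (cc 0) x)).mpr (EE_act _ _))
    have h4 := Fr_inj hx h2
    subst h4
    exact Set.mem_iUnion.mpr ⟨n, hx, h3⟩
  have h2 : (mu Gam) Fr = 1 := by
    have := prob_compl_eq_zero_iff (μ := mu Gam) measurableSet_Fr
    exact this.mp measure_Fr_compl
  have h3 := measure_mono (μ := mu Gam) hcover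
  rw [hmono.measure_iUnion, h2] at h3
  have h4 : (⨆ n, (mu Gam) {x | x ∈ Fr ∧ Relation.EqvGen (Hr H n x) 1 (cc 0)}) ≤
      ENNReal.ofReal (1 / 2) := iSup_le fun n => small_comp hH hs hdeg n
  have h5 := h3.trans h4
  rw [← ENNReal.ofReal_one, ENNReal.ofReal_le_ofReal_iff (by norm_num)] at h5
  norm_num at h5

end contra

end Pool.Agent.H73
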