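import Pool.Agent.H73.Cut

/-! The chain words. -/

set_option autoImplicit false

namespace Pool.Agent.H73

open Function

/-- The conjugating elements used in the words of level `m`. -/
noncomputable def kap (m j i : ℕ) : K := e (m + 1 + Nat.pair j i)

theorem kap_coset {m j i j' i' : ℕ} {lam : K} (hl : lam ∈ L (m + 1))
    (h : lam * kap m j i = kap m j' i') : j = j' ∧ i = i' ∧ lam = 1 := by
  obtain ⟨h1, h2⟩ := e_coset (m := m + 1) (by omega) lam hl h
  have h3 : Nat.pair j i = Nat.pair j' i' := by omega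
  have h4 := Nat.pair_eq_pair.mp h3
  exact ⟨h4.1, h4.2, h2⟩

theorem kap_inj {m j i j' i' : ℕ} (h : kap m j i = kap m j' i') : j = j' ∧ i = i' := by
  have := kap_coset (m := m) (j := j) (i := i) (j' := j') (i' := i') (lam := 1)
    (L (m + 1)).one_mem (by rw [one_mul]; exact h)
  exact ⟨this.1, this.2.1⟩

/-- Letters of the free group. -/
noncomputable def blet (κ : K) : FreeGroup Om := FreeGroup.of (omk 0 κ)

/-- Letters of the free group. -/
noncomputable def clet (m : ℕ) : FreeGroup Om := FreeGroup.of (omk m 1)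

/-- The initial words of level `m`. -/
noncomputable def uw (m j : ℕ) : ℕ → FreeGroup Om
  | 0 => blet (kap m j 0)
  | (i + 1) => blet (kap m j (i + 1)) * clet (m + 1) * uw m j i

/-- The initial words as elements of `Gam`. -/
noncomputable def U (m j i : ℕ) : Gam := SemidirectProduct.inl (uw m j i)

theorem U_succ (m j i : ℕ) :
    U m j (i + 1) = SemidirectProduct.inl (blet (kap m j (i + 1))) * cc (m + 1) * U m j i := by
  unfold U cc
  rw [uw, map_mul, map_mul]
  rfl

theorem inl_blet (κ : K) : (SemidirectProduct.inl (blet κ) : Gam) = kk κ * cc 0 * (kk κ)⁻¹ := by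
  unfold blet
  rw [conj_c]

open Classical in
theorem ex_blet (κ κ' : K) :
    ex (omk 0 κ') (blet κ) = Multiplicative.ofAdd (if κ = κ' then 1 else 0) := by
  unfold blet
  rw [ex_of]
  congr 1
  by_cases h : κ = κ'
  · simp [h]
  · have : ¬ (omk 0 κ = omk 0 κ') := fun h2 => h (omk_zero_inj h2)
    simp [h, this]

theorem ex_clet (m : ℕ) (κ' : K) : ex (omk 0 κ') (clet (m + 1)) = 1 := by
  classical
  unfold clet
  rw [ex_of]
  have : ¬ (omk (m + 1) 1 = omk 0 κ') := by
    intro h
    have := (omk_eq h).1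
    omega
  simp [this]

open Classical in
theorem ex_uw (m j i : ℕ) (κ' : K) : ex (omk 0 κ') (uw m j i) =
    Multiplicative.ofAdd (if ∃ l, l ≤ i ∧ kap m j l = κ' then 1 else 0) := by
  induction i with
  | zero =>
    rw [uw, ex_blet]
    congr 1
    by_cases h : kap m j 0 = κ'
    · have : ∃ l, l ≤ 0 ∧ kap m j l = κ' := ⟨0, le_refl _, h⟩
      simp [h]
    · simp [h]
  | succ i ih =>
    rw [uw, map_mul, map_mul, ex_blet, ex_clet, ih, mul_one, ← ofAdd_add]
    congr 1
    by_cases h : kap m j (i + 1) = κ'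
    · have h1 : ¬ ∃ l, l ≤ i ∧ kap m j l = κ' := by
        rintro ⟨l, hl, h2⟩
        rw [← h] at h2
        have := (kap_inj h2).2
        omega
      have h3 : ∃ l, l ≤ i + 1 ∧ kap m j l = κ' := ⟨i + 1, le_refl _, h⟩
      rw [if_pos h, if_neg h1, if_pos h3]
      norm_num
    · rw [if_neg h]
      by_cases h1 : ∃ l, l ≤ i ∧ kap m j l = κ'
      · have h3 : ∃ l, l ≤ i + 1 ∧ kap m j l = κ' := by
          obtain ⟨l, hl, h2⟩ := h1
          exact ⟨l, by omega, h2⟩
        rw [if_pos h1, if_pos h3]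
        norm_num
      · have h3 : ¬ ∃ l, l ≤ i + 1 ∧ kap m j l = κ' := by
          rintro ⟨l, hl, h2⟩
          rcases Nat.lt_or_ge l (i + 1) with h4 | h4
          · exact h1 ⟨l, by omega, h2⟩
          · have : l = i + 1 := by omega
            subst this
            exact h h2
        rw [if_neg h1, if_neg h3]
        norm_num

open Classical in
/-- Exponent of a difference of initial words. -/
theorem ex_diff (m j s i : ℕ) (κ' : K) : ex (omk 0 κ') (uw m j s * (uw m j i)⁻¹) =
    Multiplicative.ofAdd ((if ∃ l, l ≤ s ∧ kap m j l = κ' then (1 : ℤ) else 0) -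
      (if ∃ l, l ≤ i ∧ kap m j l = κ' then 1 else 0)) := by
  rw [map_mul, map_inv, ex_uw, ex_uw]
  rfl

theorem ex_diff_eq_one {m j s i : ℕ} {κ' : K}
    (h : ex (omk 0 κ') (uw m j s * (uw m j i)⁻¹) = Multiplicative.ofAdd 1) :
    ∃ l, i < l ∧ l ≤ s ∧ kap m j l = κ' := by
  classical
  rw [ex_diff] at h
  have h2 := Multiplicative.ofAdd.injective h
  by_cases h3 : ∃ l, l ≤ s ∧ kap m j l = κ'
  · by_cases h4 : ∃ l, l ≤ i ∧ kap m j l = κ'
    · rw [if_pos h3, if_pos h4] at h2
      norm_num at h2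
    · obtain ⟨l, hl, h5⟩ := h3
      refine ⟨l, ?_, hl, h5⟩
      by_contra h6
      exact h4 ⟨l, by omega, h5⟩
  · rw [if_neg h3] at h2
    by_cases h4 : ∃ l, l ≤ i ∧ kap m j l = κ'
    · rw [if_pos h4] at h2
      norm_num at h2
    · rw [if_neg h4] at h2
      norm_num at h2

theorem ex_diff_of {m j s i l : ℕ} (h1 : i < l) (h2 : l ≤ s) :
    ex (omk 0 (kap m j l)) (uw m j s * (uw m j i)⁻¹) = Multiplicative.ofAdd 1 := by
  classical
  rw [ex_diff]
  have h3 : ∃ l', l' ≤ s ∧ kap m j l' = kap m j l := ⟨l, h2, rfl⟩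
  have h4 : ¬ ∃ l', l' ≤ i ∧ kap m j l' = kap m j l := by
    rintro ⟨l', h5, h6⟩
    have := (kap_inj h6).2
    omega
  rw [if_pos h3, if_neg h4]
  norm_num

/-- Two chain paths share at most one edge class. -/
theorem small_cancel_aux {m j j' i s i' s' : ℕ} {γ γ' : Gam} {κ κ' : K}
    (hκ' : κ' ∈ L (m + 1)) (his : i < s)
    (h1 : kk κ * (U m j i * γ) = U m j' i' * γ')
    (h2 : kk κ' * (U m j s * γ) = U m j' s' * γ') : j = j' ∧ γ = γ' := by
  have h3 : kk κ' * (U m j s * (U m j i)⁻¹) * (kk κ)⁻¹ = U m j' s' * (U m j' i')⁻¹ := by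
    have h4 : γ = (U m j i)⁻¹ * (kk κ)⁻¹ * (U m j' i' * γ') := by
      rw [← h1]; group
    have h5 : kk κ' * (U m j s * ((U m j i)⁻¹ * (kk κ)⁻¹ * (U m j' i' * γ'))) =
        U m j' s' * γ' := by
      rw [← h4]; exact h2
    have h6 : kk κ' * (U m j s * (U m j i)⁻¹) * (kk κ)⁻¹ * U m j' i' = U m j' s' := by
      apply mul_right_cancel (b := γ')
      rw [← h5]
      group
    rw [← h6]
    group
  have h4 : (SemidirectProduct.inl (phi κ' (uw m j s * (uw m j i)⁻¹)) : Gam) * kk (κ' * κ⁻¹) =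
      SemidirectProduct.inl (uw m j' s' * (uw m j' i')⁻¹) := by
    rw [map_mul (SemidirectProduct.inl), map_inv (SemidirectProduct.inl)]
    change _ = U m j' s' * (U m j' i')⁻¹
    rw [← h3, kk_mul, kk_inv, SemidirectProduct.inl_aut]
    unfold U
    rw [map_mul (SemidirectProduct.inl), map_inv (SemidirectProduct.inl)]
    change kk κ' * _ * kk κ'⁻¹ * (kk κ' * _) = _
    rw [kk_inv]
    group
  have h5 : κ' * κ⁻¹ = 1 := by
    have := congrArg SemidirectProduct.right h4
    simpa [kk] using this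
  have h6 : κ' = κ := mul_inv_eq_one.mp h5
  subst h6
  have h7 : phi κ' (uw m j s * (uw m j i)⁻¹) = uw m j' s' * (uw m j' i')⁻¹ := by
    rw [h5, kk_one, mul_one] at h4
    exact SemidirectProduct.inl_injective h4
  -- use the exponent of the last letter
  have h8 : ex (omk 0 (κ' * kap m j s)) (uw m j' s' * (uw m j' i')⁻¹) =
      Multiplicative.ofAdd 1 := by
    rw [← h7, ex_phi, smul_omk]
    have : κ'⁻¹ * (κ' * kap m j s) = kap m j s := by group
    rw [this]
    exact ex_diff_of his (le_refl _)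
  obtain ⟨l, hl1, hl2, hl3⟩ := ex_diff_eq_one h8
  obtain ⟨hj, hsl, hκ1⟩ := kap_coset hκ' hl3.symm
  subst hj
  subst hκ1
  subst hsl
  refine ⟨rfl, ?_⟩
  have h9 : uw m j s * (uw m j i)⁻¹ = uw m j s' * (uw m j i')⁻¹ := by
    rw [← h7, map_one]
    rfl
  have h10 : i = i' := by
    have ha : i' < i + 1 := by
      have hb : ex (omk 0 (kap m j (i + 1))) (uw m j s' * (uw m j i')⁻¹) =
          Multiplicative.ofAdd 1 := by
        rw [← h9]
        exact ex_diff_of (by omega) (by omega)
      obtain ⟨l, hl1', hl2', hl3'⟩ := ex_diff_eq_one hb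
      have := (kap_inj hl3').2
      omega
    have hb : i < i' + 1 := by
      have hb : ex (omk 0 (kap m j (i' + 1))) (uw m j s * (uw m j i)⁻¹) =
          Multiplicative.ofAdd 1 := by
        rw [h9]
        exact ex_diff_of (by omega) (by omega)
      obtain ⟨l, hl1', hl2', hl3'⟩ := ex_diff_eq_one hb
      have := (kap_inj hl3').2
      omega
    omega
  subst h10
  rw [kk_one, one_mul] at h1
  exact mul_left_cancel h1

theorem small_cancel {m j j' i s i' s' : ℕ} {γ γ' : Gam} {κ κ' : K}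
    (hκ : κ ∈ L (m + 1)) (hκ' : κ' ∈ L (m + 1)) (his : i ≠ s)
    (h1 : kk κ * (U m j i * γ) = U m j' i' * γ')
    (h2 : kk κ' * (U m j s * γ) = U m j' s' * γ') : j = j' ∧ γ = γ' := by
  rcases Nat.lt_or_ge i s with h | h
  · exact small_cancel_aux hκ' h h1 h2
  · exact small_cancel_aux hκ (by omega) h2 h1

theorem U_inj {m j i s : ℕ} {γ : Gam} {κ : K}
    (h1 : kk κ * (U m j i * γ) = U m j s * γ) : i = s := by
  have h3 : kk κ = U m j s * (U m j i)⁻¹ := by
    rw [← mul_assoc] at h1
    have := mul_right_cancel h1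
    rw [← this]
    group
  have h4 : (SemidirectProduct.inl (uw m j s * (uw m j i)⁻¹) : Gam) = kk κ := by
    rw [h3]
    unfold U
    rw [map_mul, map_inv]
  have h5 : uw m j s * (uw m j i)⁻¹ = 1 := by
    have := congrArg SemidirectProduct.left h4
    simpa [kk] using this
  rcases Nat.lt_trichotomy i s with h | h | h
  · have := ex_diff_of (m := m) (j := j) h (le_refl s)
    rw [h5, map_one] at this
    exact absurd (Multiplicative.ofAdd.injective this) (by norm_num)
  · exact h
  · have h6 : uw m j i * (uw m j s)⁻¹ = 1 := by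
      rw [← inv_inv (uw m j i * (uw m j s)⁻¹), mul_inv_rev, inv_inv, h5, inv_one]
    have := ex_diff_of (m := m) (j := j) h (le_refl i)
    rw [h6, map_one] at this
    exact absurd (Multiplicative.ofAdd.injective this) (by norm_num)

end Pool.Agent.H73
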