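import Pool.Agent.H73.Bern3
import Pool.Agent.H73.Words

/-! Ping-pong for the chain words, and the expansion inequality for them. -/

set_option autoImplicit false

namespace Pool.Agent.H73

open MeasureTheory Function
open scoped ENNReal

noncomputable instance : DecidableEq Om := Classical.decEq _

section pingpong

variable (m j : ℕ)

/-- The set `S i` of the ping-pong. -/
def pS (i : ℕ) : Set (FreeGroup Om) := FreeGroup.startsWith (omk 0 (kap m j i), true)

/-- Words after which the path is not in `S i`. -/
def pV (i : ℕ) : Set (FreeGroup Om) := {v | uw m j i * v ∉ pS m j i}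

/-- The set `P i` of the ping-pong. -/
def pP (i : ℕ) : Set (FreeGroup Om) :=
  {v | clet (m + 1) * v ∈ FreeGroup.startsWith (omk 0 (kap m j (i + 1)), false)}

theorem blet_mk (κ : K) : blet κ = FreeGroup.mk [(omk 0 κ, true)] := rfl

theorem clet_mk (l : ℕ) : clet l = FreeGroup.mk [(omk l 1, true)] := rfl

theorem omk_ne_zero {l : ℕ} {κ κ' : K} (h : l ≠ 0) : omk l κ ≠ omk 0 κ' := by
  intro h2
  exact h (omk_eq h2).1

theorem pV_anti_step (i : ℕ) : pV m j (i + 1) ⊆ pV m j i := by
  intro v hv h
  refine hv ?_
  change uw m j i * v ∈ pS m j i at h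
  change blet (kap m j (i + 1)) * clet (m + 1) * uw m j i * v ∈ pS m j (i + 1)
  have h1 : clet (m + 1) * (uw m j i * v) ∈ FreeGroup.startsWith (omk (m + 1) 1, true) := by
    rw [clet_mk]
    refine FreeGroup.startsWith_mk_mul (w := (omk (m + 1) 1, true)) _ ?_
    refine (FreeGroup.startsWith.disjoint_iff_ne.mpr ?_).notMem_of_mem_left h
    intro h2
    have := congrArg Prod.snd h2
    simp at this
  have h2 : blet (kap m j (i + 1)) * (clet (m + 1) * (uw m j i * v)) ∈ pS m j (i + 1) := by
    rw [blet_mk]
    refine FreeGroup.startsWith_mk_mul (w := (omk 0 (kap m j (i + 1)), true)) _ ?_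
    refine (FreeGroup.startsWith.disjoint_iff_ne.mpr ?_).notMem_of_mem_left h1
    intro h2
    exact omk_ne_zero (by omega) (congrArg Prod.fst h2)
  have h3 : blet (kap m j (i + 1)) * clet (m + 1) * uw m j i * v =
      blet (kap m j (i + 1)) * (clet (m + 1) * (uw m j i * v)) := by
    simp only [mul_assoc]
  rw [h3]
  exact h2

theorem pV_anti {i i' : ℕ} (h : i ≤ i') : pV m j i' ⊆ pV m j i := by
  induction i', h using Nat.le_induction with
  | base => exact subset_rfl
  | succ i' _ ih => exact (pV_anti_step m j i').trans ih

theorem pV_succ {i : ℕ} {v : FreeGroup Om} (hv : v ∈ pV m j (i + 1)) :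
    uw m j i * v ∈ pP m j i := by
  by_contra h
  refine hv ?_
  change blet (kap m j (i + 1)) * clet (m + 1) * uw m j i * v ∈ pS m j (i + 1)
  have h3 : blet (kap m j (i + 1)) * clet (m + 1) * uw m j i * v =
      blet (kap m j (i + 1)) * (clet (m + 1) * (uw m j i * v)) := by
    simp only [mul_assoc]
  rw [h3, blet_mk]
  exact FreeGroup.startsWith_mk_mul (w := (omk 0 (kap m j (i + 1)), true)) _ h

theorem left_U_mul (i : ℕ) (γ : Gam) : (U m j i * γ).left = uw m j i * γ.left := by
  unfold U
  simp

/-- The expansion inequality for the words of level `m`. -/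
theorem expU {k : ℕ} (hk : 0 < k) {A : Set (Gam → Bool)} (hA : MeasurableSet A) :
    (mu Gam).real {x | ∀ i < k, act (U m j i) x ∈ A} ≤
      (mu Gam).real A ^ 2 + 27 * (mu Gam).real A / k := by
  refine expansion hk (U m j) (fun i => {γ | γ.left ∈ pS m j i}) (fun i => {γ | γ.left ∈ pP m j i})
    (fun i => {γ | γ.left ∈ pV m j i ∧ γ.left ∉ pV m j (i + 1)}) ?_ ?_ ?_ ?_ hA
  · intro i i' _ _ hne
    rw [Set.disjoint_left]
    intro γ h1 h2
    refine Set.disjoint_left.mp (FreeGroup.startsWith.disjoint_iff_ne.mpr ?_) h1 h2
    intro h3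
    exact hne (kap_inj (omk_zero_inj (congrArg Prod.fst h3))).2
  · intro i i' _ _ hne
    rw [Set.disjoint_left]
    intro γ h1 h2
    refine Set.disjoint_left.mp (FreeGroup.startsWith.disjoint_iff_ne.mpr ?_) h1 h2
    intro h3
    have := (kap_inj (omk_zero_inj (congrArg Prod.fst h3))).2
    omega
  · intro i i' _ _ hne
    rw [Set.disjoint_left]
    rintro γ ⟨h1, h2⟩ ⟨h3, h4⟩
    rcases Nat.lt_or_gt_of_ne hne with h | h
    · exact h2 (pV_anti m j h h3)
    · exact h4 (pV_anti m j h h1)
  · intro i _ γ
    by_cases h1 : (U m j i * γ).left ∈ pS m j i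
    · exact Or.inl h1
    · by_cases h2 : γ.left ∈ pV m j (i + 1)
      · refine Or.inr (Or.inl ?_)
        change (U m j i * γ).left ∈ pP m j i
        rw [left_U_mul]
        exact pV_succ m j h2
      · refine Or.inr (Or.inr ⟨?_, h2⟩)
        rw [left_U_mul] at h1
        exact h1

end pingpong

section countable

instance : Countable K := inferInstanceAs (Countable (ℕ →₀ ZMod 2))

instance (m : ℕ) : Countable (K ⧸ L m) :=
  (QuotientGroup.mk_surjective (s := L m)).countable

instance : Countable Om := inferInstanceAs (Countable (Σ m : ℕ, K ⧸ L m))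

instance : Countable (FreeGroup Om) := by
  have : Function.Surjective (FreeGroup.mk : List (Om × Bool) → FreeGroup Om) :=
    Quot.mk_surjective
  exact this.countable

instance : Countable Gam := by
  have : Function.Injective (fun γ : Gam => (γ.left, γ.right)) := by
    intro a b h
    exact SemidirectProduct.ext (congrArg Prod.fst h) (congrArg Prod.snd h)
  exact this.countable

theorem e_inj {a b : ℕ} (h : e a = e b) : a = b := by
  have := e_coset (m := 0) (a := a) (b := b) (by omega) 1 (L 0).one_mem (by rw [one_mul]; exact h)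
  exact this.1

instance : Infinite Gam := by
  refine Infinite.of_injective (fun n : ℕ => kk (e n)) ?_
  intro a b h
  exact e_inj (kk_inj h)

end countable

section free

variable {G : Type} [Group G]

/-- Flip of one coordinate. -/
noncomputable def flip1 (g : G) : (G → Bool) → (G → Bool) := by
  classical
  exact fun x i => (if i = g then not (x i) else x i)

theorem flip1_self (g : G) (x : G → Bool) : flip1 g x g = not (x g) := by
  unfold flip1
  simp

theorem flip1_ne {g g' : G} (h : g' ≠ g) (x : G → Bool) : flip1 g x g' = x g' := by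
  unfold flip1
  simp [h]

theorem mp_flip1 (g : G) : MeasurePreserving (flip1 g) (mu G) (mu G) := by
  classical
  constructor
  · refine measurable_pi_lambda _ fun i => ?_
    by_cases h : i = g
    · simp only [h, if_true, flip1]
      exact (measurable_from_top (f := not)).comp (measurable_pi_apply g)
    · simp only [h, if_false, flip1]
      exact measurable_pi_apply i
  · have h := Measure.infinitePi_map_pi (fun _ : G => coin)
      (f := fun i b => if i = g then not b else b) (fun i => by
        by_cases h : i = g
        · simp only [h, if_true]; exact measurable_from_top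
        · simp only [h, if_false]; exact measurable_from_top)
    unfold mu
    have h2 : (fun i => coin.map (fun b => if i = g then not b else b)) =
        (fun _ : G => coin) := by
      funext i
      by_cases h : i = g
      · simp only [h, if_true]
        exact coin_not
      · simp only [h, if_false]
        exact Measure.map_id
    rw [h2] at h
    exact h

theorem measurable_coord (g : G) : Measurable (fun x : G → Bool => x g) := measurable_pi_apply g

theorem measurableSet_coord_eq (g g' : G) : MeasurableSet {x : G → Bool | x g = x g'} :=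
  measurableSet_eq_fun (measurable_coord g) (measurable_coord g')

theorem free_aux [Infinite G] {γ : G} (hγ : γ ≠ 1) (n : ℕ) :
    ∃ D : Finset G, (mu G).real {x | ∀ δ ∈ D, x (γ⁻¹ * δ) = x δ} ≤ (2⁻¹ : ℝ) ^ n := by
  classical
  induction n with
  | zero =>
    refine ⟨∅, ?_⟩
    simp
  | succ n ih =>
    obtain ⟨D, hD⟩ := ih
    obtain ⟨δ, hδ⟩ := Infinite.exists_notMem_finset (D ∪ D.image (fun d => γ⁻¹ * d))
    refine ⟨insert δ D, ?_⟩
    have hm : ∀ D : Finset G, MeasurableSet {x : G → Bool | ∀ δ ∈ D, x (γ⁻¹ * δ) = x δ} := by
      intro D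
      have : {x : G → Bool | ∀ δ ∈ D, x (γ⁻¹ * δ) = x δ} =
          ⋂ δ ∈ D, {x : G → Bool | x (γ⁻¹ * δ) = x δ} := by
        ext x; simp
      rw [this]
      exact Finset.measurableSet_biInter _ fun δ _ => measurableSet_coord_eq _ _
    set A := {x : G → Bool | ∀ δ ∈ D, x (γ⁻¹ * δ) = x δ} with hA
    set B := {x : G → Bool | ∀ d ∈ insert δ D, x (γ⁻¹ * d) = x d} with hB
    have hBA : B ⊆ A := fun x hx d hd => hx d (Finset.mem_insert_of_mem hd)
    have h1 : (mu G) B ≤ (mu G) (A \ B) := by
      rw [← (mp_flip1 δ).measure_preimage ((hm D).diff (hm (insert δ D))).nullMeasurableSet]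
      refine measure_mono ?_
      intro x hx
      refine ⟨?_, ?_⟩
      · intro d hd
        have e1 : d ≠ δ := by
          rintro rfl
          exact hδ (Finset.mem_union_left _ hd)
        have e2 : γ⁻¹ * d ≠ δ := by
          rintro rfl
          exact hδ (Finset.mem_union_right _ (Finset.mem_image_of_mem _ hd))
        rw [flip1_ne e1, flip1_ne e2]
        exact hx d (Finset.mem_insert_of_mem hd)
      · intro h
        have h2 := h δ (Finset.mem_insert_self _ _)
        have e2 : γ⁻¹ * δ ≠ δ := by
          intro h3
          exact hγ (inv_eq_one.mp (mul_eq_right.mp h3))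
        rw [flip1_self, flip1_ne e2] at h2
        have h3 := hx δ (Finset.mem_insert_self _ _)
        rw [h3] at h2
        exact absurd h2 (by cases x δ <;> simp)
    have h2 : (mu G).real B ≤ (mu G).real (A \ B) := by
      unfold Measure.real
      exact ENNReal.toReal_mono (measure_ne_top _ _) h1
    have h3 : (mu G).real (A \ B) = (mu G).real A - (mu G).real B :=
      measureReal_sdiff hBA (hm (insert δ D))
    rw [pow_succ]
    linarith

/-- Essential freeness. -/
theorem free_ae [Infinite G] {γ : G} (hγ : γ ≠ 1) : mu G {x | act γ x = x} = 0 := by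
  have h1 : ∀ n : ℕ, (mu G).real {x | act γ x = x} ≤ (2⁻¹ : ℝ) ^ n := by
    intro n
    obtain ⟨D, hD⟩ := free_aux hγ n
    refine (measureReal_mono ?_).trans hD
    intro x hx δ _
    exact congrFun hx δ
  have h2 : (mu G).real {x | act γ x = x} ≤ 0 :=
    ge_of_tendsto' (tendsto_pow_atTop_nhds_zero_of_lt_one (by norm_num) (by norm_num)) h1
  have h3 : (mu G).real {x | act γ x = x} = 0 := le_antisymm h2 measureReal_nonneg
  exact (measureReal_eq_zero_iff).mp h3

end free

section finiteL

/-- The group `L m` is finite. -/
noncomputable def Lequiv (m : ℕ) : L m ≃ (Fin m → ZMod 2) where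
  toFun κ := fun i => (Multiplicative.toAdd (κ : K)) i
  invFun f := ⟨Multiplicative.ofAdd (∑ i : Fin m, Finsupp.single (i : ℕ) (f i)), by
    intro n hn
    rw [toAdd_ofAdd, Finsupp.finsetSum_apply]
    refine Finset.sum_eq_zero fun i _ => ?_
    rw [Finsupp.single_apply, if_neg]
    have := i.2
    omega⟩
  left_inv := by
    intro κ
    refine Subtype.ext ?_
    change Multiplicative.ofAdd _ = _
    apply Multiplicative.toAdd.injective
    rw [toAdd_ofAdd]
    ext n
    rw [Finsupp.finsetSum_apply]
    by_cases hn : n < m
    · rw [Finset.sum_eq_single (⟨n, hn⟩ : Fin m)]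
      · simp
      · intro b _ hb
        rw [Finsupp.single_apply, if_neg]
        intro h
        exact hb (Fin.ext h)
      · intro h
        exact absurd (Finset.mem_univ _) h
    · rw [κ.2 n (by omega)]
      refine Finset.sum_eq_zero fun i _ => ?_
      rw [Finsupp.single_apply, if_neg]
      have := i.2
      omega
  right_inv := by
    intro f
    funext i
    change (∑ i' : Fin m, Finsupp.single (i' : ℕ) (f i')) (i : ℕ) = _
    rw [Finsupp.finsetSum_apply, Finset.sum_eq_single i]
    · simp
    · intro b _ hb
      rw [Finsupp.single_apply, if_neg]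
      intro h
      exact hb (Fin.ext h)
    · intro h
      exact absurd (Finset.mem_univ _) h

instance (m : ℕ) : Finite (L m) := Finite.of_equiv _ (Lequiv m).symm

theorem card_L (m : ℕ) : Nat.card (L m) = 2 ^ m := by
  rw [Nat.card_congr (Lequiv m)]
  simp

end finiteL

end Pool.Agent.H73
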