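import Pool.Agent.H73.Ping
import Pool.Agent.H73.Clos

/-! The parameters and the infected sets. -/

set_option autoImplicit false

namespace Pool.Agent.H73

open MeasureTheory Function
open scoped ENNReal

section params

/-- Auxiliary denominators. -/
def Dp (m w r : ℕ) : ℕ := 1000 * 2 ^ (m + 1) * w ^ 2 * (r + 1)

/-- The parameters. -/
def par : ℕ → ℕ × ℕ
  | 0 => (400, 216 * 2 ^ 1 * 400)
  | (m + 1) =>
    (1216 * (2 ^ (m + 1)) ^ 3 * (par m).1 ^ 2 * ((par m).2 + 1) * Dp m (par m).1 (par m).2,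
      216 * 2 ^ (m + 2) *
      (1216 * (2 ^ (m + 1)) ^ 3 * (par m).1 ^ 2 * ((par m).2 + 1) * Dp m (par m).1 (par m).2))

/-- The number of words of level `m`. -/
def Mp (m : ℕ) : ℕ := (par m).1

/-- The length of words of level `m`. -/
def rp (m : ℕ) : ℕ := (par m).2

theorem Mp_zero : Mp 0 = 400 := rfl

theorem rp_eq (m : ℕ) : rp m = 216 * 2 ^ (m + 1) * Mp m := by
  cases m <;> rfl

theorem Mp_succ (m : ℕ) : Mp (m + 1) =
    1216 * (2 ^ (m + 1)) ^ 3 * Mp m ^ 2 * (rp m + 1) * Dp m (Mp m) (rp m) := rfl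

theorem Mp_pos (m : ℕ) : 0 < Mp m := by
  induction m with
  | zero => rw [Mp_zero]; norm_num
  | succ m ih =>
    rw [Mp_succ]
    unfold Dp
    positivity

theorem rp_ge (m : ℕ) : 216 ≤ rp m := by
  rw [rp_eq]
  have h1 := Mp_pos m
  have h2 : 0 < 2 ^ (m + 1) := by positivity
  have h3 : 0 < 2 ^ (m + 1) * Mp m := Nat.mul_pos h2 h1
  rw [mul_assoc]
  omega

theorem num_step {q w r D M' μ : ℝ} (hq : 1 ≤ q) (hw : 1 ≤ w) (hr : 0 ≤ r) (hD : 1 ≤ D)
    (hM : 1216 * q ^ 3 * w ^ 2 * (r + 1) * D = M') (hμ : μ ≤ 38 / M') :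
    (1 + 2 * q * w * r) * (2 * q * μ) ≤ 1 / (8 * q * w) ∧ 2 * q * μ ≤ 1 / D := by
  have hM0 : 0 < M' := by rw [← hM]; positivity
  have hqw : 1 ≤ q * w := one_le_mul_of_one_le_of_one_le hq hw
  constructor
  · have h1 : (1 + 2 * q * w * r) * (2 * q * μ) ≤ (2 * q * w * (r + 1)) * (2 * q * (38 / M')) := by
      have h2 : 1 + 2 * q * w * r ≤ 2 * q * w * (r + 1) := by nlinarith
      have h3 : 2 * q * μ ≤ 2 * q * (38 / M') := mul_le_mul_of_nonneg_left hμ (by positivity)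
      have h4 : (1 + 2 * q * w * r) * (2 * q * μ) ≤ (1 + 2 * q * w * r) * (2 * q * (38 / M')) :=
        mul_le_mul_of_nonneg_left h3 (by positivity)
      refine h4.trans (mul_le_mul_of_nonneg_right h2 (by positivity))
    refine h1.trans ?_
    have e1 : (2 * q * w * (r + 1)) * (2 * q * (38 / M')) = (152 * q ^ 2 * w * (r + 1)) / M' := by
      ring
    rw [e1, div_le_div_iff₀ hM0 (by positivity), one_mul, ← hM]
    have e2 : 152 * q ^ 2 * w * (r + 1) * (8 * q * w) = 1216 * q ^ 3 * w ^ 2 * (r + 1) := by ring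
    rw [e2]
    exact le_mul_of_one_le_right (by positivity) hD
  · have h3 : 2 * q * μ ≤ 2 * q * (38 / M') := mul_le_mul_of_nonneg_left hμ (by positivity)
    refine h3.trans ?_
    have e1 : 2 * q * (38 / M') = 76 * q / M' := by ring
    rw [e1, div_le_div_iff₀ hM0 (by positivity), one_mul, ← hM]
    have h5 : 76 * q ≤ 1216 * q ^ 3 * w ^ 2 * (r + 1) := by
      have h6 : 1 ≤ q ^ 2 := one_le_pow₀ hq
      have h7 : 1 ≤ w ^ 2 := one_le_pow₀ hw
      have h8 : 1 ≤ q ^ 2 * w ^ 2 * (r + 1) := by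
        have : 1 ≤ q ^ 2 * w ^ 2 := one_le_mul_of_one_le_of_one_le h6 h7
        exact one_le_mul_of_one_le_of_one_le this (by linarith)
      have h9 : 1216 * q ^ 3 * w ^ 2 * (r + 1) = (1216 * q) * (q ^ 2 * w ^ 2 * (r + 1)) := by ring
      rw [h9]
      have h10 : 1216 * q ≤ (1216 * q) * (q ^ 2 * w ^ 2 * (r + 1)) :=
        le_mul_of_one_le_right (by positivity) h8
      linarith
    exact mul_le_mul_of_nonneg_right h5 (by linarith)

end params

section down

theorem down_seq {X : Type} (n : ℕ) : ∀ (Gd : ℕ → X → Prop) (Rl : ℕ → X → X → Prop) (x0 : X)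
    (_ : ∀ m, Gd m x0) (_ : ∀ m y, Gd (m + 1) y → ∃ x, Gd m x ∧ Rl m x y),
    ∃ f : ℕ → X, (∀ m, Gd m (f m)) ∧ ∀ m < n, Rl m (f m) (f (m + 1)) := by
  induction n with
  | zero =>
    intro Gd Rl x0 h0 hs
    exact ⟨fun _ => x0, h0, fun m hm => absurd hm (Nat.not_lt_zero m)⟩
  | succ n ih =>
    intro Gd Rl x0 h0 hs
    obtain ⟨f, hf1, hf2⟩ := ih (fun m => Gd (m + 1)) (fun m => Rl (m + 1)) x0
      (fun m => h0 (m + 1)) (fun m y hy => hs (m + 1) y hy)
    obtain ⟨x, hx1, hx2⟩ := hs 0 (f 0) (hf1 0)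
    refine ⟨fun m => Nat.casesOn m x f, ?_, ?_⟩
    · intro m
      cases m with
      | zero => exact hx1
      | succ m => exact hf1 m
    · intro m hm
      cases m with
      | zero => exact hx2
      | succ m => exact hf2 m (by omega)

end down

section sets

/-- The group `L m` inside `Gam`. -/
noncomputable def Lg (m : ℕ) : Subgroup Gam := (L m).map SemidirectProduct.inr

theorem mem_Lg {m : ℕ} {γ : Gam} : γ ∈ Lg m ↔ ∃ κ ∈ L m, kk κ = γ := Iff.rfl

instance (m : ℕ) : Finite (Lg m) :=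
  Finite.of_equiv _ ((L m).equivMapOfInjective SemidirectProduct.inr
    SemidirectProduct.inr_injective).toEquiv

theorem card_Lg (m : ℕ) : Nat.card (Lg m) = 2 ^ m := by
  rw [← card_L m]
  exact Nat.card_congr ((L m).equivMapOfInjective SemidirectProduct.inr
    SemidirectProduct.inr_injective).toEquiv.symm

/-- All positions of the word `(m, j)` are in `I`. -/
def allp (m j : ℕ) (I : Set (Gam → Bool)) : Set (Gam → Bool) :=
  {x | ∀ i < rp m, act (U m j i) x ∈ I}

theorem measurable_allp {m j : ℕ} {I : Set (Gam → Bool)} (hI : MeasurableSet I) :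
    MeasurableSet (allp m j I) := measurable_all (rp m) (U m) hI j

/-- Good sets of level `m + 1`. -/
structure Gd (m : ℕ) (I : Set (Gam → Bool)) : Prop where
  meas : MeasurableSet I
  small : (mu Gam).real I ≤ 1 / (Dp m (Mp m) (rp m) : ℝ)
  inv : ∀ κ ∈ L (m + 1), ∀ x ∈ I, act (kk κ) x ∈ I
  clos : ∀ j < Mp m, ∀ x, (∀ i < rp m, act (U m j i) x ∈ I) ∨ 3 ≤ cnt (rp m) (U m) I j x

theorem Gd_empty (m : ℕ) : Gd m ∅ where
  meas := MeasurableSet.empty
  small := by
    rw [measureReal_empty]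
    positivity
  inv := by
    intro κ _ x hx
    exact absurd hx (Set.notMem_empty _)
  clos := by
    classical
    intro j _ x
    refine Or.inr ?_
    have h1 : cnt (rp m) (U m) ∅ j x = rp m := by simp [cnt]
    have := rp_ge m
    omega

theorem allp_bound (m j : ℕ) {I : Set (Gam → Bool)} (hI : MeasurableSet I)
    (hs : (mu Gam).real I ≤ 1 / (Dp m (Mp m) (rp m) : ℝ)) :
    (mu Gam).real (allp m j I) ≤
      (1 / (Dp m (Mp m) (rp m) : ℝ)) * (27 / rp m + 1 / (Dp m (Mp m) (rp m) : ℝ)) := by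
  have h1 := expU m j (k := rp m) (by have := rp_ge m; omega) hI
  have h0 : (0 : ℝ) ≤ (mu Gam).real I := measureReal_nonneg
  refine h1.trans ?_
  have e1 : (mu Gam).real I ^ 2 + 27 * (mu Gam).real I / rp m =
      (mu Gam).real I * (27 / rp m + (mu Gam).real I) := by ring
  rw [e1]
  refine mul_le_mul hs (by linarith) (by positivity) (by positivity)

theorem Dp_facts (m : ℕ) : (0 : ℝ) < Dp m (Mp m) (rp m) ∧
    1 / (Dp m (Mp m) (rp m) : ℝ) ≤ 1 ∧
    1 / (Dp m (Mp m) (rp m) : ℝ) ≤ 1 / (Mp m : ℝ) ^ 2 ∧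
    (rp m + 1 : ℝ) * (1 / (Dp m (Mp m) (rp m) : ℝ)) ≤ 1 ∧
    (Mp m : ℝ) * (1 / (Dp m (Mp m) (rp m) : ℝ)) ≤ 1 / (1000 * 2 ^ (m + 1)) := by
  have hw : (1 : ℝ) ≤ Mp m := by exact_mod_cast Mp_pos m
  have hr : (0 : ℝ) ≤ rp m := Nat.cast_nonneg _
  have hq : (1 : ℝ) ≤ 2 ^ (m + 1) := one_le_pow₀ (by norm_num)
  have hD : (Dp m (Mp m) (rp m) : ℝ) = 1000 * 2 ^ (m + 1) * (Mp m : ℝ) ^ 2 * (rp m + 1) := by
    unfold Dp
    push_cast
    ring
  have hw2 : (1 : ℝ) ≤ (Mp m : ℝ) ^ 2 := one_le_pow₀ hw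
  have hD0 : (0 : ℝ) < Dp m (Mp m) (rp m) := by
    rw [hD]
    positivity
  have hq1000 : (1 : ℝ) ≤ 1000 * 2 ^ (m + 1) := by linarith
  have hr1 : (1 : ℝ) ≤ (rp m : ℝ) + 1 := by linarith
  refine ⟨hD0, ?_, ?_, ?_, ?_⟩
  · rw [div_le_one hD0, hD]
    exact one_le_mul_of_one_le_of_one_le (one_le_mul_of_one_le_of_one_le hq1000 hw2) hr1
  · apply one_div_le_one_div_of_le (by positivity)
    rw [hD]
    have h1 : (Mp m : ℝ) ^ 2 ≤ 1000 * 2 ^ (m + 1) * (Mp m : ℝ) ^ 2 :=
      le_mul_of_one_le_left (by positivity) hq1000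
    exact h1.trans (le_mul_of_one_le_right (by positivity) hr1)
  · rw [mul_one_div, div_le_one hD0, hD]
    have h1 : (1 : ℝ) ≤ 1000 * 2 ^ (m + 1) * (Mp m : ℝ) ^ 2 :=
      one_le_mul_of_one_le_of_one_le hq1000 hw2
    exact le_mul_of_one_le_left (by positivity) h1
  · rw [mul_one_div, div_le_div_iff₀ hD0 (by positivity), hD, one_mul]
    have h1 : (Mp m : ℝ) * (1000 * 2 ^ (m + 1)) ≤ (Mp m : ℝ) * (1000 * 2 ^ (m + 1)) * (Mp m : ℝ) :=
      le_mul_of_one_le_right (by positivity) hw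
    have h2 : (Mp m : ℝ) * (1000 * 2 ^ (m + 1)) * (Mp m : ℝ) ≤
        (Mp m : ℝ) * (1000 * 2 ^ (m + 1)) * (Mp m : ℝ) * (rp m + 1) :=
      le_mul_of_one_le_right (by positivity) hr1
    refine (h1.trans h2).trans (le_of_eq ?_)
    ring

theorem sum_allp_bound (m : ℕ) {I : Set (Gam → Bool)} (hI : MeasurableSet I)
    (hs : (mu Gam).real I ≤ 1 / (Dp m (Mp m) (rp m) : ℝ)) :
    (mu Gam).real (⋃ j ∈ Finset.range (Mp m), allp m j I) ≤ 28 / (Mp m : ℝ) := by
  obtain ⟨hD0, hD1, hD2, hD3, hD4⟩ := Dp_facts m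
  have hw : (1 : ℝ) ≤ Mp m := by exact_mod_cast Mp_pos m
  refine (measureReal_biUnion_finset_le _ _).trans ?_
  refine (Finset.sum_le_sum fun j _ => allp_bound m j hI hs).trans ?_
  rw [Finset.sum_const, Finset.card_range, nsmul_eq_mul]
  set τ := 1 / (Dp m (Mp m) (rp m) : ℝ) with hτ
  have hτ0 : 0 ≤ τ := by positivity
  have hr1 : (1 : ℝ) ≤ rp m := by
    have := rp_ge m
    have h2 : 1 ≤ rp m := by omega
    exact_mod_cast h2
  have h1 : 27 / (rp m : ℝ) + τ ≤ 28 := by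
    have : 27 / (rp m : ℝ) ≤ 27 := div_le_self (by norm_num) hr1
    linarith
  have h2 : (Mp m : ℝ) * (τ * (27 / rp m + τ)) ≤ Mp m * (1 / (Mp m : ℝ) ^ 2 * 28) := by
    refine mul_le_mul_of_nonneg_left ?_ (by linarith)
    refine mul_le_mul hD2 h1 (by positivity) (by positivity)
  refine h2.trans (le_of_eq ?_)
  field_simp

/-- One step of the downward construction. -/
theorem Gd_step (Φ : ℕ → Set (Gam → Bool)) (hΦm : ∀ m, MeasurableSet (Φ m))
    (hΦ : ∀ m, (Mp m : ℝ) * (mu Gam).real (Φ m) ≤ 10) (m : ℕ) (I' : Set (Gam → Bool))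
    (h : Gd (m + 1) I') : ∃ I, Gd m I ∧ (Φ (m + 1) ⊆ I ∧
      ∀ j < Mp (m + 1), allp (m + 1) j I' ⊆ I) := by
  classical
  set J : Set (Gam → Bool) := Φ (m + 1) ∪ ⋃ j ∈ Finset.range (Mp (m + 1)), allp (m + 1) j I'
    with hJ
  have hJm : MeasurableSet J :=
    (hΦm (m + 1)).union (Finset.measurableSet_biUnion _ fun j _ => measurable_allp h.meas)
  have hw' : (0 : ℝ) < Mp (m + 1) := by exact_mod_cast Mp_pos (m + 1)
  have hJs : (mu Gam).real J ≤ 38 / (Mp (m + 1) : ℝ) := by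
    refine (measureReal_union_le _ _).trans ?_
    have h1 : (mu Gam).real (Φ (m + 1)) ≤ 10 / (Mp (m + 1) : ℝ) := by
      rw [le_div_iff₀ hw', mul_comm]
      exact hΦ (m + 1)
    have h2 := sum_allp_bound (m + 1) h.meas h.small
    have h3 : (38 : ℝ) / (Mp (m + 1) : ℝ) = 10 / (Mp (m + 1) : ℝ) + 28 / (Mp (m + 1) : ℝ) := by
      ring
    rw [h3]
    exact add_le_add h1 h2
  have hw : (1 : ℝ) ≤ Mp m := by exact_mod_cast Mp_pos m
  have hr : (0 : ℝ) ≤ rp m := Nat.cast_nonneg _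
  have hq : (1 : ℝ) ≤ 2 ^ (m + 1) := one_le_pow₀ (by norm_num)
  have hD : (1 : ℝ) ≤ Dp m (Mp m) (rp m) := by
    have := (Dp_facts m).2.1
    rwa [div_le_one (Dp_facts m).1] at this
  have hM' : 1216 * ((2 : ℝ) ^ (m + 1)) ^ 3 * (Mp m : ℝ) ^ 2 * (rp m + 1) *
      (Dp m (Mp m) (rp m) : ℝ) = (Mp (m + 1) : ℝ) := by
    rw [Mp_succ]
    push_cast
    ring
  obtain ⟨h1, h2⟩ := num_step hq hw hr hD hM' hJs
  obtain ⟨I, hIm, hIinv, hJI, hIs, hIc⟩ := closure_lemma (Lg (m + 1)) (Mp m) (rp m) (U m)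
    (fun A hA j _ => expU m j (by have := rp_ge m; omega) hA) (q := 2 ^ (m + 1))
    (le_of_eq (card_Lg (m + 1))) (Mp_pos m) (le_of_eq (rp_eq m).symm) hJm (by
      push_cast
      exact h1)
  refine ⟨I, ⟨hIm, ?_, ?_, hIc⟩, ?_, ?_⟩
  · refine hIs.trans ?_
    push_cast
    exact h2
  · intro κ hκ x hx
    exact hIinv (kk κ) (mem_Lg.mpr ⟨κ, hκ, rfl⟩) x hx
  · exact fun x hx => hJI (Or.inl hx)
  · intro j hj x hx
    refine hJI (Or.inr ?_)
    simp only [Set.mem_iUnion]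
    exact ⟨j, Finset.mem_range.mpr hj, hx⟩

/-- The infected sets. -/
theorem exists_sets (Φ : ℕ → Set (Gam → Bool)) (hΦm : ∀ m, MeasurableSet (Φ m))
    (hΦ : ∀ m, (Mp m : ℝ) * (mu Gam).real (Φ m) ≤ 10) (n : ℕ) :
    ∃ I : ℕ → Set (Gam → Bool), (∀ m, MeasurableSet (I m)) ∧ (mu Gam).real (I 0) ≤ 1 / 2 ∧
      (∀ m, ∀ κ ∈ L m, ∀ x ∈ I m, act (kk κ) x ∈ I m) ∧
      (∀ m < n, ∀ j < Mp m, ∀ x, (∀ i < rp m, act (U m j i) x ∈ I (m + 1)) ∨
        3 ≤ cnt (rp m) (U m) (I (m + 1)) j x) ∧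
      (∀ m < n, ∀ j < Mp m, ∀ x, (∀ i < rp m, act (U m j i) x ∈ I (m + 1)) →
        x ∈ I m ∧ act (kk (kap m j 0))⁻¹ x ∈ I 0 ∧
        ∀ i < rp m, act ((kk (kap m j (i + 1)))⁻¹ * (cc (m + 1) * U m j i)) x ∈ I 0) ∧
      (∀ m < n, Φ m ⊆ I m) := by
  classical
  obtain ⟨F, hF1, hF2⟩ := down_seq n Gd (fun m I I' => Φ (m + 1) ⊆ I ∧
    ∀ j < Mp (m + 1), allp (m + 1) j I' ⊆ I) ∅ Gd_empty (Gd_step Φ hΦm hΦ)
  let B : ℕ → ℕ → Set (Gam → Bool) := fun m j =>
    (act (kk (kap m j 0)) ⁻¹' allp m j (F m)) ∪ ⋃ i ∈ Finset.range (rp m),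
      act ((kk (kap m j (i + 1)))⁻¹ * (cc (m + 1) * U m j i))⁻¹ ⁻¹' allp m j (F m)
  have hBm : ∀ m j, MeasurableSet (B m j) := by
    intro m j
    refine (measurable_act _ (measurable_allp (hF1 m).meas)).union ?_
    exact Finset.measurableSet_biUnion _ fun i _ =>
      measurable_act _ (measurable_allp (hF1 m).meas)
  let I0 : Set (Gam → Bool) := Φ 0 ∪ ((⋃ j ∈ Finset.range (Mp 0), allp 0 j (F 0)) ∪
    ⋃ m ∈ Finset.range n, ⋃ j ∈ Finset.range (Mp m), B m j)
  have hBs : ∀ m j, (mu Gam).real (B m j) ≤ 55 * (1 / (Dp m (Mp m) (rp m) : ℝ)) := by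
    intro m j
    obtain ⟨hD0, hD1, hD2, hD3, hD4⟩ := Dp_facts m
    have hpre : ∀ γ : Gam, (mu Gam).real (act γ ⁻¹' allp m j (F m)) =
        (mu Gam).real (allp m j (F m)) := by
      intro γ
      unfold Measure.real
      rw [mu_preimage _ (measurable_allp (hF1 m).meas)]
    have h1 : (mu Gam).real (B m j) ≤ (rp m + 1) * (mu Gam).real (allp m j (F m)) := by
      refine (measureReal_union_le _ _).trans ?_
      rw [hpre]
      have h2 : (mu Gam).real (⋃ i ∈ Finset.range (rp m),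
          act ((kk (kap m j (i + 1)))⁻¹ * (cc (m + 1) * U m j i))⁻¹ ⁻¹' allp m j (F m)) ≤
          rp m * (mu Gam).real (allp m j (F m)) := by
        refine (measureReal_biUnion_finset_le _ _).trans ?_
        rw [Finset.sum_congr rfl fun i _ => hpre _]
        simp
      linarith
    refine h1.trans ?_
    have h3 := allp_bound m j (hF1 m).meas (hF1 m).small
    set τ := 1 / (Dp m (Mp m) (rp m) : ℝ) with hτ
    have hτ0 : 0 ≤ τ := by positivity
    have hr1 : (1 : ℝ) ≤ rp m := by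
      have := rp_ge m
      have h2 : 1 ≤ rp m := by omega
      exact_mod_cast h2
    have h4 : (rp m + 1 : ℝ) * (mu Gam).real (allp m j (F m)) ≤
        (rp m + 1) * (τ * (27 / rp m + τ)) := mul_le_mul_of_nonneg_left h3 (by positivity)
    refine h4.trans ?_
    have h5 : (rp m + 1 : ℝ) * (τ * (27 / rp m + τ)) =
        ((rp m + 1 : ℝ) * (27 / rp m) + (rp m + 1) * τ) * τ := by ring
    rw [h5]
    refine mul_le_mul_of_nonneg_right ?_ hτ0
    have h6 : (rp m + 1 : ℝ) * (27 / rp m) ≤ 54 := by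
      rw [mul_div_assoc', div_le_iff₀ (by linarith)]
      linarith
    linarith
  have hI0m : MeasurableSet I0 := by
    refine (hΦm 0).union (MeasurableSet.union ?_ ?_)
    · exact Finset.measurableSet_biUnion _ fun j _ => measurable_allp (hF1 0).meas
    · exact Finset.measurableSet_biUnion _ fun m _ =>
        Finset.measurableSet_biUnion _ fun j _ => hBm m j
  have hI0s : (mu Gam).real I0 ≤ 1 / 2 := by
    have h1 : (mu Gam).real (Φ 0) ≤ 10 / 400 := by
      have := hΦ 0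
      rw [Mp_zero] at this
      push_cast at this
      linarith
    have h2 : (mu Gam).real (⋃ j ∈ Finset.range (Mp 0), allp 0 j (F 0)) ≤ 28 / 400 := by
      have := sum_allp_bound 0 (hF1 0).meas (hF1 0).small
      rw [Mp_zero] at this ⊢
      push_cast at this
      exact this
    have h3 : (mu Gam).real (⋃ m ∈ Finset.range n, ⋃ j ∈ Finset.range (Mp m), B m j) ≤
        55 / 1000 := by
      refine (measureReal_biUnion_finset_le _ _).trans ?_
      have h4 : ∀ m ∈ Finset.range n, (mu Gam).real (⋃ j ∈ Finset.range (Mp m), B m j) ≤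
          55 / 1000 * (1 / 2) ^ (m + 1) := by
        intro m _
        refine (measureReal_biUnion_finset_le _ _).trans ?_
        refine (Finset.sum_le_sum fun j _ => hBs m j).trans ?_
        rw [Finset.sum_const, Finset.card_range, nsmul_eq_mul]
        have h5 := (Dp_facts m).2.2.2.2
        have h6 : (Mp m : ℝ) * (55 * (1 / (Dp m (Mp m) (rp m) : ℝ))) =
            55 * ((Mp m : ℝ) * (1 / (Dp m (Mp m) (rp m) : ℝ))) := by ring
        rw [h6]
        refine (mul_le_mul_of_nonneg_left h5 (by norm_num)).trans (le_of_eq ?_)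
        rw [one_div_pow, ← one_div_mul_one_div]
        ring
      refine (Finset.sum_le_sum h4).trans ?_
      rw [← Finset.mul_sum]
      have h7 : ∀ n : ℕ, ∑ i ∈ Finset.range n, ((1 : ℝ) / 2) ^ (i + 1) = 1 - (1 / 2) ^ n := by
        intro n
        induction n with
        | zero => simp
        | succ n ih =>
          rw [Finset.sum_range_succ, ih]
          ring
      rw [h7]
      have h8 : (0 : ℝ) ≤ (1 / 2) ^ n := by positivity
      linarith
    refine (measureReal_union_le _ _).trans ?_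
    have h9 := (measureReal_union_le (μ := mu Gam) (⋃ j ∈ Finset.range (Mp 0), allp 0 j (F 0))
      (⋃ m ∈ Finset.range n, ⋃ j ∈ Finset.range (Mp m), B m j))
    linarith
  refine ⟨fun m => Nat.casesOn m I0 F, ?_, hI0s, ?_, ?_, ?_, ?_⟩
  · intro m
    cases m with
    | zero => exact hI0m
    | succ m => exact (hF1 m).meas
  · intro m κ hκ x hx
    cases m with
    | zero =>
      have : κ = 1 := L_zero hκ
      subst this
      rw [kk_one, act_one]
      exact hx
    | succ m => exact (hF1 m).inv κ hκ x hx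
  · intro m _ j hj x
    exact (hF1 m).clos j hj x
  · intro m hm j hj x hx
    have hB : ∀ y, y ∈ B m j → y ∈ I0 := by
      intro y hy
      refine Or.inr (Or.inr ?_)
      simp only [Set.mem_iUnion]
      exact ⟨m, Finset.mem_range.mpr hm, j, Finset.mem_range.mpr hj, hy⟩
    refine ⟨?_, ?_, ?_⟩
    · cases m with
      | zero =>
        refine Or.inr (Or.inl ?_)
        simp only [Set.mem_iUnion]
        exact ⟨j, Finset.mem_range.mpr hj, hx⟩
      | succ m => exact (hF2 m (by omega)).2 j hj hx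
    · refine hB _ (Or.inl ?_)
      change act (kk (kap m j 0)) (act (kk (kap m j 0))⁻¹ x) ∈ allp m j (F m)
      rw [act_act_inv]
      exact hx
    · intro i hi
      refine hB _ (Or.inr ?_)
      simp only [Set.mem_iUnion]
      refine ⟨i, Finset.mem_range.mpr hi, ?_⟩
      change act _ (act _ x) ∈ allp m j (F m)
      rw [act_inv_act]
      exact hx
  · intro m hm
    cases m with
    | zero => exact fun x hx => Or.inl hx
    | succ m => exact (hF2 m (by omega)).1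

end sets

end Pool.Agent.H73
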